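import Pool.Agent.Lib.MP_4f753b_an.W.W0

/-!
Row 4f-S1: second order Taylor formula in norm form.

For `p t = F (z + t • (y - z))` the derivative of `t ↦ p t + (1 - t) • p' t` is `(1 - t) • p'' t`, so
`F y - F z - DF z (y - z) = ∫ t in 0..1, (1 - t) • D²F (z + t • (y - z)) (y - z) (y - z)`.
-/

open Set Metric Filter Module MeasureTheory
open scoped ContDiff Topology

namespace Pool.Agent.Walls

variable {V : Type} [NormedAddCommGroup V] [InnerProductSpace ℝ V] [FiniteDimensional ℝ V]

theorem taylor_norm {F : V → V} (hF : ContDiff ℝ 2 F) (y z : V) :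
    ‖F y - F z - fderiv ℝ F z (y - z)‖ ≤
      ‖y - z‖ ^ 2 * ∫ t in (0 : ℝ)..1, (1 - t) * ‖fderiv ℝ (fderiv ℝ F) (z + t • (y - z))‖ := by
  set w : V := y - z with hw
  have h1 : ContDiff ℝ 1 (fderiv ℝ F) := hF.fderiv_right (by norm_num)
  have hd1 : Differentiable ℝ F := hF.differentiable (by norm_num)
  have hd2 : Differentiable ℝ (fderiv ℝ F) := h1.differentiable (by norm_num)
  have hc2 : Continuous (fderiv ℝ (fderiv ℝ F)) := h1.continuous_fderiv (by norm_num)
  have hγ : ∀ t : ℝ, HasDerivAt (fun t : ℝ => z + t • w) w t := by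
    intro t
    have := ((hasDerivAt_id t).smul_const w).const_add z
    simpa using this
  have hγc : Continuous (fun t : ℝ => z + t • w) := by fun_prop
  have hp : ∀ t : ℝ, HasDerivAt (fun t : ℝ => F (z + t • w)) (fderiv ℝ F (z + t • w) w) t := by
    intro t
    exact (hd1 (z + t • w)).hasFDerivAt.comp_hasDerivAt t (hγ t)
  have hp' : ∀ t : ℝ, HasDerivAt (fun t : ℝ => fderiv ℝ F (z + t • w) w)
      (fderiv ℝ (fderiv ℝ F) (z + t • w) w w) t := by
    intro t
    have h2 := (hd2 (z + t • w)).hasFDerivAt.comp_hasDerivAt t (hγ t)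
    have h3 := h2.clm_apply (hasDerivAt_const t w)
    simpa using h3
  have hq : ∀ t : ℝ, HasDerivAt
      (fun t : ℝ => F (z + t • w) + (1 - t) • fderiv ℝ F (z + t • w) w)
      ((1 - t) • fderiv ℝ (fderiv ℝ F) (z + t • w) w w) t := by
    intro t
    have h2 : HasDerivAt (fun t : ℝ => (1 : ℝ) - t) (-1) t := by
      simpa using (hasDerivAt_id t).const_sub (1 : ℝ)
    have h3 := (hp t).add (h2.smul (hp' t))
    refine h3.congr_deriv ?_
    simp
  have hcont : Continuous (fun t : ℝ => (1 - t) • fderiv ℝ (fderiv ℝ F) (z + t • w) w w) := by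
    have h4 : Continuous (fun t : ℝ => fderiv ℝ (fderiv ℝ F) (z + t • w)) := hc2.comp hγc
    exact (continuous_const.sub continuous_id).smul
      ((h4.clm_apply continuous_const).clm_apply continuous_const)
  have hint := intervalIntegral.integral_eq_sub_of_hasDerivAt (a := (0 : ℝ)) (b := 1)
    (fun t _ => hq t) (hcont.intervalIntegrable 0 1)
  have hval : F y - F z - fderiv ℝ F z w =
      ∫ t in (0 : ℝ)..1, (1 - t) • fderiv ℝ (fderiv ℝ F) (z + t • w) w w := by
    rw [hint]
    have hy : z + w = y := by rw [hw]; abel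
    simp only [one_smul, sub_self, zero_smul, add_zero, sub_zero, hy]
    abel
  rw [hval, ← intervalIntegral.integral_const_mul]
  refine (intervalIntegral.norm_integral_le_integral_norm zero_le_one).trans ?_
  refine intervalIntegral.integral_mono_on zero_le_one (hcont.norm.intervalIntegrable 0 1) ?_ ?_
  · refine Continuous.intervalIntegrable ?_ 0 1
    have h4 : Continuous (fun t : ℝ => fderiv ℝ (fderiv ℝ F) (z + t • w)) := hc2.comp hγc
    have h6 : Continuous (fun t : ℝ => ‖fderiv ℝ (fderiv ℝ F) (z + t • w)‖) :=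
      (continuous_norm (E := V →L[ℝ] V →L[ℝ] V)).comp h4
    exact continuous_const.mul ((continuous_const.sub continuous_id).mul h6)
  · intro t ht
    have ht1 : 0 ≤ 1 - t := by linarith [ht.2]
    rw [norm_smul, Real.norm_of_nonneg ht1]
    have h5 : ‖fderiv ℝ (fderiv ℝ F) (z + t • w) w w‖ ≤
        ‖fderiv ℝ (fderiv ℝ F) (z + t • w)‖ * ‖w‖ * ‖w‖ :=
      ContinuousLinearMap.le_opNorm₂ _ _ _
    calc (1 - t) * ‖fderiv ℝ (fderiv ℝ F) (z + t • w) w w‖
        ≤ (1 - t) * (‖fderiv ℝ (fderiv ℝ F) (z + t • w)‖ * ‖w‖ * ‖w‖) :=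
          mul_le_mul_of_nonneg_left h5 ht1
      _ = ‖w‖ ^ 2 * ((1 - t) * ‖fderiv ℝ (fderiv ℝ F) (z + t • w)‖) := by ring

end Pool.Agent.Walls
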