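import Pool.Agent.Lib.MP_4f753b_an.W.W0

/-!
Row 4f-S2: averages over shrunk balls.

`B = closedBall x s`, `y ∈ B`, `0 ≤ t < 1`, `G ≥ 0` continuous, `n = finrank ℝ V`, `p ≥ 1` natural. The map `z ↦ z + t • (y - z) = (1 - t) • z + t • y`
maps `B` into `B` and has Jacobian `(1 - t) ^ n` (`Measure.addHaar_image_homothety`, or `integral_comp_smul` and translation), so
`(1 - t) ^ n * ∫ z in B, G (z + t • (y - z)) ^ p ≤ ∫ z in B, G z ^ p`; then Jensen (`inner_le_Lp_mul_Lq` / `ConvexOn.map_integral_le` /
`pow_arith_mean_le..` for integrals: `(⨍ G) ^ p ≤ ⨍ G ^ p`).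
-/

open Set Metric Filter Module MeasureTheory
open scoped ContDiff Topology

namespace Pool.Agent.Walls

variable {V : Type} [NormedAddCommGroup V] [InnerProductSpace ℝ V] [FiniteDimensional ℝ V]
  [MeasurableSpace V] [BorelSpace V]

open scoped Pointwise in
private theorem S2_change {H : V → ℝ} (hH : Continuous H) (hH0 : ∀ z, 0 ≤ H z) {x y : V} {s : ℝ}
    (hy : y ∈ closedBall x s) {t : ℝ} (ht : 0 ≤ t) (ht1 : t < 1) :
    (1 - t) ^ finrank ℝ V * ∫ z in closedBall x s, H (z + t • (y - z)) ≤
      ∫ z in closedBall x s, H z := by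
  have hc : (0 : ℝ) < 1 - t := by linarith
  have h1 : ∫ z in closedBall x s, H (z + t • (y - z)) =
      ∫ z in closedBall x s, (fun w => H (w + t • y)) ((1 - t) • z) := by
    refine integral_congr_ae (Filter.Eventually.of_forall fun z => ?_)
    change H (z + t • (y - z)) = H ((1 - t) • z + t • y)
    congr 1
    module
  have h2 : ∫ z in closedBall x s, (fun w => H (w + t • y)) ((1 - t) • z) =
      |((1 - t) ^ finrank ℝ V)⁻¹| • ∫ w in (1 - t) • closedBall x s, H (w + t • y) :=
    Measure.setIntegral_comp_smul volume (fun w => H (w + t • y)) (closedBall x s) hc.ne'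
  have h3 : ∫ w in (1 - t) • closedBall x s, H (w + t • y) =
      ∫ v in (fun w => w + t • y) '' ((1 - t) • closedBall x s), H v := by
    have hmp : MeasurePreserving (fun w : V => w + t • y) volume volume :=
      measurePreserving_add_right volume (t • y)
    exact (hmp.setIntegral_image_emb (measurableEmbedding_addRight (t • y)) H _).symm
  have h4 : (fun w => w + t • y) '' ((1 - t) • closedBall x s) ⊆ closedBall x s := by
    rintro _ ⟨w, ⟨z, hz, rfl⟩, rfl⟩
    rw [mem_closedBall, dist_eq_norm] at hz hy ⊢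
    have e : (1 - t) • z + t • y - x = (1 - t) • (z - x) + t • (y - x) := by module
    change ‖(1 - t) • z + t • y - x‖ ≤ s
    rw [e]
    refine (norm_add_le _ _).trans ?_
    rw [norm_smul, norm_smul, Real.norm_of_nonneg hc.le, Real.norm_of_nonneg ht]
    nlinarith
  have hint : IntegrableOn H (closedBall x s) volume :=
    hH.continuousOn.integrableOn_compact (isCompact_closedBall x s)
  have h5 : ∫ v in (fun w => w + t • y) '' ((1 - t) • closedBall x s), H v ≤
      ∫ z in closedBall x s, H z :=
    setIntegral_mono_set hint (Filter.Eventually.of_forall hH0) h4.eventuallyLE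
  have hp : 0 < (1 - t) ^ finrank ℝ V := pow_pos hc _
  rw [h1, h2, h3, smul_eq_mul, abs_of_pos (inv_pos.2 hp), ← mul_assoc, mul_inv_cancel₀ hp.ne',
    one_mul]
  exact h5

theorem shrink_pow_le {G : V → ℝ} (hG : Continuous G) (hG0 : ∀ z, 0 ≤ G z) {x y : V} {s : ℝ}
    (hs : 0 < s) (hy : y ∈ closedBall x s) {t : ℝ} (ht : 0 ≤ t) (ht1 : t < 1) (p : ℕ) (hp : 1 ≤ p) :
    (1 - t) ^ finrank ℝ V * (⨍ z in closedBall x s, G (z + t • (y - z))) ^ p ≤
      ⨍ z in closedBall x s, G z ^ p := by
  have hc : (0 : ℝ) < 1 - t := by linarith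
  have hm0 : (volume (closedBall x s) : ENNReal) ≠ 0 :=
    (measure_closedBall_pos volume x hs).ne'
  have hm1 : (volume (closedBall x s) : ENNReal) ≠ ⊤ := measure_closedBall_lt_top.ne
  have hT : Continuous fun z : V => G (z + t • (y - z)) := by fun_prop
  have hJ : (⨍ z in closedBall x s, G (z + t • (y - z))) ^ p ≤
      ⨍ z in closedBall x s, (G (z + t • (y - z))) ^ p :=
    ConvexOn.map_set_average_le (s := Ici (0 : ℝ)) (convexOn_pow p) (continuous_pow p).continuousOn
      isClosed_Ici hm0 hm1 (Filter.Eventually.of_forall fun z => hG0 _)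
      (hT.continuousOn.integrableOn_compact (isCompact_closedBall x s))
      ((hT.pow p).continuousOn.integrableOn_compact (isCompact_closedBall x s))
  have hC := S2_change (hG.pow p) (fun z => pow_nonneg (hG0 z) p) hy ht ht1
  refine (mul_le_mul_of_nonneg_left hJ (pow_nonneg hc.le _)).trans ?_
  rw [setAverage_eq, setAverage_eq, smul_eq_mul, smul_eq_mul, mul_left_comm]
  exact mul_le_mul_of_nonneg_left hC (inv_nonneg.2 ENNReal.toReal_nonneg)

end Pool.Agent.Walls
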