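import Pool.Agent.Lib.MP_4f753b_an.W.S1
import Pool.Agent.Lib.MP_4f753b_an.W.S2

/-!
Row 4f-S3: the averaged Taylor polynomial.

`n = finrank ℝ V ≥ 3`, `p = n - 1`, `B = closedBall x s`, `G z = ‖fderiv ℝ (fderiv ℝ F) z‖`. The affine map is
`y ↦ ⨍ z in B, (F z + fderiv ℝ F z (y - z)) = b + A y`, `A = ⨍ z in B, fderiv ℝ F z`. For `y ∈ B`, by `taylor_norm` and `‖y - z‖ ≤ 2 s`,
`‖F y - (b + A y)‖ ≤ 4 s ^ 2 * ⨍ z in B, ∫ t in 0..1, (1 - t) * G (z + t • (y - z))`. Exchange the integrals (continuous functions on compact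
sets) and use `shrink_pow_le`: `⨍ z in B, G (z + t • (y - z)) ≤ (1 - t) ^ (- n / p) J ^ (1 / p)`, `J = ⨍ z in B, G z ^ p`, so
`‖F y - (b + A y)‖ ≤ 4 s ^ 2 J ^ (1 / p) ∫ t in 0..1, (1 - t) ^ (1 - n / p)`, and `1 - n / p = - 1 / (n - 1) > -1`
(`integral_rpow`). Finally `J = (∫ z in B, G z ^ p) / (volume of B)` and the volume is `s ^ n` times a constant (`Measure.addHaar_closedBall`).
-/

open Set Metric Filter Module MeasureTheory
open scoped ContDiff Topology

namespace Pool.Agent.Walls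

variable {V : Type} [NormedAddCommGroup V] [InnerProductSpace ℝ V] [FiniteDimensional ℝ V]
  [MeasurableSpace V] [BorelSpace V]

/-- continuous functions are integrable on balls -/
private theorem S3_int {E : Type} [NormedAddCommGroup E] {f : V → E} (hf : Continuous f) (x : V)
    (s : ℝ) : IntegrableOn f (closedBall x s) :=
  hf.continuousOn.integrableOn_compact (isCompact_closedBall x s)

/-- the measure of a ball -/
private theorem S3_vol (x : V) {s : ℝ} (hs : 0 < s) :
    volume.real (closedBall x s) = s ^ finrank ℝ V * volume.real (ball (0 : V) 1) := by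
  unfold Measure.real
  rw [Measure.addHaar_closedBall volume x hs.le, ENNReal.toReal_mul,
    ENNReal.toReal_ofReal (by positivity)]

private theorem S3_vol_pos : 0 < volume.real (ball (0 : V) 1) :=
  ENNReal.toReal_pos (measure_ball_pos volume _ one_pos).ne' measure_ball_lt_top.ne

/-- `∫ (1 - t) g(t) ≤ 2 J ^ (1 / p)` if `(1 - t) ^ (p + 1) g(t) ^ p ≤ J` -/
private theorem S3_one {p : ℕ} (hp : 2 ≤ p) {g : ℝ → ℝ} (hg : Continuous g) 
    {J : ℝ} (hJ : 0 ≤ J) (h : ∀ t, 0 ≤ t → t < 1 → (1 - t) ^ (p + 1) * g t ^ p ≤ J) :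
    ∫ t in (0 : ℝ)..1, (1 - t) * g t ≤ 2 * J ^ (1 / (p : ℝ)) := by
  have hp0 : (0 : ℝ) < p := by positivity
  have hp2 : (2 : ℝ) ≤ p := by exact_mod_cast hp
  have hr : (-1 : ℝ) < -(1 / (p : ℝ)) := by
    rw [neg_lt_neg_iff, div_lt_one hp0]
    linarith
  have key : ∀ t ∈ Ioo (0 : ℝ) 1, (1 - t) * g t ≤ (1 - t) ^ (-(1 / (p : ℝ))) * J ^ (1 / (p : ℝ)) := by
    intro t ht
    have h1 : 0 < 1 - t := by linarith [ht.2]
    have h2 := h t ht.1.le ht.2
    have h3 : ((1 - t) * g t) ^ p ≤ ((1 - t) ^ (-(1 / (p : ℝ))) * J ^ (1 / (p : ℝ))) ^ p := by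
      rw [mul_pow, mul_pow, ← Real.rpow_natCast (J ^ (1 / (p : ℝ))) p, ← Real.rpow_mul hJ,
        one_div_mul_cancel hp0.ne', Real.rpow_one,
        ← Real.rpow_natCast ((1 - t) ^ (-(1 / (p : ℝ)))) p, ← Real.rpow_mul h1.le]
      have e : -(1 / (p : ℝ)) * p = -1 := by field_simp
      rw [e, Real.rpow_neg h1.le, Real.rpow_one]
      have h4 : (1 - t)⁻¹ * ((1 - t) ^ (p + 1) * g t ^ p) ≤ (1 - t)⁻¹ * J :=
        mul_le_mul_of_nonneg_left h2 (by positivity)
      have h5 : (1 - t)⁻¹ * ((1 - t) ^ (p + 1) * g t ^ p) = (1 - t) ^ p * g t ^ p := by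
        rw [pow_succ]
        field_simp
      rwa [h5] at h4
    exact le_of_pow_le_pow_left₀ (by omega) (by positivity) h3
  have hI : IntervalIntegrable (fun t : ℝ => (1 - t) ^ (-(1 / (p : ℝ))) * J ^ (1 / (p : ℝ)))
      volume 0 1 := by
    have h1 : IntervalIntegrable (fun t : ℝ => t ^ (-(1 / (p : ℝ)))) volume 0 1 :=
      intervalIntegral.intervalIntegrable_rpow' hr
    have h2 := (h1.comp_sub_left 1).symm
    simp only [sub_self, sub_zero] at h2
    exact h2.mul_const _
  have hI2 : IntervalIntegrable (fun t : ℝ => (1 - t) * g t) volume 0 1 :=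
    (Continuous.intervalIntegrable (by fun_prop) _ _)
  calc ∫ t in (0 : ℝ)..1, (1 - t) * g t
      ≤ ∫ t in (0 : ℝ)..1, (1 - t) ^ (-(1 / (p : ℝ))) * J ^ (1 / (p : ℝ)) :=
        intervalIntegral.integral_mono_on_of_le_Ioo zero_le_one hI2 hI key
    _ = (∫ t in (0 : ℝ)..1, (1 - t) ^ (-(1 / (p : ℝ)))) * J ^ (1 / (p : ℝ)) := by
        rw [intervalIntegral.integral_mul_const]
    _ = (1 / (-(1 / (p : ℝ)) + 1)) * J ^ (1 / (p : ℝ)) := by
        rw [intervalIntegral.integral_comp_sub_left (fun t : ℝ => t ^ (-(1 / (p : ℝ)))) 1]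
        simp only [sub_self, sub_zero]
        rw [integral_rpow (Or.inl hr), Real.one_rpow, Real.zero_rpow (by linarith), sub_zero]
    _ ≤ 2 * J ^ (1 / (p : ℝ)) := by
        refine mul_le_mul_of_nonneg_right ?_ (Real.rpow_nonneg hJ _)
        have h6 : 1 / (p : ℝ) ≤ 1 / 2 := one_div_le_one_div_of_le (by norm_num) hp2
        rw [div_le_iff₀ (by linarith)]
        linarith

/-- exchange of the integrals -/
private theorem S3_swap {G : V → ℝ} (hG : Continuous G) (x y : V) (s : ℝ) :
    ∫ z in closedBall x s, (∫ t in (0 : ℝ)..1, (1 - t) * G (z + t • (y - z))) =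
      ∫ t in (0 : ℝ)..1, (1 - t) * ∫ z in closedBall x s, G (z + t • (y - z)) := by
  have hc : Continuous (Function.uncurry fun (z : V) (t : ℝ) => (1 - t) * G (z + t • (y - z))) := by
    unfold Function.uncurry
    fun_prop
  have hint : Integrable (Function.uncurry fun (z : V) (t : ℝ) => (1 - t) * G (z + t • (y - z)))
      ((volume.restrict (closedBall x s)).prod (volume.restrict (Ioc (0 : ℝ) 1))) := by
    rw [Measure.prod_restrict]
    have h1 : IntegrableOn (Function.uncurry fun (z : V) (t : ℝ) =>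
        (1 - t) * G (z + t • (y - z))) (closedBall x s ×ˢ Icc (0 : ℝ) 1) (volume.prod volume) :=
      hc.continuousOn.integrableOn_compact ((isCompact_closedBall x s).prod isCompact_Icc)
    exact h1.mono_set (Set.prod_mono Subset.rfl Ioc_subset_Icc_self)
  have h := integral_integral_swap hint
  simp only [intervalIntegral.integral_of_le (zero_le_one' ℝ)]
  rw [h]
  refine integral_congr_ae (Eventually.of_forall fun t => ?_)
  exact integral_const_mul _ _

theorem taylor_avg (V : Type) [NormedAddCommGroup V] [InnerProductSpace ℝ V]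
    [FiniteDimensional ℝ V] [MeasurableSpace V] [BorelSpace V] (hn : 3 ≤ finrank ℝ V) :
    ∃ C : ℝ, 0 < C ∧ ∀ F : V → V, ContDiff ℝ 2 F → ∀ (x : V) (s : ℝ), 0 < s →
      ∃ (A : V →L[ℝ] V) (b : V), ∀ y ∈ closedBall x s,
        ‖F y - (b + A y)‖ ^ (finrank ℝ V - 1) ≤ C * s ^ (finrank ℝ V - 2) *
          ∫ z in closedBall x s, ‖fderiv ℝ (fderiv ℝ F) z‖ ^ (finrank ℝ V - 1) := by
  obtain ⟨p, hp⟩ : ∃ p : ℕ, finrank ℝ V = p + 1 := ⟨finrank ℝ V - 1, by omega⟩
  have hp2 : 2 ≤ p := by omega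
  have hω : 0 < volume.real (ball (0 : V) 1) := S3_vol_pos
  refine ⟨8 ^ p / volume.real (ball (0 : V) 1), by positivity, fun F hF x s hs => ?_⟩
  set G : V → ℝ := fun z => ‖fderiv ℝ (fderiv ℝ F) z‖ with hGdef
  have hdF : ContDiff ℝ 1 (fderiv ℝ F) := hF.fderiv_right (m := 1) (by norm_num)
  have hG : Continuous G := (hdF.continuous_fderiv one_ne_zero).norm
  have hG0 : ∀ z, 0 ≤ G z := fun z => norm_nonneg (fderiv ℝ (fderiv ℝ F) z)
  have hFc : Continuous F := hF.continuous
  have hDc : Continuous (fderiv ℝ F) := hdF.continuous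
  set B := closedBall x s with hB
  have hvol : volume.real B = s ^ (p + 1) * volume.real (ball (0 : V) 1) := by
    rw [hB, S3_vol x hs, hp]
  have hvpos : 0 < volume.real B := by rw [hvol]; positivity
  refine ⟨⨍ z in B, fderiv ℝ F z, ⨍ z in B, (F z - fderiv ℝ F z z), fun y hy => ?_⟩
  have hJ0 : 0 ≤ ⨍ z in B, G z ^ p := by
    rw [setAverage_eq]
    exact smul_nonneg (by positivity) (integral_nonneg fun z => by positivity)
  -- the difference is an average
  have hDy : Continuous fun z => fderiv ℝ F z (y - z) := by fun_prop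
  have hDz : Continuous fun z => fderiv ℝ F z z := by fun_prop
  have hDyy : Continuous fun z => fderiv ℝ F z y := by fun_prop
  have i1 : IntegrableOn (fun z => F z - fderiv ℝ F z z) B := S3_int (hFc.sub hDz) x s
  have i2 : IntegrableOn (fun z => fderiv ℝ F z y) B := S3_int hDyy x s
  have i3 : IntegrableOn (fun z => F z - fderiv ℝ F z z + fderiv ℝ F z y) B := i1.add i2
  have i4 : IntegrableOn (fun _ : V => F y) B := S3_int continuous_const x s
  have e1 : F y - ((⨍ z in B, (F z - fderiv ℝ F z z)) + (⨍ z in B, fderiv ℝ F z) y) =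
      (volume.real B)⁻¹ • ∫ z in B, (F y - F z - fderiv ℝ F z (y - z)) := by
    rw [setAverage_eq, setAverage_eq, _root_.smul_apply,
      ContinuousLinearMap.integral_apply (S3_int hDc x s), ← smul_add,
      ← integral_add i1 i2]
    have e2 : F y = (volume.real B)⁻¹ • ∫ _z in B, F y := by
      rw [setIntegral_const, smul_smul, inv_mul_cancel₀ hvpos.ne', one_smul]
    conv_lhs => rw [e2]
    rw [← smul_sub, ← integral_sub i4 i3]
    congr 1
    refine integral_congr_ae (Eventually.of_forall fun z => ?_)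
    simp only [map_sub]
    abel
  have hpar : Continuous fun z => ∫ t in (0 : ℝ)..1, (1 - t) * G (z + t • (y - z)) := by
    refine intervalIntegral.continuous_parametric_intervalIntegral_of_continuous' ?_ 0 1
    unfold Function.uncurry
    fun_prop
  have e3 : ‖∫ z in B, (F y - F z - fderiv ℝ F z (y - z))‖ ≤
      ∫ z in B, 4 * s ^ 2 * ∫ t in (0 : ℝ)..1, (1 - t) * G (z + t • (y - z)) := by
    refine norm_integral_le_of_norm_le (S3_int (continuous_const.mul hpar) x s) ?_
    refine (ae_restrict_iff' measurableSet_closedBall).2 (Eventually.of_forall fun z hz => ?_)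
    refine (taylor_norm hF y z).trans ?_
    refine mul_le_mul_of_nonneg_right ?_ ?_
    · have h1 : ‖y - z‖ ≤ 2 * s := by
        rw [← dist_eq_norm]
        have := dist_triangle y x z
        rw [mem_closedBall] at hy
        have h2 : dist z x ≤ s := hz
        rw [dist_comm x z] at this
        linarith
      calc ‖y - z‖ ^ 2 ≤ (2 * s) ^ 2 := pow_le_pow_left₀ (norm_nonneg _) h1 2
        _ = 4 * s ^ 2 := by ring
    · refine intervalIntegral.integral_nonneg zero_le_one fun t ht => ?_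
      exact mul_nonneg (by linarith [ht.2]) (hG0 _)
  have e4 : ‖F y - ((⨍ z in B, (F z - fderiv ℝ F z z)) + (⨍ z in B, fderiv ℝ F z) y)‖ ≤
      4 * s ^ 2 * ∫ t in (0 : ℝ)..1, (1 - t) * ⨍ z in B, G (z + t • (y - z)) := by
    rw [e1, norm_smul, Real.norm_of_nonneg (by positivity)]
    refine (mul_le_mul_of_nonneg_left e3 (by positivity)).trans (le_of_eq ?_)
    rw [integral_const_mul, S3_swap hG x y s]
    have e5 : ∀ t : ℝ, (1 - t) * ⨍ z in B, G (z + t • (y - z)) =
        (volume.real B)⁻¹ * ((1 - t) * ∫ z in B, G (z + t • (y - z))) := by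
      intro t
      rw [setAverage_eq, smul_eq_mul]
      ring
    simp only [e5]
    rw [intervalIntegral.integral_const_mul]
    ring
  have hgc : Continuous fun t : ℝ => ⨍ z in B, G (z + t • (y - z)) := by
    simp only [setAverage_eq, smul_eq_mul]
    have h1 : Continuous (Function.uncurry fun (t : ℝ) (z : V) => G (z + t • (y - z))) := by
      unfold Function.uncurry
      fun_prop
    have h2 := continuous_parametric_integral_of_continuous (μ := volume) h1
      (isCompact_closedBall x s)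
    exact continuous_const.mul h2
  have e6 := S3_one hp2 hgc hJ0 (fun t ht ht1 => by
    have := shrink_pow_le hG hG0 hs hy ht ht1 p (by omega)
    rwa [hp] at this)
  have e7 : ‖F y - ((⨍ z in B, (F z - fderiv ℝ F z z)) + (⨍ z in B, fderiv ℝ F z) y)‖ ≤
      8 * s ^ 2 * (⨍ z in B, G z ^ p) ^ (1 / (p : ℝ)) := by
    refine e4.trans ((mul_le_mul_of_nonneg_left e6 (by positivity)).trans (le_of_eq ?_))
    ring
  have hp0 : (0 : ℝ) < p := by positivity
  rw [hp, show p + 1 - 1 = p by omega, show p + 1 - 2 = p - 1 by omega]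
  refine (pow_le_pow_left₀ (norm_nonneg _) e7 p).trans (le_of_eq ?_)
  rw [mul_pow, mul_pow, ← Real.rpow_natCast ((⨍ z in B, G z ^ p) ^ (1 / (p : ℝ))) p,
    ← Real.rpow_mul hJ0, one_div_mul_cancel hp0.ne', Real.rpow_one, setAverage_eq, smul_eq_mul, hvol]
  obtain ⟨q, rfl⟩ : ∃ q : ℕ, p = q + 1 := ⟨p - 1, by omega⟩
  rw [show q + 1 - 1 = q by omega]
  have hs' : s ≠ 0 := hs.ne'
  field_simp
  ring

end Pool.Agent.Walls
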