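import Pool.Agent.Lib.MP_4f753b_an.W.W1

/-!
Row 4f-S4: mollification of a map with a weak Hessian.

`F y = ∫ z, k (y - z) • f z`, `k w = τ⁻¹ ^ n * φ (τ⁻¹ • w)` (smooth, support in `closedBall 0 τ`, integral `1`): a convolution, smooth
(`HasCompactSupport.contDiff_convolution_left`), with `fderiv ℝ (fderiv ℝ F) y v w = ∫ z, D²k (y - z) v w • f z` (or prove it in the form
`fderiv ℝ (fun y => fderiv ℝ F y v) y w`; derivatives fall on `k`: `HasCompactSupport.hasFDerivAt_convolution_left`) `= ∫ z, k (y - z) • H z v w`, the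
definition of `WeakHess` with `ψ z = k (y - z)` (two sign changes). So `‖D²F y‖ ≤ ∫ z, k (y - z) * ‖H z‖`, by Jensen
`‖D²F y‖ ^ p ≤ ∫ z, k (y - z) * ‖H z‖ ^ p`, and Tonelli gives the integral bound. `F → f` locally uniformly because `f` is uniformly continuous on
compact sets. (`‖H ·‖` is measurable because `‖H ·‖ ^ p` is, `p ≥ 1`, and `‖H‖ ≤ 1 + ‖H‖ ^ p` is locally integrable. There is no instance
`ContinuousENorm (V →L[ℝ] V →L[ℝ] V)` in this Mathlib for an inner product space `V`: do not integrate `H` itself, only `H x v w` and `‖H x‖`.)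
-/

open Set Metric Filter Module MeasureTheory
open scoped ContDiff Topology

namespace Pool.Agent.Walls

variable {V : Type} [NormedAddCommGroup V] [InnerProductSpace ℝ V] [FiniteDimensional ℝ V]
  [MeasurableSpace V] [BorelSpace V]

/-- `H` is the weak second derivative of `f`. -/
def WeakHess (f : V → V) (H : V → V →L[ℝ] V →L[ℝ] V) : Prop :=
  (∀ v w : V, LocallyIntegrable fun x => H x v w) ∧ ∀ ψ : V → ℝ, ContDiff ℝ ∞ ψ → HasCompactSupport ψ → ∀ v w : V,
    ∫ x, (fderiv ℝ (fun y => fderiv ℝ ψ y v) x w) • f x = ∫ x, ψ x • H x v w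

theorem S4_tangent (p : ℕ) {a m : ℝ} (ha : 0 ≤ a) (hm : 0 ≤ m) :
    m ^ (p + 1) + ((p : ℝ) + 1) * m ^ p * (a - m) ≤ a ^ (p + 1) := by
  induction p with
  | zero => simp
  | succ p ih =>
    have h1 : a * (m ^ (p + 1) + ((p : ℝ) + 1) * m ^ p * (a - m)) ≤ a * a ^ (p + 1) :=
      mul_le_mul_of_nonneg_left ih ha
    have h2 : 0 ≤ ((p : ℝ) + 1) * m ^ p * (a - m) ^ 2 := by positivity
    have h3 : a ^ (p + 1 + 1) = a * a ^ (p + 1) := by ring
    rw [h3]
    push_cast
    have h4 : m ^ (p + 1 + 1) + (((p : ℝ) + 1) + 1) * m ^ (p + 1) * (a - m) =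
        a * (m ^ (p + 1) + ((p : ℝ) + 1) * m ^ p * (a - m)) -
          ((p : ℝ) + 1) * m ^ p * (a - m) ^ 2 := by ring
    rw [h4]
    linarith

/-- Jensen for a weight of total mass one. -/
theorem S4_jensen {k a : V → ℝ} {p : ℕ} (hk : ∀ x, 0 ≤ k x) (ha : ∀ x, 0 ≤ a x)
    (hki : Integrable k) (hk1 : ∫ x, k x = 1) (hka : Integrable fun x => k x * a x)
    (hkp : Integrable fun x => k x * a x ^ (p + 1)) :
    (∫ x, k x * a x) ^ (p + 1) ≤ ∫ x, k x * a x ^ (p + 1) := by
  obtain ⟨m, hm⟩ : ∃ m, m = ∫ x, k x * a x := ⟨_, rfl⟩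
  have hm0 : 0 ≤ m := by
    rw [hm]
    exact integral_nonneg fun x => mul_nonneg (hk x) (ha x)
  rw [← hm]
  have h1 : ∫ x, (m ^ (p + 1) * k x + ((p : ℝ) + 1) * m ^ p * (k x * a x - m * k x)) ≤
      ∫ x, k x * a x ^ (p + 1) := by
    refine integral_mono ((hki.const_mul _).add ((hka.sub (hki.const_mul _)).const_mul _)) hkp ?_
    intro x
    have := mul_le_mul_of_nonneg_left (S4_tangent p (ha x) hm0) (hk x)
    simp only
    nlinarith
  have e1 := integral_add (f := fun x => m ^ (p + 1) * k x)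
    (g := fun x => ((p : ℝ) + 1) * m ^ p * (k x * a x - m * k x))
    (hki.const_mul _) ((hka.sub (hki.const_mul _)).const_mul _)
  have e2 := integral_sub (f := fun x => k x * a x) (g := fun x => m * k x) hka (hki.const_mul _)
  rw [e1, integral_const_mul, integral_const_mul, e2, integral_const_mul, hk1, ← hm] at h1
  linarith

/-- derivatives of a convolution with a test function -/
theorem S4_fderiv {f : V → V} (hf : Continuous f) {k : V → ℝ} (hk : ContDiff ℝ ∞ k)
    (hkc : HasCompactSupport k) (y v : V) :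
    fderiv ℝ (fun y => ∫ t, k (y - t) • f t) y v = ∫ t, (fderiv ℝ k (y - t) v) • f t := by
  have h1 := hkc.hasFDerivAt_convolution_right (L := (ContinuousLinearMap.lsmul ℝ ℝ).flip)
    (μ := volume) hf.locallyIntegrable (hk.of_le (by simp)) y
  have h2 : (fun y => ∫ t, k (y - t) • f t) =
      convolution f k (ContinuousLinearMap.lsmul ℝ ℝ).flip volume := by
    funext y
    rfl
  rw [h2, h1.fderiv, convolution_precompR_apply (ContinuousLinearMap.lsmul ℝ ℝ).flip
    hf.locallyIntegrable (hkc.fderiv (𝕜 := ℝ)) (hk.continuous_fderiv (by simp))]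
  rfl

theorem exists_mollify {f : V → V} (hf : Continuous f) {H : V → V →L[ℝ] V →L[ℝ] V}
    (hH : WeakHess f H) {p : ℕ} (hp : 1 ≤ p) (hHp : LocallyIntegrable fun x => ‖H x‖ ^ p) (x : V)
    {s τ κ : ℝ} (hs : 0 < s) (hτ : 0 < τ) (hκ : 0 < κ) :
    ∃ F : V → V, ContDiff ℝ 2 F ∧ (∀ y ∈ closedBall x s, ‖F y - f y‖ ≤ κ) ∧
      ∫ z in closedBall x s, ‖fderiv ℝ (fderiv ℝ F) z‖ ^ p ≤
        ∫ z in closedBall x (s + τ), ‖H z‖ ^ p := by
  have : ProperSpace V := FiniteDimensional.proper ℝ V
  obtain ⟨q, rfl⟩ : ∃ q, p = q + 1 := ⟨p - 1, by omega⟩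
  -- uniform continuity
  have huc := (isCompact_closedBall x (s + 1)).uniformContinuousOn_of_continuous hf.continuousOn
  rw [Metric.uniformContinuousOn_iff] at huc
  obtain ⟨η, hη, huc⟩ := huc κ hκ
  obtain ⟨r, hr⟩ : ∃ r, r = min (min η 1) τ := ⟨_, rfl⟩
  have hr0 : 0 < r := by rw [hr]; exact lt_min (lt_min hη one_pos) hτ
  have hrη : r ≤ η := by rw [hr]; exact (min_le_left _ _).trans (min_le_left _ _)
  have hr1 : r ≤ 1 := by rw [hr]; exact (min_le_left _ _).trans (min_le_right _ _)
  have hrτ : r ≤ τ := by rw [hr]; exact min_le_right _ _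
  let φ : ContDiffBump (0 : V) := ⟨r / 2, r, by linarith, by linarith⟩
  obtain ⟨k, hkdef⟩ : ∃ k, k = φ.normed (volume : Measure V) := ⟨_, rfl⟩
  have hksm : ContDiff ℝ ∞ k := by rw [hkdef]; exact φ.contDiff_normed
  have hkc : HasCompactSupport k := by rw [hkdef]; exact φ.hasCompactSupport_normed
  have hk0 : ∀ z, 0 ≤ k z := fun z => by rw [hkdef]; exact φ.nonneg_normed z
  have hk1 : ∫ z, k z = 1 := by rw [hkdef]; exact φ.integral_normed
  have hksupp : ∀ z, k z ≠ 0 → ‖z‖ < r := by
    intro z hz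
    have h1 : z ∈ Function.support (φ.normed (volume : Measure V)) := by
      rw [← hkdef]; exact hz
    rw [φ.support_normed_eq, mem_ball_zero_iff] at h1
    exact h1
  have hkint : Integrable k := hksm.continuous.integrable_of_hasCompactSupport hkc
  obtain ⟨F, hF⟩ : ∃ F : V → V, F = fun y => ∫ t, k (y - t) • f t := ⟨_, rfl⟩
  have hFconv : F = convolution f k (ContinuousLinearMap.lsmul ℝ ℝ).flip volume := by
    rw [hF]
    funext y
    rfl
  have hFsm : ContDiff ℝ ∞ F := by
    rw [hFconv]
    exact hkc.contDiff_convolution_right _ hf.locallyIntegrable hksm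
  -- translated kernel
  have hktr : ∀ y, Continuous fun t => k (y - t) := fun y =>
    hksm.continuous.comp (continuous_const.sub continuous_id)
  have hktrc : ∀ y, HasCompactSupport fun t => k (y - t) := fun y =>
    hkc.comp_homeomorph (Homeomorph.subLeft y)
  have hktrs : ∀ y, ContDiff ℝ ∞ fun t => k (y - t) := fun y =>
    hksm.comp (contDiff_const.sub contDiff_id)
  have hktr1 : ∀ y, ∫ t, k (y - t) = 1 := fun y => by
    rw [integral_sub_left_eq_self, hk1]
  have hktri : ∀ y, Integrable fun t => k (y - t) := fun y =>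
    (hktr y).integrable_of_hasCompactSupport (hktrc y)
  -- the norm of `H`
  have hmeasp : AEStronglyMeasurable (fun x => ‖H x‖ ^ (q + 1)) volume := hHp.aestronglyMeasurable
  have hmeas : AEStronglyMeasurable (fun x => ‖H x‖) volume := by
    have h1 : (fun x => ‖H x‖) = fun x => (‖H x‖ ^ (q + 1)) ^ (((q + 1 : ℕ) : ℝ)⁻¹) := by
      funext x
      exact (Real.pow_rpow_inv_natCast (norm_nonneg (H x)) (Nat.succ_ne_zero q)).symm
    rw [h1]
    exact (hmeasp.aemeasurable.pow_const _).aestronglyMeasurable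
  have hHloc : LocallyIntegrable fun x => ‖H x‖ := by
    have h1 : LocallyIntegrable fun x : V => (1 : ℝ) + ‖H x‖ ^ (q + 1) :=
      (locallyIntegrable_const (1 : ℝ)).add hHp
    refine h1.mono hmeas (Eventually.of_forall fun x => ?_)
    have h2 : ‖H x‖ ≤ 1 + ‖H x‖ ^ (q + 1) := by
      rcases le_total ‖H x‖ 1 with h | h
      · have : 0 ≤ ‖H x‖ ^ (q + 1) := by positivity
        linarith
      · have : ‖H x‖ ≤ ‖H x‖ ^ (q + 1) := le_self_pow₀ h (by omega)
        linarith
    have h3 : (0 : ℝ) ≤ 1 + ‖H x‖ ^ (q + 1) := (norm_nonneg (H x)).trans h2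
    rw [Real.norm_of_nonneg (norm_nonneg (H x)), Real.norm_of_nonneg h3]
    exact h2
  have hi1 : ∀ y, Integrable fun t => k (y - t) * ‖H t‖ := fun y => by
    have := hHloc.integrable_smul_left_of_hasCompactSupport (hktr y) (hktrc y)
    simpa only [smul_eq_mul] using this
  have hip : ∀ y, Integrable fun t => k (y - t) * ‖H t‖ ^ (q + 1) := fun y => by
    have := hHp.integrable_smul_left_of_hasCompactSupport (hktr y) (hktrc y)
    simpa only [smul_eq_mul] using this
  -- second derivative of `F`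
  have hsecond : ∀ y v w, fderiv ℝ (fderiv ℝ F) y w v = ∫ t, k (y - t) • H t v w := by
    intro y v w
    have e1 : (fun y => fderiv ℝ F y v) = fun y => ∫ t, (fderiv ℝ k (y - t) v) • f t := by
      funext y
      rw [hF]
      exact S4_fderiv hf hksm hkc y v
    have hkv : ContDiff ℝ ∞ fun b => fderiv ℝ k b v :=
      (hksm.fderiv_right (m := ∞) (by simp)).clm_apply contDiff_const
    have hkvc : HasCompactSupport fun b => fderiv ℝ k b v := hkc.fderiv_apply (𝕜 := ℝ) v
    have e2 : fderiv ℝ (fun y => fderiv ℝ F y v) y w =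
        ∫ t, (fderiv ℝ (fun b => fderiv ℝ k b v) (y - t) w) • f t := by
      rw [e1]
      exact S4_fderiv hf hkv hkvc y w
    have e3 : fderiv ℝ (fderiv ℝ F) y w v = fderiv ℝ (fun y => fderiv ℝ F y v) y w := by
      have h1 : HasFDerivAt (fderiv ℝ F) (fderiv ℝ (fderiv ℝ F) y) y :=
        (((hFsm.fderiv_right (m := ∞) (by simp)).differentiable (by simp)) y).hasFDerivAt
      have h2 := h1.clm_apply (hasFDerivAt_const v y)
      rw [h2.fderiv]
      simp
    rw [e3, e2]
    have e4 := hH.2 (fun t => k (y - t)) (hktrs y) (hktrc y) v w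
    rw [← e4]
    congr 1
    funext t
    congr 1
    have hd : ∀ (g : V → ℝ), ContDiff ℝ ∞ g → ∀ s u,
        fderiv ℝ (fun t => g (y - t)) s u = - fderiv ℝ g (y - s) u := by
      intro g hg s u
      have h1 : HasFDerivAt (fun t : V => y - t) (-ContinuousLinearMap.id ℝ V) s :=
        (hasFDerivAt_id s).const_sub y
      have h2 : HasFDerivAt g (fderiv ℝ g (y - s)) (y - s) :=
        ((hg.differentiable (by simp)) (y - s)).hasFDerivAt
      have h3 := h2.comp s h1
      have h4 : fderiv ℝ (fun t => g (y - t)) s = (fderiv ℝ g (y - s)).comp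
          (-ContinuousLinearMap.id ℝ V) := h3.fderiv
      rw [h4]
      simp
    have e5 : (fun s => fderiv ℝ (fun t => k (y - t)) s v) =
        fun s => -(fun b => fderiv ℝ k b v) (y - s) := by
      funext s
      exact hd k hksm s v
    rw [e5]
    have e6 : fderiv ℝ (fun s => -(fun b => fderiv ℝ k b v) (y - s)) t w =
        - fderiv ℝ (fun s => (fun b => fderiv ℝ k b v) (y - s)) t w := by
      rw [fderiv_fun_neg]
      rfl
    rw [e6, hd _ hkv t w, neg_neg]
  -- pointwise bound
  have hpt : ∀ y, ‖fderiv ℝ (fderiv ℝ F) y‖ ≤ ∫ t, k (y - t) * ‖H t‖ := by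
    intro y
    apply ContinuousLinearMap.opNorm_le_bound₂
    · exact integral_nonneg fun t => mul_nonneg (hk0 _) (norm_nonneg (H t))
    intro w v
    rw [hsecond y v w]
    have h1 : ‖∫ t, k (y - t) • H t v w‖ ≤ ∫ t, (k (y - t) * ‖H t‖) * (‖w‖ * ‖v‖) := by
      apply norm_integral_le_of_norm_le ((hi1 y).mul_const _)
      refine Eventually.of_forall fun t => ?_
      rw [norm_smul, Real.norm_eq_abs, abs_of_nonneg (hk0 _), mul_assoc]
      apply mul_le_mul_of_nonneg_left _ (hk0 _)
      have := (H t).le_opNorm₂ v w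
      rw [mul_comm ‖w‖ ‖v‖, ← mul_assoc]
      exact this
    rw [integral_mul_const] at h1
    rw [mul_assoc]
    exact h1
  have hle2 : (2 : WithTop ℕ∞) ≤ ∞ := by
    have h : ((2 : ℕ∞) : WithTop ℕ∞) ≤ ((⊤ : ℕ∞) : WithTop ℕ∞) := WithTop.coe_le_coe.2 le_top
    exact h
  refine ⟨F, hFsm.of_le hle2, ?_, ?_⟩
  · intro y hy
    have h1 : dist ((convolution (φ.normed (volume : Measure V)) f
        (ContinuousLinearMap.lsmul ℝ ℝ) volume : V → V) y) (f y) ≤ κ := by
      apply φ.dist_normed_convolution_le hf.aestronglyMeasurable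
      intro z hz
      have hz1 : dist z y < r := hz
      have hy1 : dist y x ≤ s := hy
      have hzx : dist z x ≤ s + 1 := by
        have := dist_triangle z y x
        linarith
      exact (huc z hzx y (by rw [mem_closedBall]; linarith) (hz1.trans_le hrη)).le
    rw [← convolution_flip, ← hkdef, ← hFconv, dist_eq_norm] at h1
    exact h1
  · -- the integral bound
    obtain ⟨h, hh⟩ : ∃ h : V → ℝ, h = (closedBall x (s + τ)).indicator fun t => ‖H t‖ ^ (q + 1) :=
      ⟨_, rfl⟩
    have hhi : Integrable h := by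
      rw [hh, integrable_indicator_iff measurableSet_closedBall]
      exact hHp.integrableOn_isCompact (isCompact_closedBall _ _)
    have hh0 : ∀ t, 0 ≤ h t := by
      intro t
      rw [hh]
      exact indicator_nonneg (fun t _ => by positivity) t
    have hconvi : Integrable (convolution h k (ContinuousLinearMap.mul ℝ ℝ) volume) :=
      hhi.integrable_convolution _ hkint
    have hconv0 : ∀ y, 0 ≤ convolution h k (ContinuousLinearMap.mul ℝ ℝ) volume y := by
      intro y
      refine integral_nonneg fun t => ?_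
      exact mul_nonneg (hh0 t) (hk0 _)
    have hbound : ∀ y ∈ closedBall x s, ‖fderiv ℝ (fderiv ℝ F) y‖ ^ (q + 1) ≤
        convolution h k (ContinuousLinearMap.mul ℝ ℝ) volume y := by
      intro y hy
      have h1 : ‖fderiv ℝ (fderiv ℝ F) y‖ ^ (q + 1) ≤ (∫ t, k (y - t) * ‖H t‖) ^ (q + 1) :=
        pow_le_pow_left₀ (norm_nonneg (fderiv ℝ (fderiv ℝ F) y)) (hpt y) _
      have h2 := S4_jensen (k := fun t => k (y - t)) (a := fun t => ‖H t‖) (p := q)
        (fun t => hk0 _) (fun t => norm_nonneg (H t)) (hktri y) (hktr1 y) (hi1 y) (hip y)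
      refine (h1.trans h2).trans (le_of_eq ?_)
      refine integral_congr_ae (Eventually.of_forall fun t => ?_)
      show k (y - t) * ‖H t‖ ^ (q + 1) = h t * k (y - t)
      by_cases hkt : k (y - t) = 0
      · rw [hkt, zero_mul, mul_zero]
      · have h3 := hksupp _ hkt
        have h4 : t ∈ closedBall x (s + τ) := by
          rw [mem_closedBall]
          have h5 : dist t y < r := by rw [dist_comm, dist_eq_norm]; exact h3
          have h6 : dist y x ≤ s := hy
          have := dist_triangle t y x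
          linarith
        rw [hh, indicator_of_mem h4]
        ring
    have hcF : Continuous fun y => ‖fderiv ℝ (fderiv ℝ F) y‖ ^ (q + 1) := by
      have h1 : ContDiff ℝ ∞ (fderiv ℝ F) := hFsm.fderiv_right (m := ∞) (by simp)
      exact ((h1.continuous_fderiv (by simp)).norm).pow _
    calc ∫ z in closedBall x s, ‖fderiv ℝ (fderiv ℝ F) z‖ ^ (q + 1)
        ≤ ∫ z in closedBall x s, convolution h k (ContinuousLinearMap.mul ℝ ℝ) volume z :=
          setIntegral_mono_on (hcF.continuousOn.integrableOn_compact (isCompact_closedBall _ _))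
            hconvi.integrableOn measurableSet_closedBall hbound
      _ ≤ ∫ z, convolution h k (ContinuousLinearMap.mul ℝ ℝ) volume z :=
          setIntegral_le_integral hconvi (Eventually.of_forall hconv0)
      _ = ∫ z in closedBall x (s + τ), ‖H z‖ ^ (q + 1) := by
          rw [integral_convolution (ContinuousLinearMap.mul ℝ ℝ) hhi hkint, hk1]
          rw [ContinuousLinearMap.mul_apply', mul_one, hh,
            integral_indicator measurableSet_closedBall]

end Pool.Agent.Walls
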