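import Pool.Agent.Lib.MP_4f753b_an.W.S3
import Pool.Agent.Lib.MP_4f753b_an.W.S4

/-!
Row 4f-S5: small energy implies almost affine.

`p = finrank ℝ V - 1`. `exists_mollify` (with `τ = s`) and `taylor_avg` give `‖f y - (b + A y)‖ ≤ ‖F y - (b + A y)‖ + κ` with
`‖F y - (b + A y)‖ ^ p ≤ C s ^ (p - 1) c s = C c s ^ p` (`p - 1 = finrank ℝ V - 2`), so with `κ' = min (1 / (2 M)) (ε / (2 M)) ` and `C c ≤ (κ' / 2) ^ p`, `κ = κ' s / 2`:
`‖f y - (b + A y)‖ ≤ κ' s` on `closedBall x s`. For `‖v‖ = s`: `2 s ≤ M ‖f (x + v) - f (x - v)‖ ≤ M (2 ‖A v‖ + 2 κ' s)`, so `‖v‖ ≤ 2 M ‖A v‖`, for all `v` by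
homogeneity; `A` is invertible with `‖A⁻¹‖ ≤ 2 M`.
-/

open Set Metric Filter Module MeasureTheory
open scoped ContDiff Topology

namespace Pool.Agent.Walls

theorem aa_of_small (V : Type) [NormedAddCommGroup V] [InnerProductSpace ℝ V]
    [FiniteDimensional ℝ V] [MeasurableSpace V] [BorelSpace V] (hn : 3 ≤ finrank ℝ V) {ε M : ℝ}
    (hε : 0 < ε) (hM : 0 < M) : ∃ c : ℝ, 0 < c ∧ ∀ f : V → V, Continuous f →
    ∀ H : V → V →L[ℝ] V →L[ℝ] V, WeakHess f H →
    (LocallyIntegrable fun x => ‖H x‖ ^ (finrank ℝ V - 1)) → ∀ (x : V) (s : ℝ), 0 < s →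
    (∀ y ∈ closedBall x s, ∀ z ∈ closedBall x s, ‖y - z‖ ≤ M * ‖f y - f z‖) →
    ∫ z in closedBall x (2 * s), ‖H z‖ ^ (finrank ℝ V - 1) ≤ c * s → AA ε f x s := by
  obtain ⟨C, hC, hT⟩ := taylor_avg V hn
  set p : ℕ := finrank ℝ V - 1 with hp
  have hp1 : 1 ≤ p := by omega
  have hp0 : p ≠ 0 := by omega
  set q : ℝ := min (1 / (2 * M)) (ε / (2 * M)) with hq
  have hq0 : 0 < q := lt_min (by positivity) (by positivity)
  have hq1 : M * q ≤ 1 / 2 := by
    have h1 : q ≤ 1 / (2 * M) := min_le_left _ _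
    calc M * q ≤ M * (1 / (2 * M)) := mul_le_mul_of_nonneg_left h1 hM.le
      _ = 1 / 2 := by field_simp
  have hq2 : 2 * M * q ≤ ε := by
    have h1 : q ≤ ε / (2 * M) := min_le_right _ _
    calc 2 * M * q ≤ 2 * M * (ε / (2 * M)) := mul_le_mul_of_nonneg_left h1 (by positivity)
      _ = ε := by field_simp
  refine ⟨(q / 2) ^ p / C, by positivity, ?_⟩
  intro f hf H hH hHp x s hs hlip hsmall
  obtain ⟨F, hF2, hFf, hFi⟩ := exists_mollify hf hH hp1 hHp x hs hs
    (κ := q * s / 2) (by positivity)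
  obtain ⟨A0, b, hA⟩ := hT F hF2 x s hs
  have e2 : s + s = 2 * s := by ring
  rw [e2] at hFi
  have hFc : ∀ y ∈ closedBall x s, ‖F y - (b + A0 y)‖ ≤ q * s / 2 := by
    intro y hy
    have h1 := hA y hy
    have h2 : C * s ^ (finrank ℝ V - 2) *
        ∫ z in closedBall x s, ‖fderiv ℝ (fderiv ℝ F) z‖ ^ p ≤ (q * s / 2) ^ p := by
      calc C * s ^ (finrank ℝ V - 2) * ∫ z in closedBall x s, ‖fderiv ℝ (fderiv ℝ F) z‖ ^ p
          ≤ C * s ^ (finrank ℝ V - 2) * ((q / 2) ^ p / C * s) :=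
            mul_le_mul_of_nonneg_left (hFi.trans hsmall) (by positivity)
        _ = (q / 2) ^ p * (s ^ (finrank ℝ V - 2) * s) := by
            field_simp
        _ = (q / 2) ^ p * s ^ p := by
            rw [← pow_succ]
            congr 2
            omega
        _ = (q * s / 2) ^ p := by
            rw [← mul_pow]
            congr 1
            ring
    exact (pow_le_pow_iff_left₀ (norm_nonneg _) (by positivity) hp0).1 (h1.trans h2)
  have hfc : ∀ y ∈ closedBall x s, ‖f y - (b + A0 y)‖ ≤ q * s := by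
    intro y hy
    have h1 := hFf y hy
    have h2 := hFc y hy
    have e : f y - (b + A0 y) = (F y - (b + A0 y)) - (F y - f y) := by abel
    rw [e]
    refine (norm_sub_le _ _).trans ?_
    linarith
  -- lower bound for `A0`
  have hlow1 : ∀ v : V, ‖v‖ = s → s ≤ 2 * M * ‖A0 v‖ := by
    intro v hv
    have m1 : x + v ∈ closedBall x s := by
      rw [mem_closedBall, dist_eq_norm]
      simp [hv]
    have m2 : x - v ∈ closedBall x s := by
      rw [mem_closedBall, dist_eq_norm]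
      simp [hv]
    have h1 := hlip _ m1 _ m2
    have e1 : (x + v) - (x - v) = (2 : ℝ) • v := by
      rw [two_smul]
      abel
    rw [e1, norm_smul, hv, Real.norm_eq_abs, abs_of_pos (by norm_num : (0 : ℝ) < 2)] at h1
    have e3 : f (x + v) - f (x - v) = (f (x + v) - (b + A0 (x + v))) -
        (f (x - v) - (b + A0 (x - v))) + (2 : ℝ) • A0 v := by
      rw [map_add, map_sub, two_smul]
      abel
    have h2 : ‖f (x + v) - f (x - v)‖ ≤ q * s + q * s + 2 * ‖A0 v‖ := by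
      rw [e3]
      refine (norm_add_le _ _).trans (add_le_add ((norm_sub_le _ _).trans
        (add_le_add (hfc _ m1) (hfc _ m2))) ?_)
      rw [norm_smul, Real.norm_eq_abs, abs_of_pos (by norm_num : (0 : ℝ) < 2)]
    have h3 := h1.trans (mul_le_mul_of_nonneg_left h2 hM.le)
    have h4 : M * q * s ≤ 1 / 2 * s := mul_le_mul_of_nonneg_right hq1 hs.le
    nlinarith
  have hlow : ∀ v : V, ‖v‖ ≤ 2 * M * ‖A0 v‖ := by
    intro v
    by_cases hv : v = 0
    · subst hv
      simp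
    · have hv0 : 0 < ‖v‖ := norm_pos_iff.2 hv
      have h1 := hlow1 ((s / ‖v‖) • v) (by
        rw [norm_smul, Real.norm_eq_abs, abs_of_pos (by positivity)]
        field_simp)
      rw [map_smul, norm_smul, Real.norm_eq_abs, abs_of_pos (by positivity)] at h1
      have h2 : s * ‖v‖ ≤ s * (2 * M * ‖A0 v‖) := by
        calc s * ‖v‖ ≤ 2 * M * (s / ‖v‖ * ‖A0 v‖) * ‖v‖ :=
              mul_le_mul_of_nonneg_right h1 hv0.le
          _ = s * (2 * M * ‖A0 v‖) := by field_simp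
      exact le_of_mul_le_mul_left h2 hs
  have hinj : Function.Injective (A0 : V →ₗ[ℝ] V) := by
    rw [← LinearMap.ker_eq_bot, LinearMap.ker_eq_bot']
    intro v hv
    have h1 := hlow v
    have h2 : A0 v = 0 := hv
    rw [h2, norm_zero, mul_zero] at h1
    exact norm_le_zero_iff.1 h1
  set E : V ≃ₗ[ℝ] V := LinearEquiv.ofInjectiveEndo (A0 : V →ₗ[ℝ] V) hinj with hE
  have hEa : ∀ v, E v = A0 v := fun v => by
    rw [hE, LinearEquiv.coe_ofInjectiveEndo]
    rfl
  set A : V ≃L[ℝ] V := E.toContinuousLinearEquiv with hAd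
  have hAa : ∀ v, A v = A0 v := fun v => hEa v
  have hnorm : ‖(A.symm : V →L[ℝ] V)‖ ≤ 2 * M := by
    refine ContinuousLinearMap.opNorm_le_bound _ (by positivity) fun w => ?_
    have h1 := hlow (A.symm w)
    rw [← hAa, A.apply_symm_apply] at h1
    exact h1
  refine ⟨A, b, fun y hy => ?_⟩
  rw [hAa]
  calc ‖(A.symm : V →L[ℝ] V)‖ * ‖f y - (b + A0 y)‖ ≤ 2 * M * (q * s) :=
        mul_le_mul hnorm (hfc y hy) (norm_nonneg _) (by positivity)
    _ = 2 * M * q * s := by ring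
    _ ≤ ε * s := mul_le_mul_of_nonneg_right hq2 hs.le

end Pool.Agent.Walls
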