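import Pool.Agent.Lib.MP_4f753b_an.W.W0

/-!
Row 4f-S6: Vitali.

The family of the closed balls `closedBall x (2 s)`, `x ∈ closedBall 0 R`, `0 < s ≤ r`, `c s < ∫ z in closedBall x (2 s), w z`:
`Vitali.exists_disjoint_subfamily_covering_enlargement_closedBall` gives a disjoint (so countable) subfamily with `closedBall x (2 s) ⊆
closedBall x' (10 s')`. So the projection is covered by the intervals `[x' i - 10 s', x' i + 10 s']`, of total length
`∑ 20 s' ≤ (20 / c) ∑ ∫ z in closedBall x' (2 s'), w z = (20 / c) ∫ z in U, w z`, `U` the disjoint union. The volume of `U` is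
`∑ ω (2 s') ^ n ≤ ω 2 ^ n r ^ (n - 1) ∑ s' ≤ ω 2 ^ n r ^ (n - 1) c⁻¹ ∫ z in closedBall 0 (R + 2), w z` (`r ≤ 1`), which tends to `0` with `r` (`n ≥ 2`), and so
does `∫ z in U, w z` (absolute continuity: `exists_pos_setLIntegral_lt_of_measure_lt`).
-/

open Set Metric Filter Module MeasureTheory
open scoped ContDiff Topology ENNReal

namespace Pool.Agent.Walls

theorem vitali_proj {n : ℕ} (hn : 2 ≤ n) {w : EuclideanSpace ℝ (Fin n) → ℝ} (hw : ∀ x, 0 ≤ w x)
    (hwi : LocallyIntegrable w) (R : ℝ) {c η : ℝ} (hc : 0 < c) (hη : 0 < η) :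
    ∃ r : ℝ, 0 < r ∧ ∀ i : Fin n, volume ((fun x : EuclideanSpace ℝ (Fin n) => x i) ''
      {x | x ∈ closedBall (0 : EuclideanSpace ℝ (Fin n)) R ∧
        ∃ s : ℝ, 0 < s ∧ s ≤ r ∧ c * s < ∫ z in closedBall x (2 * s), w z}) ≤ ENNReal.ofReal η := by
  classical
  set BB : Set (EuclideanSpace ℝ (Fin n)) := closedBall (0 : EuclideanSpace ℝ (Fin n)) (R + 2) with hBB
  have hBBm : MeasurableSet BB := isClosed_closedBall.measurableSet
  set f : EuclideanSpace ℝ (Fin n) → ℝ≥0∞ := BB.indicator (fun x => ENNReal.ofReal (w x)) with hf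
  have hwB : ∀ (x : EuclideanSpace ℝ (Fin n)) (s : ℝ), IntegrableOn w (closedBall x s) := fun x s =>
    hwi.integrableOn_isCompact (isCompact_closedBall x s)
  have hfint : ∫⁻ x, f x ≠ ⊤ := by
    rw [hf, lintegral_indicator hBBm]
    have h1 := (hwB 0 (R + 2)).hasFiniteIntegral
    have h2 : ∫⁻ x in BB, ENNReal.ofReal (w x) = ENNReal.ofReal (∫ x in BB, w x) := by
      rw [ofReal_integral_eq_lintegral_ofReal (hwB 0 (R + 2))
        (Filter.Eventually.of_forall fun x => hw x)]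
    rw [h2]
    exact ENNReal.ofReal_ne_top
  have hε' : ENNReal.ofReal (c * η / 20) ≠ 0 := by
    rw [Ne, ENNReal.ofReal_eq_zero, not_le]
    positivity
  obtain ⟨δ, hδ, hδ2⟩ := exists_pos_setLIntegral_lt_of_measure_lt hfint hε'
  set om : ℝ≥0∞ := volume (ball (0 : EuclideanSpace ℝ (Fin n)) 1) with hom
  have homt : om ≠ ⊤ := measure_ball_lt_top.ne
  set Kc : ℝ := (om * ∫⁻ x, f x).toReal with hKc
  have hKt : om * ∫⁻ x, f x ≠ ⊤ := ENNReal.mul_ne_top homt hfint
  have hK0 : 0 ≤ Kc := ENNReal.toReal_nonneg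
  set δ' : ℝ := (min δ 1).toReal with hδ'
  have hmt : min δ 1 ≠ ⊤ := (lt_of_le_of_lt (min_le_right _ _) ENNReal.one_lt_top).ne
  have hδ'0 : 0 < δ' := ENNReal.toReal_pos (by
    rw [Ne, min_eq_iff]
    rintro (⟨h, _⟩ | ⟨h, _⟩)
    · exact hδ.ne' h
    · exact one_ne_zero h) hmt
  set r : ℝ := min (1 / 2) (c * δ' / (8 * (Kc + 1))) with hr
  have hr0 : 0 < r := lt_min (by norm_num) (by positivity)
  have hr1 : r ≤ 1 / 2 := min_le_left _ _
  have hr2 : 4 * r / c * Kc < δ' := by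
    have h1 : r ≤ c * δ' / (8 * (Kc + 1)) := min_le_right _ _
    have h2 : r * (8 * (Kc + 1)) ≤ c * δ' := by
      rwa [le_div_iff₀ (by positivity)] at h1
    rw [div_mul_eq_mul_div, div_lt_iff₀ hc]
    nlinarith [mul_nonneg hr0.le hK0, mul_pos hc hδ'0]
  refine ⟨r, hr0, fun i => ?_⟩
  set t : Set (EuclideanSpace ℝ (Fin n) × ℝ) := {p | p.1 ∈ closedBall (0 : EuclideanSpace ℝ (Fin n)) R ∧ 0 < p.2 ∧ p.2 ≤ r ∧
    c * p.2 < ∫ z in closedBall p.1 (2 * p.2), w z} with ht
  obtain ⟨u, hut, hud, hucov⟩ := Vitali.exists_disjoint_subfamily_covering_enlargement_closedBall t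
    (fun p => p.1) (fun p => 2 * p.2) (2 * r) (by
      intro p hp
      have := hp.2.2.1
      linarith) 5 (by norm_num)
  have huc : u.Countable := by
    refine hud.countable_of_nonempty_interior ?_
    intro p hp
    refine ⟨p.1, ?_⟩
    exact ball_subset_interior_closedBall (mem_ball_self (by
      have := (hut hp).2.1
      linarith))
  have hm : ∀ p ∈ u, MeasurableSet (closedBall p.1 (2 * p.2)) := fun p _ =>
    isClosed_closedBall.measurableSet
  have hsub : ∀ p ∈ u, closedBall p.1 (2 * p.2) ⊆ BB := by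
    intro p hp z hz
    have h1 := (hut hp).1
    have h2 := (hut hp).2.2.1
    rw [mem_closedBall] at h1 hz
    rw [hBB, mem_closedBall]
    calc dist z 0 ≤ dist z p.1 + dist p.1 0 := dist_triangle _ _ _
      _ ≤ 2 * p.2 + R := add_le_add hz h1
      _ ≤ R + 2 := by linarith
  -- the integral over one ball
  have hint : ∀ p ∈ u, ENNReal.ofReal (c * p.2) ≤ ∫⁻ x in closedBall p.1 (2 * p.2), f x := by
    intro p hp
    have h1 := (hut hp).2.2.2
    have h2 : ∫⁻ x in closedBall p.1 (2 * p.2), f x =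
        ENNReal.ofReal (∫ z in closedBall p.1 (2 * p.2), w z) := by
      rw [ofReal_integral_eq_lintegral_ofReal (hwB _ _) (Filter.Eventually.of_forall fun x => hw x)]
      refine setLIntegral_congr_fun (hm p hp) ?_
      intro x hx
      rw [hf]
      exact Set.indicator_of_mem (hsub p hp hx) _
    rw [h2]
    exact ENNReal.ofReal_le_ofReal h1.le
  have hU := lintegral_biUnion huc hm hud f (μ := volume)
  set U : Set (EuclideanSpace ℝ (Fin n)) := ⋃ p ∈ u, closedBall p.1 (2 * p.2) with hUdef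
  -- the volume of the union
  have hvol : volume U < δ := by
    have h1 : volume U ≤ ∑' p : u, volume (closedBall (p : EuclideanSpace ℝ (Fin n) × ℝ).1 (2 * (p : EuclideanSpace ℝ (Fin n) × ℝ).2)) :=
      measure_biUnion_le volume huc _
    have h2 : ∀ p : u, volume (closedBall (p : EuclideanSpace ℝ (Fin n) × ℝ).1 (2 * (p : EuclideanSpace ℝ (Fin n) × ℝ).2)) ≤
        ENNReal.ofReal (4 * r / c) * om *
          ∫⁻ x in closedBall (p : EuclideanSpace ℝ (Fin n) × ℝ).1 (2 * (p : EuclideanSpace ℝ (Fin n) × ℝ).2), f x := by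
      intro p
      have hp := hut p.2
      have hs0 : 0 < (p : EuclideanSpace ℝ (Fin n) × ℝ).2 := hp.2.1
      have hsr : (p : EuclideanSpace ℝ (Fin n) × ℝ).2 ≤ r := hp.2.2.1
      set s := (p : EuclideanSpace ℝ (Fin n) × ℝ).2 with hs
      rw [Measure.addHaar_closedBall volume _ (by positivity : 0 ≤ 2 * s)]
      have h3 : (2 * s) ^ Module.finrank ℝ (EuclideanSpace ℝ (Fin n)) ≤ 4 * r / c * (c * s) := by
        rw [finrank_euclideanSpace_fin]
        have h4 : (2 * s) ^ n ≤ (2 * s) ^ 2 :=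
          pow_le_pow_of_le_one (by positivity) (by linarith) hn
        have h5 : 4 * r / c * (c * s) = 4 * r * s := by field_simp
        rw [h5]
        nlinarith
      calc ENNReal.ofReal ((2 * s) ^ Module.finrank ℝ (EuclideanSpace ℝ (Fin n))) * volume (ball (0 : EuclideanSpace ℝ (Fin n)) 1)
          ≤ ENNReal.ofReal (4 * r / c * (c * s)) * om := by
            gcongr
        _ = ENNReal.ofReal (4 * r / c) * om * ENNReal.ofReal (c * s) := by
            rw [ENNReal.ofReal_mul (by positivity)]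
            ring
        _ ≤ ENNReal.ofReal (4 * r / c) * om *
          ∫⁻ x in closedBall (p : EuclideanSpace ℝ (Fin n) × ℝ).1 (2 * (p : EuclideanSpace ℝ (Fin n) × ℝ).2), f x :=
            mul_le_mul_right (hint p p.2) _
    have h6 : ∑' p : u, volume (closedBall (p : EuclideanSpace ℝ (Fin n) × ℝ).1 (2 * (p : EuclideanSpace ℝ (Fin n) × ℝ).2)) ≤
        ENNReal.ofReal (4 * r / c) * om * ∫⁻ x in U, f x := by
      rw [hU, ← ENNReal.tsum_mul_left]
      exact ENNReal.tsum_le_tsum h2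
    have h7 : ENNReal.ofReal (4 * r / c) * om * ∫⁻ x in U, f x ≤
        ENNReal.ofReal (4 * r / c * Kc) := by
      rw [ENNReal.ofReal_mul (by positivity), hKc, ENNReal.ofReal_toReal hKt, mul_assoc]
      gcongr
      exact Measure.restrict_le_self
    have h8 : ENNReal.ofReal (4 * r / c * Kc) < min δ 1 := by
      rw [ENNReal.ofReal_lt_iff_lt_toReal (by positivity) hmt]
      exact hr2
    exact lt_of_le_of_lt (h1.trans (h6.trans h7)) (h8.trans_le (min_le_left _ _))
  have hI := (hδ2 U hvol).le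
  -- the projections
  have hcov : ((fun x : EuclideanSpace ℝ (Fin n) => x i) '' {x | x ∈ closedBall (0 : EuclideanSpace ℝ (Fin n)) R ∧
      ∃ s : ℝ, 0 < s ∧ s ≤ r ∧ c * s < ∫ z in closedBall x (2 * s), w z}) ⊆
      ⋃ p ∈ u, Icc ((p : EuclideanSpace ℝ (Fin n) × ℝ).1 i - 10 * p.2) (p.1 i + 10 * p.2) := by
    rintro y ⟨x, ⟨hx, s, hs0, hsr, hs⟩, rfl⟩
    obtain ⟨q, hq, hq2⟩ := hucov (x, s) ⟨hx, hs0, hsr, hs⟩
    have h1 : x ∈ closedBall q.1 (5 * (2 * q.2)) := hq2 (mem_closedBall_self (by positivity))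
    rw [mem_closedBall] at h1
    have h2 : |x i - q.1 i| ≤ dist x q.1 := by
      rw [dist_eq_norm, ← Real.norm_eq_abs]
      exact PiLp.norm_apply_le (x - q.1) i
    rw [Set.mem_iUnion₂]
    refine ⟨q, hq, ?_⟩
    have h3 := abs_le.1 (h2.trans h1)
    simp only [mem_Icc]
    constructor <;> linarith [h3.1, h3.2]
  calc volume _ ≤ volume (⋃ p ∈ u, Icc ((p : EuclideanSpace ℝ (Fin n) × ℝ).1 i - 10 * p.2) (p.1 i + 10 * p.2)) :=
        measure_mono hcov
    _ ≤ ∑' p : u, volume (Icc ((p : EuclideanSpace ℝ (Fin n) × ℝ).1 i - 10 * (p : EuclideanSpace ℝ (Fin n) × ℝ).2)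
          ((p : EuclideanSpace ℝ (Fin n) × ℝ).1 i + 10 * (p : EuclideanSpace ℝ (Fin n) × ℝ).2)) := measure_biUnion_le volume huc _
    _ ≤ ∑' p : u, ENNReal.ofReal (20 / c) *
          ∫⁻ x in closedBall (p : EuclideanSpace ℝ (Fin n) × ℝ).1 (2 * (p : EuclideanSpace ℝ (Fin n) × ℝ).2), f x := by
        refine ENNReal.tsum_le_tsum fun p => ?_
        have hs0 : 0 < (p : EuclideanSpace ℝ (Fin n) × ℝ).2 := (hut p.2).2.1
        rw [Real.volume_Icc]
        have h4 : (p : EuclideanSpace ℝ (Fin n) × ℝ).1 i + 10 * (p : EuclideanSpace ℝ (Fin n) × ℝ).2 - ((p : EuclideanSpace ℝ (Fin n) × ℝ).1 i - 10 * (p : EuclideanSpace ℝ (Fin n) × ℝ).2) =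
            20 / c * (c * (p : EuclideanSpace ℝ (Fin n) × ℝ).2) := by
          field_simp
          ring
        rw [h4, ENNReal.ofReal_mul (by positivity)]
        exact mul_le_mul_right (hint p p.2) _
    _ = ENNReal.ofReal (20 / c) * ∫⁻ x in U, f x := by rw [hU, ENNReal.tsum_mul_left]
    _ ≤ ENNReal.ofReal (20 / c) * ENNReal.ofReal (c * η / 20) := mul_le_mul_right hI _
    _ = ENNReal.ofReal η := by
        rw [← ENNReal.ofReal_mul (by positivity)]
        congr 1
        field_simp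

end Pool.Agent.Walls
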