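import Pool.Agent.Lib.MP_4f753b_an.W.W9
import Pool.Agent.Lib.MP_4f753b_an.W.S5
import Pool.Agent.Lib.MP_4f753b_an.W.S6

/-!
Row 4f-S7: homeomorphisms with weak second derivatives in `L ^ (n - 1)`.

`approx_of_walls` with `h = f`: given `R`, `δ`: `M > 0` for the ball of radius `R + 1`, `c` from `aa_of_small`, `r` from `vitali_proj` for
`w = ‖H ·‖ ^ (n - 1)` and `η = δ / 2`, replaced by `min r 1`. For `t ∈ Ioo a (a + δ)` not in the exceptional projection all `x ∈ closedBall 0 R` with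
`x i = t` are good; an open interval of length `δ` minus a set of measure at most `δ / 2` is infinite (it has positive outer measure).
-/

open Set Metric Filter Module MeasureTheory Pool.Agent.TopCells
open scoped ContDiff Topology ENNReal

namespace Pool.Agent.Walls

theorem approx_of_weakHess {n : ℕ} (hn : 3 ≤ n)
    (f : EuclideanSpace ℝ (Fin n) ≃ₜ EuclideanSpace ℝ (Fin n))
    (hinv : ∀ R : ℝ, ∃ M : ℝ, ∀ x ∈ closedBall (0 : EuclideanSpace ℝ (Fin n)) R,
      ∀ y ∈ closedBall (0 : EuclideanSpace ℝ (Fin n)) R, ‖x - y‖ ≤ M * ‖f x - f y‖)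
    (H : EuclideanSpace ℝ (Fin n) →
      EuclideanSpace ℝ (Fin n) →L[ℝ] EuclideanSpace ℝ (Fin n) →L[ℝ] EuclideanSpace ℝ (Fin n))
    (hH : WeakHess f H) (hHp : LocallyIntegrable fun x => ‖H x‖ ^ (n - 1)) : Approx f := by
  classical
  obtain ⟨ε, hε, hwalls⟩ := approx_of_walls n (by omega)
  apply hwalls f
  intro R hR δ hδ
  refine ⟨f, fun x _ => by simpa using hδ, ?_⟩
  obtain ⟨M', hM'⟩ := hinv (R + 1)
  have hM : 0 < max M' 1 := lt_max_of_lt_right one_pos
  have hfin : finrank ℝ (EuclideanSpace ℝ (Fin n)) = n := by simp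
  obtain ⟨c, hc, haa⟩ := aa_of_small (EuclideanSpace ℝ (Fin n)) (by rw [hfin]; exact hn) hε hM
  have hδ2 : 0 < δ / 2 := by positivity
  obtain ⟨r, hr, hvit⟩ := vitali_proj (n := n) (by omega)
    (w := fun x => ‖H x‖ ^ (n - 1)) (fun x => by positivity) hHp R hc hδ2
  refine ⟨min r 1, lt_min hr one_pos, fun i a => ?_⟩
  set E : Set ℝ := (fun x : EuclideanSpace ℝ (Fin n) => x i) ''
      {x | x ∈ closedBall (0 : EuclideanSpace ℝ (Fin n)) R ∧
        ∃ s : ℝ, 0 < s ∧ s ≤ r ∧ c * s < ∫ z in closedBall x (2 * s), ‖H z‖ ^ (n - 1)} with hE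
  have hvE : volume E ≤ ENNReal.ofReal (δ / 2) := hvit i
  have hsub : Ioo a (a + δ) \ E ⊆ {t : ℝ | t ∈ Ioo a (a + δ) ∧
        ∀ x ∈ closedBall (0 : EuclideanSpace ℝ (Fin n)) R, x i = t →
          ∀ s : ℝ, 0 < s → s ≤ min r 1 → AA ε f x s} := by
    rintro t ⟨ht, htE⟩
    refine ⟨ht, fun x hx hxt s hs hsr => ?_⟩
    have hs1 : s ≤ 1 := hsr.trans (min_le_right _ _)
    have hs2 : s ≤ r := hsr.trans (min_le_left _ _)
    have hball : closedBall x s ⊆ closedBall (0 : EuclideanSpace ℝ (Fin n)) (R + 1) := by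
      refine closedBall_subset_closedBall' ?_
      have := mem_closedBall.1 hx
      linarith
    refine haa f f.continuous H hH ?_ x s hs ?_ ?_
    · rw [hfin]
      exact hHp
    · intro y hy z hz
      refine (hM' y (hball hy) z (hball hz)).trans ?_
      exact mul_le_mul_of_nonneg_right (le_max_left _ _) (norm_nonneg _)
    · rw [hfin]
      by_contra hcon
      push Not at hcon
      exact htE ⟨x, ⟨hx, s, hs, hs2, hcon⟩, hxt⟩
  refine Set.Infinite.mono hsub ?_
  intro hfinite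
  have h0 : volume (Ioo a (a + δ) \ E) = 0 := hfinite.measure_zero _
  have h1 : volume (Ioo a (a + δ)) ≤ volume (Ioo a (a + δ) \ E) + volume E := by
    refine (measure_mono ?_).trans (measure_union_le _ _)
    intro t ht
    by_cases h : t ∈ E
    · exact Or.inr h
    · exact Or.inl ⟨ht, h⟩
  rw [h0, zero_add, Real.volume_Ioo] at h1
  have h2 := h1.trans hvE
  have h3 : a + δ - a = δ := by ring
  rw [h3, ENNReal.ofReal_le_ofReal_iff hδ2.le] at h2
  linarith

end Pool.Agent.Walls
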