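import Pool.Agent.Lib.MP_4f753b_an.W.S4

/-!
# Weak second derivatives from their components
-/

open Set Metric Filter Module MeasureTheory
open scoped ContDiff Topology

namespace Pool.Agent.Walls

variable {n : ℕ}

/-- The bilinear map with the given components. -/
noncomputable def bil (h : Fin n → Fin n → EuclideanSpace ℝ (Fin n)) :
    EuclideanSpace ℝ (Fin n) →L[ℝ] EuclideanSpace ℝ (Fin n) →L[ℝ] EuclideanSpace ℝ (Fin n) :=
  ∑ i, ∑ j, (EuclideanSpace.proj i : EuclideanSpace ℝ (Fin n) →L[ℝ] ℝ).smulRight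
    ((EuclideanSpace.proj j : EuclideanSpace ℝ (Fin n) →L[ℝ] ℝ).smulRight (h i j))

theorem bil_apply (h : Fin n → Fin n → EuclideanSpace ℝ (Fin n))
    (v w : EuclideanSpace ℝ (Fin n)) : bil h v w = ∑ i, ∑ j, (v i * w j) • h i j := by
  simp only [bil, sum_apply, ContinuousLinearMap.smulRight_apply, smul_apply, smul_smul]
  rfl

theorem bil_norm (h : Fin n → Fin n → EuclideanSpace ℝ (Fin n)) :
    ‖bil h‖ ≤ ∑ i, ∑ j, ‖h i j‖ := by
  have h0 : 0 ≤ ∑ i, ∑ j, ‖h i j‖ :=
    Finset.sum_nonneg fun i _ => Finset.sum_nonneg fun j _ => norm_nonneg _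
  refine ContinuousLinearMap.opNorm_le_bound _ h0 fun v => ?_
  refine ContinuousLinearMap.opNorm_le_bound _ (mul_nonneg h0 (norm_nonneg v)) fun w => ?_
  rw [bil_apply, Finset.sum_mul, Finset.sum_mul]
  refine (norm_sum_le _ _).trans (Finset.sum_le_sum fun i _ => ?_)
  rw [Finset.sum_mul, Finset.sum_mul]
  refine (norm_sum_le _ _).trans (Finset.sum_le_sum fun j _ => ?_)
  rw [norm_smul, norm_mul]
  have h1 : ‖v i‖ ≤ ‖v‖ := PiLp.norm_apply_le v i
  have h2 : ‖w j‖ ≤ ‖w‖ := PiLp.norm_apply_le w j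
  calc ‖v i‖ * ‖w j‖ * ‖h i j‖ ≤ ‖v‖ * ‖w‖ * ‖h i j‖ := by gcongr
    _ = ‖h i j‖ * ‖v‖ * ‖w‖ := by ring

theorem bil_sub (a b : Fin n → Fin n → EuclideanSpace ℝ (Fin n)) :
    bil a = bil b + bil (fun i j => a i j - b i j) := by
  refine ContinuousLinearMap.ext fun v => ContinuousLinearMap.ext fun w => ?_
  rw [add_apply, add_apply, bil_apply, bil_apply, bil_apply, ← Finset.sum_add_distrib]
  refine Finset.sum_congr rfl fun i _ => ?_
  rw [← Finset.sum_add_distrib]
  refine Finset.sum_congr rfl fun j _ => ?_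
  rw [← smul_add, add_sub_cancel]

theorem continuous_norm_bil :
    Continuous fun a : Fin n → Fin n → EuclideanSpace ℝ (Fin n) => ‖bil a‖ := by
  refine (LipschitzWith.of_le_add_mul (K := (n : NNReal) * n) fun a b => ?_).continuous
  have h1 : ‖bil a‖ ≤ ‖bil b‖ + ‖bil (fun i j => a i j - b i j)‖ := by
    conv_lhs => rw [bil_sub a b]
    exact ContinuousLinearMap.opNorm_add_le _ _
  have h2 := bil_norm fun i j => a i j - b i j
  have h3 : ∑ i, ∑ j, ‖a i j - b i j‖ ≤ ∑ _i : Fin n, ∑ _j : Fin n, dist a b := by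
    refine Finset.sum_le_sum fun i _ => Finset.sum_le_sum fun j _ => ?_
    rw [← dist_eq_norm]
    exact (dist_le_pi_dist (a i) (b i) j).trans (dist_le_pi_dist a b i)
  have h4 : ∑ _i : Fin n, ∑ _j : Fin n, dist a b = ((n : NNReal) * n : NNReal) * dist a b := by
    simp
    ring
  linarith

/-- Local integrability of the power of the norm. -/
theorem locallyIntegrable_bil {p : ℕ} {h : Fin n → Fin n → EuclideanSpace ℝ (Fin n) →
    EuclideanSpace ℝ (Fin n)} (h1 : ∀ i j, LocallyIntegrable (h i j))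
    (h2 : ∀ i j, LocallyIntegrable fun x => ‖h i j x‖ ^ (p + 1)) :
    LocallyIntegrable fun x => ‖bil fun i j => h i j x‖ ^ (p + 1) := by
  have hm : AEStronglyMeasurable (fun x => ‖bil fun i j => h i j x‖ ^ (p + 1)) volume := by
    have h4 : AEStronglyMeasurable (fun x => fun i j => h i j x) volume :=
      (aemeasurable_pi_iff.2 fun i => aemeasurable_pi_iff.2 fun j =>
        (h1 i j).aestronglyMeasurable.aemeasurable).aestronglyMeasurable
    exact (continuous_norm_bil.comp_aestronglyMeasurable h4).pow _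
  have hb' : LocallyIntegrable fun x : EuclideanSpace ℝ (Fin n) =>
      ∑ ij : Fin n × Fin n, ‖h ij.1 ij.2 x‖ ^ (p + 1) :=
    locallyIntegrable_finsetSum _ fun (ij : Fin n × Fin n) _ => h2 ij.1 ij.2
  have hb : LocallyIntegrable (((Fintype.card (Fin n × Fin n) : ℝ) ^ p) •
      fun x : EuclideanSpace ℝ (Fin n) => ∑ ij : Fin n × Fin n, ‖h ij.1 ij.2 x‖ ^ (p + 1)) :=
    hb'.smul _
  refine hb.mono hm (Eventually.of_forall fun x => ?_)
  have h5 : ‖bil fun i j => h i j x‖ ≤ ∑ ij : Fin n × Fin n, ‖h ij.1 ij.2 x‖ := by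
    refine (bil_norm _).trans (le_of_eq ?_)
    rw [Fintype.sum_prod_type]
  have h6 : (∑ ij : Fin n × Fin n, ‖h ij.1 ij.2 x‖) ^ (p + 1) ≤
      ((Fintype.card (Fin n × Fin n) : ℝ) ^ p) *
        ∑ ij : Fin n × Fin n, ‖h ij.1 ij.2 x‖ ^ (p + 1) := by
    have := pow_sum_le_card_mul_sum_pow (s := (Finset.univ : Finset (Fin n × Fin n)))
      (f := fun ij => ‖h ij.1 ij.2 x‖) (fun ij _ => norm_nonneg _) p
    simpa [Finset.card_univ] using this
  have h0 : 0 ≤ ‖bil fun i j => h i j x‖ := ContinuousLinearMap.opNorm_nonneg _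
  rw [Real.norm_of_nonneg (pow_nonneg h0 _), Pi.smul_apply, smul_eq_mul,
    Real.norm_of_nonneg (by positivity)]
  exact (pow_le_pow_left₀ h0 h5 _).trans h6

theorem clm_expand (L : EuclideanSpace ℝ (Fin n) →L[ℝ] ℝ) (v : EuclideanSpace ℝ (Fin n)) :
    L v = ∑ i, v i * L (EuclideanSpace.single i 1) := by
  have h1 : v = ∑ i, v i • (EuclideanSpace.single i (1 : ℝ)) := by
    ext k
    simp [Pi.single_apply]
  conv_lhs => rw [h1]
  rw [map_sum]
  exact Finset.sum_congr rfl fun i _ => by rw [map_smul, smul_eq_mul]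

theorem integral_comb {g : Fin n → Fin n → EuclideanSpace ℝ (Fin n) → EuclideanSpace ℝ (Fin n)}
    (hg : ∀ i j, Integrable (g i j)) (c : Fin n → Fin n → ℝ) :
    ∫ x, ∑ i, ∑ j, c i j • g i j x = ∑ i, ∑ j, c i j • ∫ x, g i j x := by
  have h1 : ∀ i j, Integrable fun x => c i j • g i j x := fun i j => (hg i j).smul (c i j)
  have h2 : ∀ i, Integrable fun x => ∑ j, c i j • g i j x := fun i =>
    integrable_finsetSum _ fun j _ => h1 i j
  rw [integral_finsetSum _ fun i _ => h2 i]
  refine Finset.sum_congr rfl fun i _ => ?_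
  rw [integral_finsetSum _ fun j _ => h1 i j]
  exact Finset.sum_congr rfl fun j _ => integral_smul _ _

theorem weakHess_bil {f : EuclideanSpace ℝ (Fin n) → EuclideanSpace ℝ (Fin n)} (hf : Continuous f)
    {h : Fin n → Fin n → EuclideanSpace ℝ (Fin n) → EuclideanSpace ℝ (Fin n)}
    (h1 : ∀ i j, LocallyIntegrable (h i j))
    (h2 : ∀ i j, ∀ ψ : EuclideanSpace ℝ (Fin n) → ℝ, ContDiff ℝ ∞ ψ → HasCompactSupport ψ →
      ∫ x, (fderiv ℝ (fun y => fderiv ℝ ψ y (EuclideanSpace.single i 1)) x
        (EuclideanSpace.single j 1)) • f x = ∫ x, ψ x • h i j x) :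
    WeakHess f fun x => bil fun i j => h i j x := by
  constructor
  · intro v w
    have h3 : (fun x => (bil fun i j => h i j x) v w) =
        fun x => ∑ ij : Fin n × Fin n, ((v ij.1 * w ij.2) • h ij.1 ij.2) x := by
      funext x
      rw [bil_apply, Fintype.sum_prod_type]
      rfl
    rw [h3]
    exact locallyIntegrable_finsetSum _ fun (ij : Fin n × Fin n) _ => (h1 ij.1 ij.2).smul _
  · intro ψ hψ hψc v w
    have hd : ∀ u : EuclideanSpace ℝ (Fin n), ContDiff ℝ ∞ fun y => fderiv ℝ ψ y u := fun u =>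
      (hψ.fderiv_right (m := ∞) (by simp)).clm_apply contDiff_const
    have h3 : ∀ x, fderiv ℝ (fun y => fderiv ℝ ψ y v) x w = ∑ i, ∑ j, (v i * w j) *
        fderiv ℝ (fun y => fderiv ℝ ψ y (EuclideanSpace.single i 1)) x
          (EuclideanSpace.single j 1) := by
      intro x
      have h4 : (fun y => fderiv ℝ ψ y v) =
          fun y => ∑ i, v i * fderiv ℝ ψ y (EuclideanSpace.single i 1) := by
        funext y
        exact clm_expand _ _
      have h5 : HasFDerivAt (fun y => ∑ i, v i * fderiv ℝ ψ y (EuclideanSpace.single i 1))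
          (∑ i, v i • fderiv ℝ (fun y => fderiv ℝ ψ y (EuclideanSpace.single i 1)) x) x := by
        refine HasFDerivAt.fun_sum fun i _ => ?_
        exact (((hd _).differentiable (by simp)) x).hasFDerivAt.const_mul (v i)
      rw [h4, h5.fderiv, sum_apply]
      refine Finset.sum_congr rfl fun i _ => ?_
      rw [smul_apply, clm_expand, smul_eq_mul, Finset.mul_sum]
      exact Finset.sum_congr rfl fun j _ => by ring
    have hint1 : ∀ i j : Fin n, Integrable fun x =>
        (fderiv ℝ (fun y => fderiv ℝ ψ y (EuclideanSpace.single i 1)) x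
          (EuclideanSpace.single j 1)) • f x := by
      intro i j
      have hc0 : Continuous fun x =>
          (fderiv ℝ (fun y => fderiv ℝ ψ y (EuclideanSpace.single i (1 : ℝ))) x
            (EuclideanSpace.single j 1)) :=
        ((hd _).continuous_fderiv (by simp)).clm_apply continuous_const
      have hc : Continuous fun x =>
          (fderiv ℝ (fun y => fderiv ℝ ψ y (EuclideanSpace.single i (1 : ℝ))) x
            (EuclideanSpace.single j 1)) • f x := hc0.smul hf
      refine hc.integrable_of_hasCompactSupport ?_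
      have hs1 : HasCompactSupport fun y => fderiv ℝ ψ y (EuclideanSpace.single i (1 : ℝ)) :=
        hψc.fderiv_apply ℝ _
      have hs2 : HasCompactSupport fun x =>
          fderiv ℝ (fun y => fderiv ℝ ψ y (EuclideanSpace.single i (1 : ℝ))) x
            (EuclideanSpace.single j 1) := hs1.fderiv_apply ℝ _
      exact hs2.smul_right (f' := f)
    have hint2 : ∀ i j : Fin n, Integrable fun x => ψ x • h i j x := fun i j =>
      (h1 i j).integrable_smul_left_of_hasCompactSupport hψ.continuous hψc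
    calc ∫ x, (fderiv ℝ (fun y => fderiv ℝ ψ y v) x w) • f x =
        ∫ x, ∑ i, ∑ j, (v i * w j) • ((fderiv ℝ (fun y => fderiv ℝ ψ y
          (EuclideanSpace.single i 1)) x (EuclideanSpace.single j 1)) • f x) := by
          congr 1
          funext x
          rw [h3 x, Finset.sum_smul]
          refine Finset.sum_congr rfl fun i _ => ?_
          rw [Finset.sum_smul]
          exact Finset.sum_congr rfl fun j _ => by rw [smul_smul]
      _ = ∑ i, ∑ j, (v i * w j) • ∫ x, (fderiv ℝ (fun y => fderiv ℝ ψ y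
          (EuclideanSpace.single i 1)) x (EuclideanSpace.single j 1)) • f x := by
          exact integral_comb hint1 fun i j => v i * w j
      _ = ∑ i, ∑ j, (v i * w j) • ∫ x, ψ x • h i j x := by
          refine Finset.sum_congr rfl fun i _ => Finset.sum_congr rfl fun j _ => ?_
          rw [h2 i j ψ hψ hψc]
      _ = ∫ x, ∑ i, ∑ j, (v i * w j) • (ψ x • h i j x) := by
          exact (integral_comb hint2 fun i j => v i * w j).symm
      _ = ∫ x, ψ x • (bil fun i j => h i j x) v w := by
          congr 1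
          funext x
          rw [bil_apply, Finset.smul_sum]
          refine Finset.sum_congr rfl fun i _ => ?_
          rw [Finset.smul_sum]
          exact Finset.sum_congr rfl fun j _ => smul_comm _ _ _

end Pool.Agent.Walls
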