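import Pool.Agent.Lib.MP_4f753b_an.E2

/-!
# Homeomorphisms which are almost affine along walls: definitions
-/

open Set Metric Filter Module MeasureTheory
open scoped ContDiff Topology

namespace Pool.Agent.Walls

variable {V : Type} [NormedAddCommGroup V] [InnerProductSpace ℝ V]

/-- `h` is `ε`-almost affine at scale `s` around `x`: on the closed ball `B(x, s)` it differs from an
invertible affine map `y ↦ b + A y` by at most `ε s / ‖A⁻¹‖`. -/
def AA (ε : ℝ) (h : V → V) (x : V) (s : ℝ) : Prop :=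
  ∃ (A : V ≃L[ℝ] V) (b : V), ∀ y ∈ closedBall x s,
    ‖(A.symm : V →L[ℝ] V)‖ * ‖h y - (b + A y)‖ ≤ ε * s

theorem AA.mono {ε ε' : ℝ} {h : V → V} {x : V} {s : ℝ} (hs : 0 ≤ s) (hε : ε ≤ ε')
    (H : AA ε h x s) : AA ε' h x s := by
  obtain ⟨A, b, h1⟩ := H
  exact ⟨A, b, fun y hy => (h1 y hy).trans (mul_le_mul_of_nonneg_right hε hs)⟩

/-- passing to a smaller ball -/
theorem AA.sub {ε : ℝ} {h : V → V} {x x' : V} {s s' : ℝ} (hs : closedBall x' s' ⊆ closedBall x s)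
    (H : AA ε h x s) {ε' : ℝ} (hε : ε * s ≤ ε' * s') : AA ε' h x' s' := by
  obtain ⟨A, b, h1⟩ := H
  exact ⟨A, b, fun y hy => (h1 y (hs hy)).trans hε⟩

variable [FiniteDimensional ℝ V] [MeasurableSpace V] [BorelSpace V]

/-- smoothing kernels -/
structure IsKer (φ : V → ℝ) : Prop where
  smooth : ContDiff ℝ ∞ φ
  nonneg : ∀ x, 0 ≤ φ x
  supp : ∀ x, 1 ≤ ‖x‖ → φ x = 0
  even : ∀ x, φ (-x) = φ x
  int : ∫ x, φ x = 1

/-- smoothing with the variable radius `ρ` -/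
noncomputable def smo (φ : V → ℝ) (ρ : V → ℝ) (g : V → V) (x : V) : V :=
  ∫ y, φ y • g (x - ρ x • y)

end Pool.Agent.Walls
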