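import Pool.Agent.Lib.MP_4f753b_an.W.W0

/-!
Row 4f-W1: kernels and first properties of `smo`.

`exists_ker`: `φ = b.normed volume` for a `ContDiffBump (0 : V)` `b` with `rIn = 1 / 2`, `rOut = 1` (`ContDiffBump.normed_neg`,
`ContDiffBump.integral_normed`, `ContDiffBump.support_normed_eq`, `ContDiffBump.contDiff_normed`).
`smo_affine`: `∫ φ y • (b + A (x - ρ x • y)) = b + A x - ρ x • A (∫ φ y • y)` and `∫ φ y • y = 0` because `φ` is even.
`smo_eq`: substitution `z = x - ρ x • y` (`MeasureTheory.Measure.integral_comp_smul`, `integral_sub_left_eq_self`).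
`continuous_smo`: e.g. `continuous_parametric_integral_of_continuous` on the compact set `closedBall 0 1`.
-/

open Set Metric Filter Module MeasureTheory
open scoped ContDiff Topology

namespace Pool.Agent.Walls

variable {V : Type} [NormedAddCommGroup V] [InnerProductSpace ℝ V] [FiniteDimensional ℝ V]
  [MeasurableSpace V] [BorelSpace V]

theorem exists_ker (V : Type) [NormedAddCommGroup V] [InnerProductSpace ℝ V]
    [FiniteDimensional ℝ V] [MeasurableSpace V] [BorelSpace V] : ∃ φ : V → ℝ, IsKer φ := by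
  let b : ContDiffBump (0 : V) := ⟨1 / 2, 1, by norm_num, by norm_num⟩
  refine ⟨b.normed volume, b.contDiff_normed, fun x => b.nonneg_normed x, ?_, fun x => b.normed_neg x,
    b.integral_normed⟩
  intro x hx
  by_contra h
  have h1 : x ∈ Function.support (b.normed volume) := h
  rw [b.support_normed_eq, mem_ball, dist_zero_right] at h1
  exact absurd h1 (not_lt.mpr hx)

theorem W1_compact {φ : V → ℝ} (hφ : IsKer φ) : HasCompactSupport φ := by
  apply HasCompactSupport.intro (isCompact_closedBall (0 : V) 1)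
  intro x hx
  apply hφ.supp
  rw [mem_closedBall, dist_zero_right, not_le] at hx
  exact hx.le

theorem IsKer.integrable {φ : V → ℝ} (hφ : IsKer φ) {g : V → V} (hg : Continuous g) :
    Integrable (fun y => φ y • g y) := by
  apply (hφ.smooth.continuous.smul hg).integrable_of_hasCompactSupport
  exact (W1_compact hφ).smul_right

theorem W1_integrable {φ : V → ℝ} (hφ : IsKer φ) : Integrable φ :=
  hφ.smooth.continuous.integrable_of_hasCompactSupport (W1_compact hφ)

theorem smo_eq {φ : V → ℝ} {ρ : V → ℝ} {g : V → V} {x : V} (hx : 0 < ρ x) :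
    smo φ ρ g x = ∫ z, ((ρ x)⁻¹ ^ finrank ℝ V * φ ((ρ x)⁻¹ • (x - z))) • g z := by
  set r := ρ x with hr
  have h1 : (fun z => (r⁻¹ ^ finrank ℝ V * φ (r⁻¹ • (x - z))) • g z) =
      fun z => r⁻¹ ^ finrank ℝ V • (fun y => φ y • g (x - r • y)) (r⁻¹ • (x - z)) := by
    funext z
    simp only
    rw [smul_smul r r⁻¹, mul_inv_cancel₀ hx.ne', one_smul, sub_sub_cancel, smul_smul]
  rw [h1, integral_smul,
    integral_sub_left_eq_self (fun w => (fun y => φ y • g (x - r • y)) (r⁻¹ • w)) volume x,
    Measure.integral_comp_smul volume (fun y => φ y • g (x - r • y)) r⁻¹, smul_smul]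
  have h2 : r⁻¹ ^ finrank ℝ V * |(r⁻¹ ^ finrank ℝ V)⁻¹| = 1 := by
    rw [abs_of_nonneg (by positivity)]
    exact mul_inv_cancel₀ (by positivity)
  rw [h2, one_smul]
  rfl

theorem W1_odd {φ : V → ℝ} (hφ : IsKer φ) (A : V →L[ℝ] V) : ∫ y, φ y • A y = 0 := by
  have h1 : ∫ y, φ y • A y = ∫ y, φ (-y) • A (-y) :=
    (integral_neg_eq_self (fun y => φ y • A y) volume).symm
  have h2 : ∀ y, φ (-y) • A (-y) = -(φ y • A y) := fun y => by
    rw [hφ.even, map_neg, smul_neg]
  simp only [h2] at h1
  rw [integral_neg] at h1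
  have h3 : (2 : ℝ) • ∫ y, φ y • A y = 0 := by
    rw [two_smul]
    nth_rewrite 2 [h1]
    exact add_neg_cancel _
  exact (smul_eq_zero.mp h3).resolve_left (by norm_num)

theorem smo_affine {φ : V → ℝ} (hφ : IsKer φ) (ρ : V → ℝ) (A : V →L[ℝ] V) (b x : V) :
    smo φ ρ (fun y => b + A y) x = b + A x := by
  unfold smo
  have h1 : ∀ y, φ y • (b + A (x - ρ x • y)) = φ y • (b + A x) - ρ x • (φ y • A y) := by
    intro y
    rw [map_sub, map_smul, smul_comm (ρ x) (φ y), ← smul_sub]
    congr 1
    abel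
  simp only [h1]
  rw [integral_sub, integral_smul_const, hφ.int, one_smul, integral_smul, W1_odd hφ A, smul_zero,
    sub_zero]
  · exact hφ.integrable continuous_const
  · exact (hφ.integrable A.continuous).smul _

theorem smo_sub {φ : V → ℝ} (hφ : IsKer φ) (ρ : V → ℝ) {g g' : V → V} (hg : Continuous g)
    (hg' : Continuous g') (x : V) :
    smo φ ρ (fun y => g y - g' y) x = smo φ ρ g x - smo φ ρ g' x := by
  unfold smo
  rw [← integral_sub]
  · congr 1
    funext y
    rw [smul_sub]
  · exact hφ.integrable (g := fun y => g (x - ρ x • y)) (by fun_prop)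
  · exact hφ.integrable (g := fun y => g' (x - ρ x • y)) (by fun_prop)

theorem smo_norm_le {φ : V → ℝ} (hφ : IsKer φ) {ρ : V → ℝ} {g : V → V} {x : V} (hx : 0 ≤ ρ x)
    {D : ℝ} (hD : ∀ y ∈ closedBall x (ρ x), ‖g y‖ ≤ D) : ‖smo φ ρ g x‖ ≤ D := by
  unfold smo
  have h1 : ‖∫ y, φ y • g (x - ρ x • y)‖ ≤ ∫ y, φ y * D := by
    apply norm_integral_le_of_norm_le ((W1_integrable hφ).mul_const D)
    refine Eventually.of_forall fun y => ?_
    by_cases hy : 1 ≤ ‖y‖
    · rw [hφ.supp y hy]; simp
    · rw [not_le] at hy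
      rw [norm_smul, Real.norm_of_nonneg (hφ.nonneg y)]
      apply mul_le_mul_of_nonneg_left _ (hφ.nonneg y)
      apply hD
      rw [mem_closedBall, dist_eq_norm, sub_sub_cancel_left, norm_neg, norm_smul,
        Real.norm_of_nonneg hx]
      nlinarith [norm_nonneg y]
  rwa [integral_mul_const, hφ.int, one_mul] at h1

theorem smo_of_zero {φ : V → ℝ} (hφ : IsKer φ) {ρ : V → ℝ} (g : V → V) {x : V} (hx : ρ x = 0) :
    smo φ ρ g x = g x := by
  unfold smo
  simp only [hx, zero_smul, sub_zero]
  rw [integral_smul_const, hφ.int, one_smul]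

theorem continuous_smo {φ : V → ℝ} (hφ : IsKer φ) {ρ : V → ℝ} (hρ : Continuous ρ) {g : V → V}
    (hg : Continuous g) : Continuous (smo φ ρ g) := by
  have h1 : smo φ ρ g = fun x => ∫ y in closedBall (0 : V) 1, φ y • g (x - ρ x • y) := by
    funext x
    unfold smo
    rw [setIntegral_eq_integral_of_forall_compl_eq_zero]
    intro y hy
    rw [mem_closedBall, dist_zero_right, not_le] at hy
    rw [hφ.supp y hy.le, zero_smul]
  rw [h1]
  apply continuous_parametric_integral_of_continuous _ (isCompact_closedBall (0 : V) 1)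
  have h2 := hφ.smooth.continuous
  fun_prop

end Pool.Agent.Walls
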