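import Pool.Agent.Lib.MP_4f753b_an.W.W0

/-!
Row 4f-W10: diffeomorphisms are uniformly almost affine at small scales.

`A = fderiv ℝ g x` (invertible, inverse `fderiv ℝ g.symm (g x)`), `b = g x - A x`. `‖(A x)⁻¹‖ ≤ N` on `closedBall 0 R` (compactness,
`g.symm` is smooth) and `‖fderiv ℝ g y - fderiv ℝ g x‖ ≤ ε / (N + 1)` for `x ∈ closedBall 0 R`, `dist y x ≤ r` (uniform continuity on
`closedBall 0 (R + 1)`), then `Convex.norm_image_sub_le_of_norm_fderiv_le'` or similar.
-/

open Set Metric Filter Module MeasureTheory Pool.Agent.TopCells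
open scoped ContDiff Topology

namespace Pool.Agent.Walls

variable {V : Type} [NormedAddCommGroup V] [InnerProductSpace ℝ V] [FiniteDimensional ℝ V]

theorem aa_of_isDiffeo {g : V ≃ₜ V} (hg : IsDiffeo g) (R : ℝ) {ε : ℝ} (hε : 0 < ε) :
    ∃ r : ℝ, 0 < r ∧ ∀ x ∈ closedBall (0 : V) R, ∀ s : ℝ, 0 < s → s ≤ r → AA ε g x s := by
  obtain ⟨hg1, hg2⟩ := hg
  have hd1 : Differentiable ℝ g := hg1.differentiable (by simp)
  have hd2 : Differentiable ℝ g.symm := hg2.differentiable (by simp)
  have hc1 : Continuous (fun x => fderiv ℝ g x) := hg1.continuous_fderiv (by simp)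
  have hc2 : Continuous (fun x => fderiv ℝ g.symm x) := hg2.continuous_fderiv (by simp)
  -- the bound of the inverse
  obtain ⟨C, hC⟩ := (isCompact_closedBall (0 : V) R).exists_bound_of_continuousOn
    (f := fun x => fderiv ℝ g.symm (g x)) (hc2.comp g.continuous).continuousOn
  obtain ⟨N, hN0, hN⟩ : ∃ N : ℝ, 0 ≤ N ∧ ∀ x ∈ closedBall (0 : V) R,
      ‖fderiv ℝ g.symm (g x)‖ ≤ N :=
    ⟨max C 0, le_max_right _ _, fun x hx => (hC x hx).trans (le_max_left _ _)⟩
  -- uniform continuity of the derivative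
  have huc := (isCompact_closedBall (0 : V) (R + 1)).uniformContinuousOn_of_continuous
    hc1.continuousOn
  rw [Metric.uniformContinuousOn_iff] at huc
  have hη : 0 < ε / (N + 1) := by positivity
  obtain ⟨δ, hδ, hδ'⟩ := huc (ε / (N + 1)) hη
  refine ⟨min (δ / 2) 1, lt_min (by positivity) one_pos, ?_⟩
  intro x hx s hs hsr
  have hinv1 : Function.LeftInverse (fderiv ℝ g.symm (g x)) (fderiv ℝ g x) := by
    intro v
    have h1 : HasFDerivAt (g.symm ∘ g)
        ((fderiv ℝ g.symm (g x)).comp (fderiv ℝ g x)) x :=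
      (hd2 (g x)).hasFDerivAt.comp x (hd1 x).hasFDerivAt
    have h2 : (g.symm ∘ g : V → V) = id := by
      funext y
      simp
    rw [h2] at h1
    have h3 := h1.unique (hasFDerivAt_id x)
    have h4 := congrArg (fun L : V →L[ℝ] V => L v) h3
    simpa using h4
  have hinv2 : Function.RightInverse (fderiv ℝ g.symm (g x)) (fderiv ℝ g x) := by
    intro v
    have h1 : HasFDerivAt (g ∘ g.symm)
        ((fderiv ℝ g (g.symm (g x))).comp (fderiv ℝ g.symm (g x))) (g x) :=
      (hd1 (g.symm (g x))).hasFDerivAt.comp (g x) (hd2 (g x)).hasFDerivAt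
    have h2 : (g ∘ g.symm : V → V) = id := by
      funext y
      simp
    rw [h2, g.symm_apply_apply] at h1
    have h3 := h1.unique (hasFDerivAt_id (g x))
    have h4 := congrArg (fun L : V →L[ℝ] V => L v) h3
    simpa using h4
  refine ⟨ContinuousLinearEquiv.equivOfInverse (fderiv ℝ g x) (fderiv ℝ g.symm (g x)) hinv1 hinv2,
    g x - fderiv ℝ g x x, ?_⟩
  intro y hy
  have hsub : closedBall x s ⊆ closedBall (0 : V) (R + 1) := by
    intro z hz
    rw [mem_closedBall] at hz hx ⊢
    have h1 : s ≤ 1 := hsr.trans (min_le_right _ _)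
    calc dist z 0 ≤ dist z x + dist x 0 := dist_triangle _ _ _
      _ ≤ R + 1 := by linarith
  have hx1 : x ∈ closedBall (0 : V) (R + 1) := hsub (mem_closedBall_self hs.le)
  have hmv : ‖g y - g x - fderiv ℝ g x (y - x)‖ ≤ ε / (N + 1) * ‖y - x‖ := by
    refine (convex_closedBall x s).norm_image_sub_le_of_norm_hasFDerivWithin_le'
      (f' := fun z => fderiv ℝ g z) (fun z _ => (hd1 z).hasFDerivAt.hasFDerivWithinAt) ?_
      (mem_closedBall_self hs.le) hy
    intro z hz
    have h1 : dist z x < δ := by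
      have h2 : s ≤ δ / 2 := hsr.trans (min_le_left _ _)
      have h3 := mem_closedBall.1 hz
      linarith
    have h2 := hδ' z (hsub hz) x hx1 h1
    rw [dist_eq_norm] at h2
    exact h2.le
  have hA : ((ContinuousLinearEquiv.equivOfInverse (fderiv ℝ g x) (fderiv ℝ g.symm (g x)) hinv1
      hinv2).symm : V →L[ℝ] V) = fderiv ℝ g.symm (g x) := by
    ext v
    rfl
  have hy' : ‖y - x‖ ≤ s := by
    rw [← dist_eq_norm]
    exact mem_closedBall.1 hy
  have e1 : g y - (g x - fderiv ℝ g x x + fderiv ℝ g x y) =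
      g y - g x - fderiv ℝ g x (y - x) := by
    rw [map_sub]
    abel
  rw [hA]
  change ‖fderiv ℝ g.symm (g x)‖ * ‖g y - (g x - fderiv ℝ g x x + fderiv ℝ g x y)‖ ≤ ε * s
  rw [e1]
  calc ‖fderiv ℝ g.symm (g x)‖ * ‖g y - g x - fderiv ℝ g x (y - x)‖
      ≤ N * (ε / (N + 1) * s) := by
        refine mul_le_mul (hN x hx) (hmv.trans ?_) (norm_nonneg _) hN0
        exact mul_le_mul_of_nonneg_left hy' hη.le
    _ = N / (N + 1) * (ε * s) := by ring
    _ ≤ 1 * (ε * s) := by
        refine mul_le_mul_of_nonneg_right ?_ (by positivity)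
        rw [div_le_one (by positivity)]
        linarith
    _ = ε * s := one_mul _

end Pool.Agent.Walls
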