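import Pool.Agent.Lib.MP_4f753b_an.W.W1

/-!
Row 4f-W2: the Lipschitz estimate.

Put `n = finrank ℝ V`, `R = ρ x`, `l = ρ x'`, `l' = ρ x''`; these are in `[R / 2, 3 R / 2]` and `|l - l'| ≤ ‖x' - x''‖`. By `smo_eq`
`smo φ ρ u x' - smo φ ρ u x'' = ∫ z in closedBall x (2 R), (k l (x' - z) - k l' (x'' - z)) • u z`, `k l w = l⁻¹ ^ n * φ (l⁻¹ • w)`
(the kernels vanish off `closedBall x (2 R)`). There `‖w‖, ‖w'‖ ≤ 5 R / 2`, and `φ` is bounded and Lipschitz, so
`|k l w - k l' w'| ≤ C R ^ (-n - 1) (|l - l'| + ‖w - w'‖)`; the volume of the ball is `C' R ^ n` (`Measure.addHaar_closedBall`).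
-/

open Set Metric Filter Module MeasureTheory
open scoped ContDiff Topology

namespace Pool.Agent.Walls

variable {V : Type} [NormedAddCommGroup V] [InnerProductSpace ℝ V] [FiniteDimensional ℝ V]
  [MeasurableSpace V] [BorelSpace V]

theorem W2_ker {φ : V → ℝ} {L M : ℝ} (hL : 0 ≤ L) (hM : 0 ≤ M)
    (h1 : ∀ y z, |φ y - φ z| ≤ L * ‖y - z‖) (h2 : ∀ y, |φ y| ≤ M) (n : ℕ) {T l l' : ℝ} (hT : 0 < T)
    (hl : 0 < l) (hl' : 0 < l') (ha : l⁻¹ ≤ T) (hb : l'⁻¹ ≤ T) {w w' : V} (hw : ‖w'‖ ≤ 5 / T) :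
    |l⁻¹ ^ n * φ (l⁻¹ • w) - l'⁻¹ ^ n * φ (l'⁻¹ • w')| ≤
      T ^ (n + 1) * (5 * L + n * M) * (|l - l'| + ‖w - w'‖) := by
  set a := l⁻¹ with hadef
  set b := l'⁻¹ with hbdef
  have ha0 : 0 < a := inv_pos.mpr hl
  have hb0 : 0 < b := inv_pos.mpr hl'
  have hab : |a - b| ≤ T ^ 2 * |l - l'| := by
    have e : a - b = a * b * (l' - l) := by
      rw [hadef, hbdef]; field_simp
    rw [e, abs_mul, abs_of_pos (mul_pos ha0 hb0), abs_sub_comm l' l, pow_two]
    exact mul_le_mul_of_nonneg_right (mul_le_mul ha hb hb0.le hT.le) (abs_nonneg _)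
  have h3 : |φ (a • w) - φ (b • w')| ≤ T * (5 * L) * (|l - l'| + ‖w - w'‖) := by
    have e : a • w - b • w' = a • (w - w') + (a - b) • w' := by
      rw [smul_sub, sub_smul]; abel
    have h4 : ‖a • w - b • w'‖ ≤ T * ‖w - w'‖ + T ^ 2 * |l - l'| * (5 / T) := by
      rw [e]
      refine (norm_add_le _ _).trans (add_le_add ?_ ?_)
      · rw [norm_smul, Real.norm_of_nonneg ha0.le]
        exact mul_le_mul_of_nonneg_right ha (norm_nonneg _)
      · rw [norm_smul, Real.norm_eq_abs]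
        exact mul_le_mul hab hw (norm_nonneg _) (by positivity)
    have h5 : T ^ 2 * |l - l'| * (5 / T) = 5 * (T * |l - l'|) := by field_simp
    rw [h5] at h4
    refine (h1 _ _).trans ?_
    refine (mul_le_mul_of_nonneg_left h4 hL).trans ?_
    have h6 : 0 ≤ L * T * ‖w - w'‖ := by positivity
    nlinarith
  have h4 : |a ^ n - b ^ n| ≤ T ^ (n + 1) * n * |l - l'| := by
    rcases Nat.eq_zero_or_pos n with h0 | h0
    · subst h0; simp
    · obtain ⟨k, rfl⟩ := Nat.exists_eq_succ_of_ne_zero h0.ne'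
      refine (abs_pow_sub_pow_le a b (k + 1)).trans ?_
      have h5 : max |a| |b| ≤ T := by
        rw [abs_of_pos ha0, abs_of_pos hb0]; exact max_le ha hb
      have h6 : max |a| |b| ^ (k + 1 - 1) ≤ T ^ k := by
        rw [Nat.add_sub_cancel]
        exact pow_le_pow_left₀ (le_max_of_le_left (abs_nonneg _)) h5 k
      calc |a - b| * ((k + 1 : ℕ) : ℝ) * max |a| |b| ^ (k + 1 - 1)
          ≤ (T ^ 2 * |l - l'|) * ((k + 1 : ℕ) : ℝ) * T ^ k := by
            apply mul_le_mul _ h6 (by positivity) (by positivity)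
            exact mul_le_mul_of_nonneg_right hab (by positivity)
        _ = T ^ (k + 1 + 1) * ((k + 1 : ℕ) : ℝ) * |l - l'| := by ring
  have e : a ^ n * φ (a • w) - b ^ n * φ (b • w') =
      a ^ n * (φ (a • w) - φ (b • w')) + (a ^ n - b ^ n) * φ (b • w') := by ring
  rw [e]
  have h5 : a ^ n ≤ T ^ n := pow_le_pow_left₀ ha0.le ha n
  calc |a ^ n * (φ (a • w) - φ (b • w')) + (a ^ n - b ^ n) * φ (b • w')|
      ≤ |a ^ n * (φ (a • w) - φ (b • w'))| + |(a ^ n - b ^ n) * φ (b • w')| := abs_add_le _ _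
    _ = a ^ n * |φ (a • w) - φ (b • w')| + |a ^ n - b ^ n| * |φ (b • w')| := by
        rw [abs_mul, abs_mul, abs_of_nonneg (pow_nonneg ha0.le n)]
    _ ≤ T ^ n * (T * (5 * L) * (|l - l'| + ‖w - w'‖)) + T ^ (n + 1) * n * |l - l'| * M := by
        apply add_le_add
        · exact mul_le_mul h5 h3 (abs_nonneg _) (by positivity)
        · exact mul_le_mul h4 (h2 _) (abs_nonneg _) (by positivity)
    _ ≤ T ^ (n + 1) * (5 * L + n * M) * (|l - l'| + ‖w - w'‖) := by
        have h6 : 0 ≤ T ^ (n + 1) * n * M * ‖w - w'‖ := by positivity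
        have h7 : T ^ (n + 1) * (5 * L + n * M) * (|l - l'| + ‖w - w'‖) =
          T ^ n * (T * (5 * L) * (|l - l'| + ‖w - w'‖)) + T ^ (n + 1) * n * |l - l'| * M +
            T ^ (n + 1) * n * M * ‖w - w'‖ := by ring
        rw [h7]; linarith

theorem smo_lip {φ : V → ℝ} (hφ : IsKer φ) : ∃ C : ℝ, 0 < C ∧ ∀ (ρ : V → ℝ), LipschitzWith 1 ρ →
    ∀ u : V → V, Continuous u → ∀ x : V, 0 < ρ x → ∀ m : ℝ,
    (∀ z ∈ closedBall x (2 * ρ x), ‖u z‖ ≤ m) →
    ∀ x' ∈ closedBall x (ρ x / 2), ∀ x'' ∈ closedBall x (ρ x / 2),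
      ρ x * ‖smo φ ρ u x' - smo φ ρ u x''‖ ≤ C * m * ‖x' - x''‖ := by
  obtain ⟨L, hL⟩ := hφ.smooth.lipschitzWith_of_hasCompactSupport (W1_compact hφ) (by simp)
  obtain ⟨M, hM⟩ := hφ.smooth.continuous.bounded_above_of_compact_support (W1_compact hφ)
  have hM0 : 0 ≤ M := (norm_nonneg _).trans (hM 0)
  have h1 : ∀ y z, |φ y - φ z| ≤ (L : ℝ) * ‖y - z‖ := fun y z => by
    have := hL.dist_le_mul y z
    rwa [Real.dist_eq, dist_eq_norm] at this
  have h2 : ∀ y, |φ y| ≤ M := hM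
  set n := finrank ℝ V with hn
  set v := volume.real (ball (0 : V) 1) with hv
  set K : ℝ := 5 * L + n * M with hK
  have hK0 : 0 ≤ K := by positivity
  have hv0 : 0 ≤ v := measureReal_nonneg
  refine ⟨2 ^ (n + 1) * 2 ^ n * (2 * K) * v + 1, by positivity, ?_⟩
  intro ρ hρ u hu x hx m hm x' hx' x'' hx''
  set R := ρ x with hR
  have hm0 : 0 ≤ m := (norm_nonneg _).trans (hm x (mem_closedBall_self (by linarith)))
  have key : ∀ y ∈ closedBall x (R / 2), R / 2 ≤ ρ y ∧ ρ y ≤ 3 * R / 2 := by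
    intro y hy
    have h3 := hρ.dist_le_mul y x
    rw [NNReal.coe_one, one_mul, Real.dist_eq] at h3
    have h4 := abs_le.mp (h3.trans (mem_closedBall.mp hy))
    constructor <;> linarith [h4.1, h4.2]
  have k1 := key x' hx'
  have k2 := key x'' hx''
  have hl : 0 < ρ x' := by linarith [k1.1]
  have hl' : 0 < ρ x'' := by linarith [k2.1]
  have off : ∀ y ∈ closedBall x (R / 2), ∀ z, z ∉ closedBall x (2 * R) →
      φ ((ρ y)⁻¹ • (y - z)) = 0 := by
    intro y hy z hz
    have k := key y hy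
    have hy0 : 0 < ρ y := by linarith [k.1]
    apply hφ.supp
    rw [norm_smul, Real.norm_of_nonneg (inv_nonneg.mpr hy0.le), inv_mul_eq_div, le_div_iff₀ hy0,
      one_mul]
    rw [mem_closedBall, not_le] at hz
    rw [mem_closedBall] at hy
    have h3 := dist_triangle z y x
    rw [dist_comm z y, dist_eq_norm y z] at h3
    linarith [k.2]
  have e1 : smo φ ρ u x' - smo φ ρ u x'' =
      ∫ z in closedBall x (2 * R), ((ρ x')⁻¹ ^ n * φ ((ρ x')⁻¹ • (x' - z)) -
        (ρ x'')⁻¹ ^ n * φ ((ρ x'')⁻¹ • (x'' - z))) • u z := by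
    rw [smo_eq hl, smo_eq hl', ← integral_sub, setIntegral_eq_integral_of_forall_compl_eq_zero]
    · congr 1
      funext z
      rw [sub_smul]
    · intro z hz
      rw [off x' hx' z hz, off x'' hx'' z hz, mul_zero, mul_zero, sub_zero, zero_smul]
    · apply Continuous.integrable_of_hasCompactSupport
      · have := hφ.smooth.continuous
        fun_prop
      · apply HasCompactSupport.intro (isCompact_closedBall x (2 * R))
        intro z hz
        rw [off x' hx' z hz, mul_zero, zero_smul]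
    · apply Continuous.integrable_of_hasCompactSupport
      · have := hφ.smooth.continuous
        fun_prop
      · apply HasCompactSupport.intro (isCompact_closedBall x (2 * R))
        intro z hz
        rw [off x'' hx'' z hz, mul_zero, zero_smul]
  have hT : (0 : ℝ) < 2 / R := by positivity
  have hll : |ρ x' - ρ x''| ≤ ‖x' - x''‖ := by
    have h3 := hρ.dist_le_mul x' x''
    rwa [NNReal.coe_one, one_mul, Real.dist_eq, dist_eq_norm] at h3
  have e2 : ‖smo φ ρ u x' - smo φ ρ u x''‖ ≤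
      ((2 / R) ^ (n + 1) * K * (2 * ‖x' - x''‖) * m) * volume.real (closedBall x (2 * R)) := by
    rw [e1]
    apply norm_setIntegral_le_of_norm_le_const measure_closedBall_lt_top
    intro z hz
    rw [norm_smul, Real.norm_eq_abs]
    apply mul_le_mul _ (hm z hz) (norm_nonneg _) (by positivity)
    have a1 : (ρ x')⁻¹ ≤ 2 / R := by
      rw [inv_le_comm₀ hl hT, inv_div]; exact k1.1
    have a2 : (ρ x'')⁻¹ ≤ 2 / R := by
      rw [inv_le_comm₀ hl' hT, inv_div]; exact k2.1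
    have a3 : ‖x'' - z‖ ≤ 5 / (2 / R) := by
      rw [div_div_eq_mul_div]
      have h3 := dist_triangle x'' x z
      rw [dist_eq_norm x'' z] at h3
      rw [mem_closedBall] at hx'' hz
      rw [dist_comm x z] at h3
      linarith
    have h3 := W2_ker L.coe_nonneg hM0 h1 h2 n hT hl hl' a1 a2 (w := x' - z) a3
    rw [sub_sub_sub_cancel_right] at h3
    refine h3.trans ?_
    apply mul_le_mul_of_nonneg_left _ (by positivity)
    linarith
  rw [Measure.addHaar_real_closedBall volume x (by positivity : (0:ℝ) ≤ 2 * R)] at e2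
  have e3 : R * ‖smo φ ρ u x' - smo φ ρ u x''‖ ≤
      2 ^ (n + 1) * 2 ^ n * (2 * K) * v * m * ‖x' - x''‖ := by
    refine (mul_le_mul_of_nonneg_left e2 hx.le).trans (le_of_eq ?_)
    have e4 : (2 / R) ^ (n + 1) * R ^ (n + 1) = 2 ^ (n + 1) := by
      rw [← mul_pow, div_mul_cancel₀ _ hx.ne']
    rw [← hn, ← hv]
    calc R * ((2 / R) ^ (n + 1) * K * (2 * ‖x' - x''‖) * m * ((2 * R) ^ n * v))
        = ((2 / R) ^ (n + 1) * R ^ (n + 1)) * 2 ^ n * (2 * K) * v * m * ‖x' - x''‖ := by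
          rw [mul_pow]; ring
      _ = 2 ^ (n + 1) * 2 ^ n * (2 * K) * v * m * ‖x' - x''‖ := by rw [e4]
  refine e3.trans ?_
  have h6 : 0 ≤ m * ‖x' - x''‖ := by positivity
  nlinarith

end Pool.Agent.Walls
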