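import Pool.Agent.Lib.MP_4f753b_an.W.W1

/-!
Row 4f-W3: smoothness.

Near `x` one has `ρ > ρ x / 2 > 0`. With `m = (ρ y)⁻¹`, `smo_eq` says that `smo φ ρ g y = G (m, y)`,
`G (m, y) = ∫ z, (m ^ n * φ (m • (y - z))) • g z`, a convolution of `g` with the kernel `w ↦ m ^ n * φ (m • w)`, which is jointly
smooth in `(m, w)` and vanishes for `m` in `(1 / (2 ρ x), 2 / ρ x)` off the fixed ball `closedBall 0 (2 ρ x)`: use
`contDiffOn_convolution_right_with_param` (or `..._left_...`; the bilinear map is `(ContinuousLinearMap.lsmul ℝ ℝ).flip`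
or `lsmul`), then compose with `y ↦ ((ρ y)⁻¹, y)`.
-/

open Set Metric Filter Module MeasureTheory
open scoped ContDiff Topology

namespace Pool.Agent.Walls

variable {V : Type} [NormedAddCommGroup V] [InnerProductSpace ℝ V] [FiniteDimensional ℝ V]
  [MeasurableSpace V] [BorelSpace V]

theorem smo_contDiffAt {φ : V → ℝ} (hφ : IsKer φ) {ρ : V → ℝ} (hρ : ContDiff ℝ ∞ ρ) {g : V → V}
    (hg : Continuous g) {x : V} (hx : 0 < ρ x) : ContDiffAt ℝ ∞ (smo φ ρ g) x := by
  set n := finrank ℝ V with hn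
  set L : V →L[ℝ] ℝ →L[ℝ] V := (ContinuousLinearMap.lsmul ℝ ℝ).flip with hL
  have hLap : ∀ (v : V) (r : ℝ), L v r = r • v := by
    intro v r
    simp [hL]
  have h2 : (0 : ℝ) < 2 * ρ x := by positivity
  have hC : ContDiffOn ℝ ((⊤ : ℕ∞) : WithTop ℕ∞)
      (fun q : ℝ × V => (convolution g ((fun (m : ℝ) (w : V) => m ^ n * φ (m • w)) q.1) L volume)
        q.2) (Ioi (2 * ρ x)⁻¹ ×ˢ univ) := by
    refine contDiffOn_convolution_right_with_param (𝕜 := ℝ) (n := ⊤) (f := g) (μ := volume)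
      (g := fun (m : ℝ) (w : V) => m ^ n * φ (m • w)) L isOpen_Ioi
      (isCompact_closedBall (0 : V) (2 * ρ x)) ?_ ?_ ?_
    · intro m w hm hw
      have hm' : (2 * ρ x)⁻¹ < m := hm
      have hm0 : 0 < m := lt_trans (by positivity) hm'
      have hw' : 2 * ρ x < ‖w‖ := by
        rw [mem_closedBall, dist_zero_right, not_le] at hw
        exact hw
      have h3 : 1 ≤ ‖m • w‖ := by
        rw [norm_smul, Real.norm_of_nonneg hm0.le]
        have h4 : (2 * ρ x)⁻¹ * (2 * ρ x) ≤ m * ‖w‖ :=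
          mul_le_mul hm'.le hw'.le h2.le hm0.le
        rwa [inv_mul_cancel₀ h2.ne'] at h4
      simp only [hφ.supp _ h3, mul_zero]
    · exact hg.locallyIntegrable
    · have h5 : ContDiff ℝ ∞ (fun q : ℝ × V => q.1 ^ n * φ (q.1 • q.2)) :=
        (contDiff_fst.pow n).mul (hφ.smooth.comp (contDiff_fst.smul contDiff_snd))
      exact h5.contDiffOn
  have hmem : Ioi (2 * ρ x)⁻¹ ×ˢ (univ : Set V) ∈ 𝓝 ((ρ x)⁻¹, x) := by
    apply prod_mem_nhds _ univ_mem
    apply Ioi_mem_nhds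
    rw [inv_lt_inv₀ h2 hx]
    linarith
  have hC1 := hC.contDiffAt hmem
  have h6 : ContDiffAt ℝ ∞ (fun y : V => ((ρ y)⁻¹, y)) x :=
    (hρ.contDiffAt.inv hx.ne').prodMk contDiffAt_id
  have h7 := ContDiffAt.comp x (g := fun q : ℝ × V =>
    (convolution g ((fun (m : ℝ) (w : V) => m ^ n * φ (m • w)) q.1) L volume) q.2)
    (f := fun y : V => ((ρ y)⁻¹, y)) hC1 h6
  refine h7.congr_of_eventuallyEq ?_
  have h8 : ∀ᶠ y in 𝓝 x, 0 < ρ y := hρ.continuous.continuousAt.eventually (lt_mem_nhds hx)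
  filter_upwards [h8] with y hy
  rw [smo_eq hy]
  simp only [Function.comp_apply, convolution, hLap, hn]

end Pool.Agent.Walls
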