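import Pool.Agent.Lib.MP_4f753b_an.W.W0

/-!
Row 4f-W4: a map which is locally close to a homeomorphism and to affine maps is a homeomorphism.

Write `N = ‖A.symm‖` (`V` may be assumed nontrivial, so `N > 0`), `‖v‖ ≤ N ‖A v‖`.
(0) If `0 < ρ x` and `N ‖g y - g x‖ ≤ ρ x / 8` then `‖y - x‖ ≤ 3 ρ x / 16`: otherwise first `y` is in the open ball, because on the sphere
`‖z - x‖ = ρ x` one has `N ‖g z - g x‖ ≥ ρ x - ρ x / 16`, and the curve `t ↦ g.symm (g x + t • (g y - g x))` would cross the sphere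
(intermediate value theorem); then `‖y - x‖ ≤ N ‖A (y - x)‖ ≤ N ‖g y - g x‖ + ρ x / 16`.
(1) Injective: let `h x = h y`; both `ρ` zero: clear. Otherwise order them so that `ρ y / N_y ≤ ρ x / N_x` (value `0` if `ρ y = 0`):
`N_x ‖g x - g y‖ ≤ ρ x / 16 + ρ x / 16`, so `‖y - x‖ ≤ 3 ρ x / 16` by (0), and the last hypothesis gives
`N ‖h y - h x‖ ≥ ‖y - x‖ - ‖y - x‖ / 2`.
(2) Surjective: let `g y` be given. If `ρ y = 0`, `h y = g y`. Otherwise `h` approximates `A` on `closedBall y (ρ y / 2)` with constant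
`1 / (2 N)`, so `ApproximatesLinearOn.surjOn_closedBall_of_nonlinearRightInverse` (or an easy contraction argument) shows that
`h '' closedBall y (ρ y / 2)` contains `closedBall (h y) (ρ y / (4 N))`, which contains `g y` (distance `≤ ρ y / (16 N)`).
(3) `h = g` off a bounded set, so `h` is proper (`tendsto` along `cocompact`), hence a closed map, hence a homeomorphism.
-/

open Set Metric Filter Module MeasureTheory
open scoped ContDiff Topology

namespace Pool.Agent.Walls

variable {V : Type} [NormedAddCommGroup V] [InnerProductSpace ℝ V] [FiniteDimensional ℝ V]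

omit [FiniteDimensional ℝ V] in
theorem w4_norm_le (A : V ≃L[ℝ] V) (v : V) : ‖v‖ ≤ ‖(A.symm : V →L[ℝ] V)‖ * ‖A v‖ := by
  have h := (A.symm : V →L[ℝ] V).le_opNorm (A v)
  simpa using h

omit [FiniteDimensional ℝ V] in
theorem w4_pos [Nontrivial V] (A : V ≃L[ℝ] V) : 0 < ‖(A.symm : V →L[ℝ] V)‖ := by
  obtain ⟨v, hv⟩ := exists_ne (0 : V)
  have h := w4_norm_le A v
  have h2 : 0 < ‖v‖ := norm_pos_iff.2 hv
  by_contra h3
  have h4 : ‖(A.symm : V →L[ℝ] V)‖ = 0 := le_antisymm (not_lt.1 h3) (norm_nonneg _)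
  rw [h4, zero_mul] at h
  linarith

omit [FiniteDimensional ℝ V] in
theorem w4_step0 (g : V ≃ₜ V) {r : ℝ} (hr : 0 < r) (x y : V) (A : V ≃L[ℝ] V) (b : V)
    (h1 : ∀ y ∈ closedBall x r, ‖(A.symm : V →L[ℝ] V)‖ * ‖g y - (b + A y)‖ ≤ r / 32)
    (h2 : ‖(A.symm : V →L[ℝ] V)‖ * ‖g y - g x‖ ≤ r / 8) : ‖y - x‖ ≤ 3 * r / 16 := by
  set N := ‖(A.symm : V →L[ℝ] V)‖ with hN
  have hN0 : 0 ≤ N := norm_nonneg _
  have key : ∀ z ∈ closedBall x r, N * ‖g z - g x‖ ≤ r / 8 → ‖z - x‖ ≤ 3 * r / 16 := by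
    intro z hz hgz
    have e1 := h1 z hz
    have e2 := h1 x (mem_closedBall_self hr.le)
    have e3 := w4_norm_le A (z - x)
    have e4 : A (z - x) = (g z - g x) - (g z - (b + A z)) + (g x - (b + A x)) := by
      rw [map_sub]; abel
    have e5 : ‖A (z - x)‖ ≤ ‖g z - g x‖ + ‖g z - (b + A z)‖ + ‖g x - (b + A x)‖ := by
      rw [e4]
      exact (norm_add_le _ _).trans (by gcongr; exact norm_sub_le _ _)
    calc ‖z - x‖ ≤ N * ‖A (z - x)‖ := e3
      _ ≤ N * (‖g z - g x‖ + ‖g z - (b + A z)‖ + ‖g x - (b + A x)‖) := by gcongr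
      _ = N * ‖g z - g x‖ + N * ‖g z - (b + A z)‖ + N * ‖g x - (b + A x)‖ := by ring
      _ ≤ r / 8 + r / 32 + r / 32 := by gcongr
      _ = 3 * r / 16 := by ring
  have hy : y ∈ closedBall x r := by
    by_contra hy
    rw [mem_closedBall, dist_eq_norm, not_le] at hy
    set c : ℝ → V := fun t => g.symm (g x + t • (g y - g x)) with hc
    have hcc : Continuous (fun t => ‖c t - x‖) := by
      have : Continuous c := g.symm.continuous.comp (by fun_prop)
      exact (this.sub continuous_const).norm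
    have hc0 : ‖c 0 - x‖ = 0 := by simp [hc]
    have hc1 : ‖c 1 - x‖ = ‖y - x‖ := by simp [hc]
    have hiv := intermediate_value_Icc (zero_le_one (α := ℝ)) hcc.continuousOn
    have hmem : r ∈ Icc (‖c 0 - x‖) (‖c 1 - x‖) := by
      rw [hc0, hc1]
      exact ⟨hr.le, hy.le⟩
    obtain ⟨t, ht, htr⟩ := hiv hmem
    have htr' : ‖c t - x‖ = r := htr
    have h5 : g (c t) - g x = t • (g y - g x) := by simp [hc]
    have h6 : N * ‖g (c t) - g x‖ ≤ r / 8 := by
      rw [h5, norm_smul, Real.norm_of_nonneg ht.1]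
      have h7 : N * (t * ‖g y - g x‖) ≤ N * (1 * ‖g y - g x‖) := by
        gcongr
        exact ht.2
      linarith
    have h8 := key (c t) (by rw [mem_closedBall, dist_eq_norm, htr']) h6
    rw [htr'] at h8
    linarith
  exact key y hy h2

theorem exists_homeo_of_close (g : V ≃ₜ V) (h : V → V) (hc : Continuous h) (ρ : V → ℝ)
    (hρ : ∀ x, 0 ≤ ρ x) (hb : Bornology.IsBounded {x | 0 < ρ x}) (h0 : ∀ x, ρ x = 0 → h x = g x)
    (hloc : ∀ x, 0 < ρ x → ∃ (A : V ≃L[ℝ] V) (b : V),
      (∀ y ∈ closedBall x (ρ x), ‖(A.symm : V →L[ℝ] V)‖ * ‖g y - (b + A y)‖ ≤ ρ x / 32) ∧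
      ‖(A.symm : V →L[ℝ] V)‖ * ‖h x - (b + A x)‖ ≤ ρ x / 32 ∧
      ∀ y ∈ closedBall x (ρ x / 2), ∀ z ∈ closedBall x (ρ x / 2),
        ‖(A.symm : V →L[ℝ] V)‖ * ‖(h y - A y) - (h z - A z)‖ ≤ ‖y - z‖ / 2) :
    ∃ H : V ≃ₜ V, ∀ x, H x = h x := by
  rcases subsingleton_or_nontrivial V with hV | hV
  · exact ⟨g, fun x => Subsingleton.elim _ _⟩
  have hgh : ∀ x, 0 < ρ x → ∀ (A : V ≃L[ℝ] V) (b : V),
      (∀ y ∈ closedBall x (ρ x), ‖(A.symm : V →L[ℝ] V)‖ * ‖g y - (b + A y)‖ ≤ ρ x / 32) →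
      ‖(A.symm : V →L[ℝ] V)‖ * ‖h x - (b + A x)‖ ≤ ρ x / 32 →
      ‖g x - h x‖ ≤ ρ x / ‖(A.symm : V →L[ℝ] V)‖ / 16 := by
    intro x hx A b h1 h2
    have hN := w4_pos A
    set N := ‖(A.symm : V →L[ℝ] V)‖
    have e1 := h1 x (mem_closedBall_self hx.le)
    have e2 : ‖g x - h x‖ ≤ ‖g x - (b + A x)‖ + ‖h x - (b + A x)‖ := by
      have : g x - h x = (g x - (b + A x)) - (h x - (b + A x)) := by abel
      rw [this]
      exact norm_sub_le _ _
    rw [div_div, le_div_iff₀ (by positivity)]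
    calc ‖g x - h x‖ * (N * 16) ≤ (‖g x - (b + A x)‖ + ‖h x - (b + A x)‖) * (N * 16) := by gcongr
      _ = (N * ‖g x - (b + A x)‖ + N * ‖h x - (b + A x)‖) * 16 := by ring
      _ ≤ (ρ x / 32 + ρ x / 32) * 16 := by gcongr
      _ = ρ x := by ring
  choose! A b hA1 hA2 hA3 using hloc
  set q : V → ℝ := fun x => if 0 < ρ x then ρ x / ‖((A x).symm : V →L[ℝ] V)‖ else 0 with hq
  have hqd : ∀ x, ‖g x - h x‖ ≤ q x / 16 := by
    intro x
    by_cases hx : 0 < ρ x
    · simp only [hq, if_pos hx]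
      exact hgh x hx (A x) (b x) (hA1 x hx) (hA2 x hx)
    · simp only [hq, if_neg hx]
      have : ρ x = 0 := le_antisymm (not_lt.1 hx) (hρ x)
      rw [h0 x this]
      simp
  have hqpos : ∀ x, 0 < ρ x → 0 < q x := by
    intro x hx
    simp only [hq, if_pos hx]
    exact div_pos hx (w4_pos _)
  have hmain : ∀ x y, h x = h y → 0 < ρ x → q y ≤ q x → x = y := by
    intro x y hxy hx hqq
    have hN := w4_pos (A x)
    set N := ‖((A x).symm : V →L[ℝ] V)‖ with hNdef
    have hqx : q x = ρ x / N := by simp only [hq, if_pos hx]; rfl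
    have e1 : ‖g y - g x‖ ≤ q x / 8 := by
      have : g y - g x = (g y - h y) - (g x - h x) := by rw [hxy]; abel
      rw [this]
      calc ‖(g y - h y) - (g x - h x)‖ ≤ ‖g y - h y‖ + ‖g x - h x‖ := norm_sub_le _ _
        _ ≤ q y / 16 + q x / 16 := add_le_add (hqd y) (hqd x)
        _ ≤ q x / 16 + q x / 16 := by gcongr
        _ = q x / 8 := by ring
    have e2 : N * ‖g y - g x‖ ≤ ρ x / 8 := by
      calc N * ‖g y - g x‖ ≤ N * (q x / 8) := by gcongr
        _ = ρ x / 8 := by rw [hqx]; field_simp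
    have e3 := w4_step0 g hx x y (A x) (b x) (hA1 x hx) e2
    have hy2 : y ∈ closedBall x (ρ x / 2) := by
      rw [mem_closedBall, dist_eq_norm]
      linarith
    have e4 := hA3 x hx y hy2 x (mem_closedBall_self (by positivity))
    have e5 : (h y - A x y) - (h x - A x x) = - A x (y - x) := by
      rw [map_sub, hxy]; abel
    rw [e5, norm_neg] at e4
    have e6 := w4_norm_le (A x) (y - x)
    have e7 : ‖y - x‖ ≤ 0 := by linarith
    have e8 : y - x = 0 := norm_le_zero_iff.1 e7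
    exact (sub_eq_zero.1 e8).symm
  have hinj : Function.Injective h := by
    intro x y hxy
    by_cases hx : 0 < ρ x
    · rcases le_total (q y) (q x) with hqq | hqq
      · exact hmain x y hxy hx hqq
      · have hy : 0 < ρ y := by
          by_contra hy
          have h1 : q y = 0 := by simp only [hq, if_neg hy]
          have h2 := hqpos x hx
          linarith
        exact (hmain y x hxy.symm hy hqq).symm
    · by_cases hy : 0 < ρ y
      · have h1 : q x = 0 := by simp only [hq, if_neg hx]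
        exact (hmain y x hxy.symm hy (by rw [h1]; exact (hqpos y hy).le)).symm
      · have h1 : ρ x = 0 := le_antisymm (not_lt.1 hx) (hρ x)
        have h2 : ρ y = 0 := le_antisymm (not_lt.1 hy) (hρ y)
        rw [h0 x h1, h0 y h2] at hxy
        exact g.injective hxy
  have hsurj : Function.Surjective h := by
    intro w
    obtain ⟨y, rfl⟩ := g.surjective w
    by_cases hy : 0 < ρ y
    · have hN := w4_pos (A y)
      set N := ‖((A y).symm : V →L[ℝ] V)‖ with hNdef
      have hcc : ((Real.toNNReal ((2 * N)⁻¹) : NNReal) : ℝ) = (2 * N)⁻¹ :=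
        Real.coe_toNNReal _ (by positivity)
      have hap : ApproximatesLinearOn h ((A y : V ≃L[ℝ] V) : V →L[ℝ] V) (closedBall y (ρ y / 2))
          (Real.toNNReal ((2 * N)⁻¹)) := by
        intro u hu v hv
        have e1 := hA3 y hy u hu v hv
        have e2 : h u - h v - ((A y : V ≃L[ℝ] V) : V →L[ℝ] V) (u - v) =
            (h u - A y u) - (h v - A y v) := by
          rw [map_sub]
          simp only [ContinuousLinearEquiv.coe_coe]
          abel
        rw [e2]
        rw [hcc, inv_mul_eq_div, le_div_iff₀ (by positivity)]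
        linarith
      have hs := hap.surjOn_closedBall_of_nonlinearRightInverse (A y).toNonlinearRightInverse
        (b := y) (ε := ρ y / 2) (by positivity) Subset.rfl
      have hmem : g y ∈ closedBall (h y) ((((A y).toNonlinearRightInverse.nnnorm : ℝ)⁻¹ -
          ((Real.toNNReal ((2 * N)⁻¹) : NNReal) : ℝ)) * (ρ y / 2)) := by
        have e4 : (((A y).toNonlinearRightInverse.nnnorm : ℝ)) = N := rfl
        rw [e4, hcc, mem_closedBall, dist_eq_norm]
        have e5 := hqd y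
        simp only [hq, if_pos hy] at e5
        refine e5.trans (le_of_sub_nonneg ?_)
        have e6 : (N⁻¹ - (2 * N)⁻¹) * (ρ y / 2) - ρ y / N / 16 = ρ y / N * (3 / 16) := by
          field_simp
          ring
        rw [e6]
        positivity
      obtain ⟨z, _, hz⟩ := hs hmem
      exact ⟨z, hz⟩
    · have h1 : ρ y = 0 := le_antisymm (not_lt.1 hy) (hρ y)
      exact ⟨y, h0 y h1⟩
  have hco : Tendsto h (cocompact V) (cocompact V) := by
    have h1 : Tendsto g (cocompact V) (cocompact V) := g.isClosedEmbedding.tendsto_cocompact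
    refine h1.congr' ?_
    rw [← Metric.cobounded_eq_cocompact]
    have h2 : {x | 0 < ρ x}ᶜ ∈ Bornology.cobounded V := Bornology.isBounded_def.1 hb
    filter_upwards [h2] with x hx
    have h3 : ρ x = 0 := le_antisymm (not_lt.1 hx) (hρ x)
    exact (h0 x h3).symm
  have hcl : IsClosedMap h := (isProperMap_iff_tendsto_cocompact.2 ⟨hc, hco⟩).isClosedMap
  exact ⟨(Equiv.ofBijective h ⟨hinj, hsurj⟩).toHomeomorphOfContinuousClosed hc hcl, fun x => rfl⟩

end Pool.Agent.Walls
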