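import Pool.Agent.Lib.MP_4f753b_an.W.W2
import Pool.Agent.Lib.MP_4f753b_an.W.W3
import Pool.Agent.Lib.MP_4f753b_an.W.W4

/-!
Row 4f-W5: smoothing a homeomorphism where it is almost affine.

`h = smo φ ρ g`, `φ` from `exists_ker`, `C` from `smo_lip`; with `A, b` from `AA ε g x (2 ρ x)` and `u = g - (b + A ·)`,
`smo φ ρ g = b + A · + smo φ ρ u` (`smo_sub`, `smo_affine`), so `N ‖h x - (b + A x)‖ ≤ 2 ε ρ x` and
`N ‖(h y - A y) - (h z - A z)‖ ≤ 2 C ε ‖y - z‖` on `closedBall x (ρ x / 2)`, `N = ‖A.symm‖` (multiply `u` by `N`, or treat `m = 2 ε ρ x / N`).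
Take `ε₀` with `2 ε₀ ≤ 1 / 32`, `2 C ε₀ ≤ 1 / 2`, `C₁ = 2 C`, and apply `exists_homeo_of_close`.
`‖h x - g x‖ ≤ D`: `smo_norm_le` for `g - g x` (and `smo_affine` for a constant).
`LD`: `smo_contDiffAt` (also at nearby points, `ρ` is continuous); the derivative `D` at `x` satisfies `N ‖D - A‖ ≤ 1 / 2`, so
`‖v‖ ≤ 2 N ‖D v‖`: it is injective, hence invertible (`LinearEquiv.ofInjectiveEndo`, `LinearEquiv.toContinuousLinearEquiv`).
-/

open Set Metric Filter Module MeasureTheory Pool.Agent.TopCells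
open scoped ContDiff Topology

namespace Pool.Agent.Walls

variable {V : Type} [NormedAddCommGroup V] [InnerProductSpace ℝ V] [FiniteDimensional ℝ V]
  [MeasurableSpace V] [BorelSpace V]

private theorem W5_smul (φ ρ : V → ℝ) (N : ℝ) (g : V → V) (x : V) :
    smo φ ρ (fun y => N • g y) x = N • smo φ ρ g x := by
  unfold smo
  rw [← integral_smul]
  refine integral_congr_ae (Eventually.of_forall fun y => ?_)
  exact smul_comm _ _ _

private theorem W5_diff {φ : V → ℝ} (hφ : IsKer φ) (ρ : V → ℝ) {g : V → V} (hg : Continuous g)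
    (N : ℝ) (A : V ≃L[ℝ] V) (b x : V) :
    smo φ ρ (fun y => N • (g y - (b + A y))) x = N • (smo φ ρ g x - (b + A x)) := by
  have hA : Continuous fun y => b + (A : V →L[ℝ] V) y :=
    continuous_const.add (A : V →L[ℝ] V).continuous
  have h1 := W5_smul φ ρ N (fun y => g y - (b + A y)) x
  have h2 := smo_sub hφ ρ hg hA x
  have h3 := smo_affine hφ ρ (A : V →L[ℝ] V) b x
  rw [h1]
  congr 1
  rw [h3] at h2
  exact h2

private theorem W5_zero {φ : V → ℝ} (hφ : IsKer φ) {ρ : V → ℝ} {g : V → V} (hg : Continuous g)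
    {x : V} (hx : 0 < ρ x) {ε : ℝ} {A : V ≃L[ℝ] V} {b : V}
    (h : ∀ y ∈ closedBall x (2 * ρ x), ‖(A.symm : V →L[ℝ] V)‖ * ‖g y - (b + A y)‖ ≤
      ε * (2 * ρ x)) :
    ‖(A.symm : V →L[ℝ] V)‖ * ‖smo φ ρ g x - (b + A x)‖ ≤ ε * (2 * ρ x) := by
  have h1 := smo_norm_le hφ (ρ := ρ)
    (g := fun y => ‖(A.symm : V →L[ℝ] V)‖ • (g y - (b + A y))) (x := x) hx.le
    (D := ε * (2 * ρ x)) (fun y hy => by
      rw [norm_smul, Real.norm_of_nonneg (norm_nonneg _)]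
      exact h y (closedBall_subset_closedBall (by linarith) hy))
  rw [W5_diff hφ ρ hg, norm_smul, Real.norm_of_nonneg (norm_nonneg _)] at h1
  exact h1

private theorem W5_lip {φ : V → ℝ} (hφ : IsKer φ) {C : ℝ}
    (hC : ∀ (ρ : V → ℝ), LipschitzWith 1 ρ →
      ∀ u : V → V, Continuous u → ∀ x : V, 0 < ρ x → ∀ m : ℝ,
      (∀ z ∈ closedBall x (2 * ρ x), ‖u z‖ ≤ m) →
      ∀ x' ∈ closedBall x (ρ x / 2), ∀ x'' ∈ closedBall x (ρ x / 2),
        ρ x * ‖smo φ ρ u x' - smo φ ρ u x''‖ ≤ C * m * ‖x' - x''‖)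
    {ρ : V → ℝ} (hρ : LipschitzWith 1 ρ) {g : V → V} (hg : Continuous g)
    {x : V} (hx : 0 < ρ x) {ε : ℝ} {A : V ≃L[ℝ] V} {b : V}
    (h : ∀ y ∈ closedBall x (2 * ρ x), ‖(A.symm : V →L[ℝ] V)‖ * ‖g y - (b + A y)‖ ≤
      ε * (2 * ρ x)) :
    ∀ y ∈ closedBall x (ρ x / 2), ∀ z ∈ closedBall x (ρ x / 2),
      ‖(A.symm : V →L[ℝ] V)‖ * ‖(smo φ ρ g y - A y) - (smo φ ρ g z - A z)‖ ≤
        2 * C * ε * ‖y - z‖ := by
  intro y hy z hz
  have hA : Continuous fun y => b + A y := continuous_const.add A.continuous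
  have h1 := hC ρ hρ (fun y => ‖(A.symm : V →L[ℝ] V)‖ • (g y - (b + A y)))
    ((hg.sub hA).const_smul _) x hx (ε * (2 * ρ x)) (fun y hy => by
      rw [norm_smul, Real.norm_of_nonneg (norm_nonneg _)]
      exact h y hy) y hy z hz
  rw [W5_diff hφ ρ hg, W5_diff hφ ρ hg, ← smul_sub, norm_smul,
    Real.norm_of_nonneg (norm_nonneg _)] at h1
  have e1 : smo φ ρ g y - (b + A y) - (smo φ ρ g z - (b + A z)) =
      (smo φ ρ g y - A y) - (smo φ ρ g z - A z) := by abel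
  rw [e1] at h1
  have h2 : ρ x * (‖(A.symm : V →L[ℝ] V)‖ * ‖(smo φ ρ g y - A y) - (smo φ ρ g z - A z)‖) ≤
      ρ x * (2 * C * ε * ‖y - z‖) := by
    refine h1.trans (le_of_eq ?_)
    ring
  exact le_of_mul_le_mul_left h2 hx

private theorem W5_inv {h : V → V} {x : V} {D : V →L[ℝ] V} (hD : HasFDerivAt h D x)
    {A : V ≃L[ℝ] V} {r : ℝ} (hr : 0 < r)
    (hA : ∀ y ∈ closedBall x r, ‖(A.symm : V →L[ℝ] V)‖ * ‖(h y - A y) - (h x - A x)‖ ≤
      (1 / 2) * ‖y - x‖) : ∃ B : V ≃L[ℝ] V, HasFDerivAt h (B : V →L[ℝ] V) x := by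
  set N := ‖(A.symm : V →L[ℝ] V)‖ with hN
  have hN0 : 0 ≤ N := norm_nonneg _
  have h1 : HasFDerivAt (fun y => N • (h y - (A : V →L[ℝ] V) y)) (N • (D - (A : V →L[ℝ] V))) x :=
    (hD.sub (A : V →L[ℝ] V).hasFDerivAt).const_smul N
  have h2 : ‖N • (D - (A : V →L[ℝ] V))‖ ≤ 1 / 2 := by
    refine h1.le_of_lip' (by norm_num) ?_
    filter_upwards [closedBall_mem_nhds x hr] with y hy
    rw [← smul_sub, norm_smul, Real.norm_of_nonneg hN0]
    exact hA y hy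
  have hinj : Function.Injective D := by
    rw [injective_iff_map_eq_zero]
    intro v hv
    have h3 : ‖(N • (D - (A : V →L[ℝ] V))) v‖ ≤ 1 / 2 * ‖v‖ :=
      (ContinuousLinearMap.le_opNorm _ v).trans (mul_le_mul_of_nonneg_right h2 (norm_nonneg v))
    have e1 : (N • (D - (A : V →L[ℝ] V))) v = N • (-(A v)) := by
      rw [ContinuousLinearMap.smul_apply, ContinuousLinearMap.sub_apply, hv, zero_sub]
      rfl
    rw [e1, norm_smul, norm_neg, Real.norm_of_nonneg hN0] at h3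
    have h4 : ‖v‖ ≤ N * ‖A v‖ := by
      have := (A.symm : V →L[ℝ] V).le_opNorm (A v)
      have e2 : (A.symm : V →L[ℝ] V) (A v) = v := A.symm_apply_apply v
      rwa [e2] at this
    have h5 : ‖v‖ ≤ 0 := by linarith
    exact norm_le_zero_iff.1 h5
  let B : V ≃L[ℝ] V := (LinearEquiv.ofInjectiveEndo (D : V →ₗ[ℝ] V) hinj).toContinuousLinearEquiv
  refine ⟨B, ?_⟩
  have hB : (B : V →L[ℝ] V) = D := by
    ext v
    rfl
  rw [hB]
  exact hD

theorem exists_smoothing (V : Type) [NormedAddCommGroup V] [InnerProductSpace ℝ V]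
    [FiniteDimensional ℝ V] [MeasurableSpace V] [BorelSpace V] :
    ∃ ε₀ : ℝ, 0 < ε₀ ∧ ∃ C₁ : ℝ, 0 < C₁ ∧ ∀ (g : V ≃ₜ V) (ρ : V → ℝ), LipschitzWith 1 ρ →
    (∀ x, 0 ≤ ρ x) → Bornology.IsBounded {x | 0 < ρ x} →
    (∀ x, 0 < ρ x → AA ε₀ g x (2 * ρ x)) →
    ∃ H : V ≃ₜ V, (∀ x, ρ x = 0 → H x = g x) ∧
      (∀ (x : V) (D : ℝ), (∀ y ∈ closedBall x (ρ x), ‖g y - g x‖ ≤ D) → ‖H x - g x‖ ≤ D) ∧
      (∀ x, 0 < ρ x → ∀ ε : ℝ, AA ε g x (2 * ρ x) → ∃ A : V ≃L[ℝ] V,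
        ∀ y ∈ closedBall x (ρ x / 2), ∀ z ∈ closedBall x (ρ x / 2),
          ‖(A.symm : V →L[ℝ] V)‖ * ‖(H y - A y) - (H z - A z)‖ ≤ C₁ * ε * ‖y - z‖) ∧
      (ContDiff ℝ ∞ ρ → ∀ x, 0 < ρ x → LD H x) := by
  obtain ⟨φ, hφ⟩ := exists_ker V
  obtain ⟨C, hC, hlip⟩ := smo_lip hφ
  refine ⟨min (1 / 64) (1 / (4 * C)), lt_min (by norm_num) (by positivity), 2 * C, by positivity,
    ?_⟩
  intro g ρ hρ hρ0 hb hAA
  have hgc : Continuous g := g.continuous
  have hε1 : min (1 / 64) (1 / (4 * C)) ≤ 1 / 64 := min_le_left _ _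
  have hε2 : 2 * C * min (1 / 64) (1 / (4 * C)) ≤ 1 / 2 := by
    have h1 : min (1 / 64) (1 / (4 * C)) ≤ 1 / (4 * C) := min_le_right _ _
    calc 2 * C * min (1 / 64) (1 / (4 * C)) ≤ 2 * C * (1 / (4 * C)) :=
          mul_le_mul_of_nonneg_left h1 (by positivity)
      _ = 1 / 2 := by
        field_simp
        norm_num
  have hhalf : ∀ x, 0 < ρ x → ∀ (A : V ≃L[ℝ] V) (b : V),
      (∀ y ∈ closedBall x (2 * ρ x), ‖(A.symm : V →L[ℝ] V)‖ * ‖g y - (b + A y)‖ ≤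
        min (1 / 64) (1 / (4 * C)) * (2 * ρ x)) →
      ∀ y ∈ closedBall x (ρ x / 2), ∀ z ∈ closedBall x (ρ x / 2),
        ‖(A.symm : V →L[ℝ] V)‖ * ‖(smo φ ρ g y - A y) - (smo φ ρ g z - A z)‖ ≤
          (1 / 2) * ‖y - z‖ := by
    intro x hx A b h y hy z hz
    refine (W5_lip hφ hlip hρ hgc hx h y hy z hz).trans ?_
    exact mul_le_mul_of_nonneg_right hε2 (norm_nonneg _)
  obtain ⟨H, hH⟩ := exists_homeo_of_close g (smo φ ρ g) (continuous_smo hφ hρ.continuous hgc) ρ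
    hρ0 hb (fun x hx => smo_of_zero hφ g hx) (by
      intro x hx
      obtain ⟨A, b, h⟩ := hAA x hx
      have hρx : min (1 / 64) (1 / (4 * C)) * (2 * ρ x) ≤ ρ x / 32 := by
        have := mul_le_mul_of_nonneg_right hε1 (show (0 : ℝ) ≤ 2 * ρ x by linarith)
        linarith
      refine ⟨A, b, fun y hy => ?_, (W5_zero hφ hgc hx h).trans hρx, ?_⟩
      · exact (h y (closedBall_subset_closedBall (by linarith) hy)).trans hρx
      · intro y hy z hz
        have := hhalf x hx A b h y hy z hz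
        linarith)
  have hHf : (⇑H : V → V) = smo φ ρ g := funext hH
  refine ⟨H, fun x hx => by rw [hH, smo_of_zero hφ g hx], ?_, ?_, ?_⟩
  · intro x D hD
    have h1 := smo_norm_le hφ (ρ := ρ) (g := fun y => g y - g x) (x := x) (hρ0 x) hD
    have h2 := smo_sub hφ ρ hgc (continuous_const (y := g x)) x
    have h3 := smo_affine hφ ρ (0 : V →L[ℝ] V) (g x) x
    have e1 : (fun y => g x + (0 : V →L[ℝ] V) y) = fun _ => g x := by
      funext y
      rw [ContinuousLinearMap.zero_apply, add_zero]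
    rw [e1, ContinuousLinearMap.zero_apply, add_zero] at h3
    rw [h2, h3] at h1
    rw [hH]
    exact h1
  · intro x hx ε hε
    obtain ⟨A, b, h⟩ := hε
    refine ⟨A, fun y hy z hz => ?_⟩
    rw [hH, hH]
    exact W5_lip hφ hlip hρ hgc hx h y hy z hz
  · intro hρs x hx
    have hcd : ∀ y, 0 < ρ y → ContDiffAt ℝ ∞ (smo φ ρ g) y := fun y hy =>
      smo_contDiffAt hφ hρs hgc hy
    rw [hHf]
    refine ⟨?_, ?_⟩
    · have : ∀ᶠ y in 𝓝 x, 0 < ρ y :=
        hρ.continuous.continuousAt.eventually_const_lt hx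
      filter_upwards [this] with y hy
      exact hcd y hy
    · obtain ⟨A, b, h⟩ := hAA x hx
      have hd : HasFDerivAt (smo φ ρ g) (fderiv ℝ (smo φ ρ g) x) x :=
        ((hcd x hx).differentiableAt (by simp)).hasFDerivAt
      refine W5_inv hd (A := A) (r := ρ x / 2) (by linarith) fun y hy => ?_
      exact hhalf x hx A b h y hy x (mem_closedBall_self (by linarith))

end Pool.Agent.Walls
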