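import Pool.Agent.Lib.MP_4f753b_an.W.W5

/-!
Row 4f-W6: smoothing in a thin open set whose frontier consists of good points.

Let `ε₀`, `C₁` be from `exists_smoothing`; `ε₁ = min (ε₀ / 2) (ε₀ / (4 C₁))`. Let `d x = infDist x Oᶜ` (`Oᶜ` is closed and nonempty, `V` is
nontrivial, `O` bounded), `0 < d x ↔ x ∈ O`.
Step A: `ρ x = d x / 2`. For `x ∈ O` there is a nearest point `x̂` of `Oᶜ`, `dist x x̂ = d x` (`IsClosed.exists_infDist_eq_dist`),
which is in the frontier of `O` (the half open segment `[x, x̂)` is in `ball x (d x) ⊆ O`); `closedBall x (2 ρ x) ⊆ closedBall x̂ (2 d x)`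
and `2 d x ≤ r`, so `AA ε₁ g x̂ (2 d x)` gives `AA (2 ε₁) g x (2 ρ x)` (`AA.sub`). `exists_smoothing` gives `H₁`, with
`‖H₁ x - g x‖ ≤ δ` and, on `closedBall x (d x / 4)`, `‖A.symm‖ * ‖(H₁ y - A y) - (H₁ z - A z)‖ ≤ ε₀ / 2 * ‖y - z‖`.
Step B: `exists_cutoff` (file A1) for `K ⊆ O`: `χ` smooth, `1` on `K`, `0` off the compact set `K' ⊆ O`; `ρ₂ = κ χ ^ 2`, `κ > 0` so small that
`ρ₂` is 1-Lipschitz (`χ ^ 2` is smooth with compact support), `2 ρ₂ x ≤ d x / 4` for all `x` (`d` has a positive minimum on `K'`), and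
`‖H₁ y - H₁ x‖ ≤ δ` for `x ∈ K'`, `dist y x ≤ ρ₂ x` (uniform continuity). For `0 < ρ₂ x`, with `b = H₁ x - A x`,
`‖A.symm‖ * ‖H₁ y - (b + A y)‖ ≤ ε₀ / 2 * ‖y - x‖` on `closedBall x (2 ρ₂ x)`, so `AA ε₀ H₁ x (2 ρ₂ x)`. Apply `exists_smoothing` again.
-/

open Set Metric Filter Module MeasureTheory Pool.Agent.TopCells
open scoped ContDiff Topology

namespace Pool.Agent.Walls

theorem exists_smooth_near (V : Type) [NormedAddCommGroup V] [InnerProductSpace ℝ V]
    [FiniteDimensional ℝ V] [Nontrivial V] [MeasurableSpace V] [BorelSpace V] :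
    ∃ ε₁ : ℝ, 0 < ε₁ ∧ ∀ (g : V ≃ₜ V) (O K : Set V) (r δ : ℝ), IsOpen O →
    Bornology.IsBounded O → IsCompact K → K ⊆ O → 0 < r → 0 < δ →
    (∀ x ∈ frontier O, ∀ s : ℝ, 0 < s → s ≤ r → AA ε₁ g x s) →
    (∀ x ∈ O, infDist x Oᶜ ≤ r / 2) →
    (∀ x ∈ O, ∀ y ∈ closedBall x (infDist x Oᶜ), ‖g y - g x‖ ≤ δ) →
    ∃ H : V ≃ₜ V, (∀ x, ‖H x - g x‖ ≤ 2 * δ) ∧ ∀ x ∈ K, LD H x := by
  obtain ⟨ε₀, hε₀, C₁, hC₁, hsm⟩ := exists_smoothing V
  refine ⟨min (ε₀ / 2) (ε₀ / (4 * C₁)), lt_min (by positivity) (by positivity), ?_⟩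
  set ε₁ := min (ε₀ / 2) (ε₀ / (4 * C₁)) with hε₁
  have hε₁0 : 0 < ε₁ := lt_min (by positivity) (by positivity)
  have hε₁a : 2 * ε₁ ≤ ε₀ := by
    have := min_le_left (ε₀ / 2) (ε₀ / (4 * C₁))
    linarith
  have hε₁b : C₁ * (2 * ε₁) ≤ ε₀ / 2 := by
    have h1 : ε₁ ≤ ε₀ / (4 * C₁) := min_le_right _ _
    calc C₁ * (2 * ε₁) ≤ C₁ * (2 * (ε₀ / (4 * C₁))) := by gcongr
      _ = ε₀ / 2 := by field_simp; norm_num
  intro g O K r δ hO hOb hK hKO hr hδ hfr hthin hosc
  set d : V → ℝ := fun x => infDist x Oᶜ with hd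
  have hcl : IsClosed Oᶜ := hO.isClosed_compl
  have hne : (Oᶜ).Nonempty := by
    rw [nonempty_compl]
    rintro rfl
    exact NormedSpace.unbounded_univ ℝ V hOb
  have hd0 : ∀ x, 0 ≤ d x := fun x => infDist_nonneg
  have hdpos : ∀ x, 0 < d x ↔ x ∈ O := by
    intro x
    rw [hd]
    have := hcl.notMem_iff_infDist_pos hne (x := x)
    rw [← this, notMem_compl_iff]
  have hdlip : ∀ x y, |d x - d y| ≤ dist x y := by
    intro x y
    have := (lipschitz_infDist_pt Oᶜ).dist_le_mul x y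
    simpa [Real.dist_eq] using this
  -- step A
  have hρlip : LipschitzWith 1 (fun x => d x / 2) := by
    apply LipschitzWith.of_dist_le_mul
    intro x y
    rw [Real.dist_eq, NNReal.coe_one, one_mul]
    have h1 := hdlip x y
    have h2 : d x / 2 - d y / 2 = (d x - d y) / 2 := by ring
    rw [h2, abs_div, abs_two]
    have := abs_nonneg (d x - d y)
    linarith
  have hAA : ∀ x, 0 < d x → AA (2 * ε₁) g x (2 * (d x / 2)) := by
    intro x hx
    have hxO := (hdpos x).mp hx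
    obtain ⟨w, hw, hwd⟩ := hcl.exists_infDist_eq_dist hne x
    have hwd' : d x = dist x w := hwd
    have hwf : w ∈ frontier O := by
      rw [hO.frontier_eq]
      refine ⟨?_, hw⟩
      have h1 : ball x (d x) ⊆ O := ball_infDist_compl_subset
      have h2 : w ∈ closure (ball x (d x)) := by
        rw [closure_ball x hx.ne', mem_closedBall, dist_comm, hwd']
      exact closure_mono h1 h2
    have h3 := hfr w hwf (2 * d x) (by positivity) (by
      have := hthin x hxO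
      have h4 : d x ≤ r / 2 := this
      linarith)
    refine h3.sub ?_ ?_
    · intro y hy
      rw [mem_closedBall] at hy ⊢
      calc dist y w ≤ dist y x + dist x w := dist_triangle _ _ _
        _ ≤ 2 * (d x / 2) + d x := add_le_add hy hwd'.ge
        _ = 2 * d x := by ring
    · apply le_of_eq; ring
  obtain ⟨H₁, hH0, hHD, hHA, -⟩ := hsm g (fun x => d x / 2) hρlip
    (fun x => by have := hd0 x; positivity)
    (hOb.subset (fun x hx => (hdpos x).mp (by
      have hx : 0 < d x / 2 := hx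
      linarith)))
    (fun x hx => (hAA x (by have hx : 0 < d x / 2 := hx; linarith)).mono (by
      have hx : 0 < d x / 2 := hx
      linarith) hε₁a)
  have hH1g : ∀ x, ‖H₁ x - g x‖ ≤ δ := by
    intro x
    rcases (hd0 x).eq_or_lt with h | h
    · rw [hH0 x (by rw [← h]; simp), sub_self, norm_zero]; exact hδ.le
    · apply hHD x δ
      intro y hy
      apply hosc x ((hdpos x).mp h) y
      apply closedBall_subset_closedBall _ hy
      have : d x / 2 ≤ d x := by linarith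
      exact this
  -- step B
  obtain ⟨χ, hχ, hχ1, K', hK', hK'O, hχ0⟩ := exists_cutoff hK hO hKO
  set q : V → ℝ := fun x => χ x ^ 2 with hq
  have hqs : ContDiff ℝ ∞ q := hχ.pow 2
  have hq0 : ∀ x, 0 ≤ q x := fun x => sq_nonneg _
  have hqK' : ∀ x, x ∉ K' → q x = 0 := by
    intro x hx
    rw [hq]
    simp [hχ0 x hx]
  have hqc : HasCompactSupport q := HasCompactSupport.intro hK' hqK'
  obtain ⟨C₀, hC₀⟩ := hqs.lipschitzWith_of_hasCompactSupport hqc (by simp)
  obtain ⟨B, hB⟩ := hqc.exists_bound_of_continuous hqs.continuous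
  have hB' : ∀ x, q x ≤ |B| + 1 := by
    intro x
    have h1 := hB x
    rw [Real.norm_eq_abs, abs_of_nonneg (hq0 x)] at h1
    have := le_abs_self B
    linarith
  have hB1 : 0 < |B| + 1 := by positivity
  obtain ⟨m, hm, hmd⟩ : ∃ m : ℝ, 0 < m ∧ ∀ x ∈ K', m ≤ d x := by
    rcases K'.eq_empty_or_nonempty with h | h
    · exact ⟨1, one_pos, by simp [h]⟩
    · obtain ⟨x₀, hx₀, hmin⟩ := hK'.exists_isMinOn h
        (lipschitz_infDist_pt Oᶜ).continuous.continuousOn
      exact ⟨d x₀, (hdpos x₀).mpr (hK'O hx₀), fun x hx => hmin hx⟩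
  obtain ⟨η, hη, hηH⟩ : ∃ η : ℝ, 0 < η ∧ ∀ x ∈ K', ∀ y, dist x y < η → dist (H₁ x) (H₁ y) < δ := by
    have h1 := hK'.uniformContinuousAt_of_continuousAt H₁
      (fun a _ => H₁.continuous.continuousAt) (Metric.dist_mem_uniformity hδ)
    rw [Metric.mem_uniformity_dist] at h1
    obtain ⟨η, hη, h2⟩ := h1
    exact ⟨η, hη, fun x hx y hxy => h2 hxy hx⟩
  set κ : ℝ := min (1 / ((C₀ : ℝ) + 1)) (min (m / (8 * (|B| + 1))) (η / (2 * (|B| + 1)))) with hκ
  have hC00 : (0 : ℝ) ≤ C₀ := C₀.2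
  have hκ0 : 0 < κ := lt_min (by positivity) (lt_min (by positivity) (by positivity))
  have hκ1 : κ * C₀ ≤ 1 := by
    have h1 : κ ≤ 1 / ((C₀ : ℝ) + 1) := min_le_left _ _
    calc κ * C₀ ≤ 1 / ((C₀ : ℝ) + 1) * (C₀ + 1) := by
          apply mul_le_mul h1 (by linarith) hC00 (by positivity)
      _ = 1 := by field_simp
  have hκ2 : κ * (|B| + 1) ≤ m / 8 := by
    have h1 : κ ≤ m / (8 * (|B| + 1)) := (min_le_right _ _).trans (min_le_left _ _)
    calc κ * (|B| + 1) ≤ m / (8 * (|B| + 1)) * (|B| + 1) := by gcongr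
      _ = m / 8 := by field_simp
  have hκ3 : κ * (|B| + 1) < η := by
    have h1 : κ ≤ η / (2 * (|B| + 1)) := (min_le_right _ _).trans (min_le_right _ _)
    calc κ * (|B| + 1) ≤ η / (2 * (|B| + 1)) * (|B| + 1) := by gcongr
      _ = η / 2 := by field_simp
      _ < η := by linarith
  set ρ₂ : V → ℝ := fun x => κ * q x with hρ₂
  have hρ₂0 : ∀ x, 0 ≤ ρ₂ x := fun x => mul_nonneg hκ0.le (hq0 x)
  have hρ₂K : ∀ x, 0 < ρ₂ x → x ∈ K' := by
    intro x hx
    by_contra h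
    rw [hρ₂] at hx
    simp only [hqK' x h, mul_zero, lt_irrefl] at hx
  have hρ₂lip : LipschitzWith 1 ρ₂ := by
    apply LipschitzWith.of_dist_le_mul
    intro x y
    rw [Real.dist_eq, NNReal.coe_one, one_mul, hρ₂]
    have h1 := hC₀.dist_le_mul x y
    rw [Real.dist_eq] at h1
    have h2 : κ * q x - κ * q y = κ * (q x - q y) := by ring
    simp only
    rw [h2, abs_mul, abs_of_pos hκ0]
    calc κ * |q x - q y| ≤ κ * (C₀ * dist x y) := by gcongr
      _ = (κ * C₀) * dist x y := by ring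
      _ ≤ 1 * dist x y := mul_le_mul_of_nonneg_right hκ1 dist_nonneg
      _ = dist x y := one_mul _
  have hρ₂le : ∀ x, ρ₂ x ≤ κ * (|B| + 1) := fun x => mul_le_mul_of_nonneg_left (hB' x) hκ0.le
  have hAA2 : ∀ x, 0 < ρ₂ x → AA ε₀ H₁ x (2 * ρ₂ x) := by
    intro x hx
    have hxK := hρ₂K x hx
    have hdx : 0 < d x := (hdpos x).mpr (hK'O hxK)
    obtain ⟨A, hA⟩ := hHA x (by positivity) (2 * ε₁) (hAA x hdx)
    refine ⟨A, H₁ x - A x, ?_⟩
    intro y hy
    have h1 : 2 * ρ₂ x ≤ d x / 2 / 2 := by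
      have := hρ₂le x
      have := hmd x hxK
      linarith
    have h2 : y ∈ closedBall x (d x / 2 / 2) := closedBall_subset_closedBall h1 hy
    have h3 := hA y h2 x (mem_closedBall_self (by positivity))
    have h4 : H₁ y - (H₁ x - A x + A y) = H₁ y - A y - (H₁ x - A x) := by abel
    rw [h4]
    rw [mem_closedBall, dist_eq_norm] at hy
    calc _ ≤ C₁ * (2 * ε₁) * ‖y - x‖ := h3
      _ ≤ ε₀ / 2 * (2 * ρ₂ x) := by
          apply mul_le_mul hε₁b hy (norm_nonneg _) (by positivity)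
      _ ≤ ε₀ * (2 * ρ₂ x) := by
          apply mul_le_mul_of_nonneg_right _ (by positivity)
          linarith
  obtain ⟨H₂, hG0, hGD, -, hGL⟩ := hsm H₁ ρ₂ hρ₂lip hρ₂0
    (hK'.isBounded.subset (fun x hx => hρ₂K x hx)) hAA2
  refine ⟨H₂, ?_, ?_⟩
  · intro x
    have h1 : ‖H₂ x - H₁ x‖ ≤ δ := by
      rcases (hρ₂0 x).eq_or_lt with h | h
      · rw [hG0 x h.symm, sub_self, norm_zero]; exact hδ.le
      · apply hGD x δ
        intro y hy
        have h2 := hηH x (hρ₂K x h) y (by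
          rw [dist_comm]
          rw [mem_closedBall] at hy
          exact lt_of_le_of_lt (hy.trans (hρ₂le x)) hκ3)
        rw [dist_comm, dist_eq_norm] at h2
        exact h2.le
    have h3 := hH1g x
    calc ‖H₂ x - g x‖ = ‖(H₂ x - H₁ x) + (H₁ x - g x)‖ := by congr 1; abel
      _ ≤ ‖H₂ x - H₁ x‖ + ‖H₁ x - g x‖ := norm_add_le _ _
      _ ≤ 2 * δ := by linarith
  · intro x hx
    apply hGL (contDiff_const.mul hqs) x
    have h1 : χ x = 1 := hχ1.self_of_nhdsSet x hx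
    rw [hρ₂]
    simp only [hq, h1]
    simpa using hκ0

end Pool.Agent.Walls
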