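import Pool.Agent.Lib.MP_4f753b_an.W.W0

/-!
Row 4f-W7: two close good values in each interval.
-/

open Set Metric Filter

namespace Pool.Agent.Walls

/-- An infinite subset of a bounded interval contains two points at small distance. -/
theorem exists_close_pair {T : Set ℝ} {a b : ℝ} (hT : (T ∩ Ioo a b).Infinite) {w : ℝ} (hw : 0 < w) :
    ∃ t ∈ T, ∃ t' ∈ T, a < t ∧ t < t' ∧ t' < b ∧ t' ≤ t + w := by
  have hmaps : MapsTo (fun x : ℝ => ⌊(x - a) / w⌋) (T ∩ Ioo a b) (Icc 0 ⌊(b - a) / w⌋) := by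
    intro x hx
    refine ⟨Int.floor_nonneg.mpr (div_nonneg (sub_nonneg.mpr hx.2.1.le) hw.le), ?_⟩
    refine Int.floor_le_floor ?_
    have := hx.2.2
    gcongr
  obtain ⟨x, hx, y, hy, hxy, hf⟩ := hT.exists_ne_map_eq_of_mapsTo hmaps (finite_Icc _ _)
  have key : ∀ x y : ℝ, ⌊(x - a) / w⌋ = ⌊(y - a) / w⌋ → y ≤ x + w := by
    intro x y h
    have h1 : (y - a) / w < ⌊(y - a) / w⌋ + 1 := Int.lt_floor_add_one _
    have h2 : (⌊(x - a) / w⌋ : ℝ) ≤ (x - a) / w := Int.floor_le _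
    rw [← h] at h1
    have h3 : (y - a) / w < (x - a) / w + 1 := by linarith
    have h4 : (x - a) / w + 1 = (x - a + w) / w := by field_simp
    rw [h4, div_lt_div_iff_of_pos_right hw] at h3
    linarith
  rcases lt_or_gt_of_ne hxy with h | h
  · exact ⟨x, hx.1, y, hy.1, hx.2.1, h, hy.2.2, key x y hf⟩
  · exact ⟨y, hy.1, x, hx.1, hy.2.1, h, hx.2.2, key y x hf.symm⟩

end Pool.Agent.Walls
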