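import Pool.Agent.Lib.MP_4f753b_an.W.W7

/-!
Row 4f-W8: the walls.

Let `M : ℕ` with `M d ≥ R` (e.g. `M = ⌈R / d⌉₊`), and for each `i` and each integer `a ∈ [-M - 1, M]` let `t i a < t' i a` be the pair of
`exists_close_pair` for `T i ∩ Ioo (a d) ((a + 1) d)`, with `w / n` in place of `w`. Slabs `S i a = {x | t i a < x i < t' i a}`, box
`Q = {x | ∀ i, t i (-M - 1) < x i < t' i M}` (it contains `closedBall 0 R`, since `t i (-M - 1) < - M d ≤ - R` and
`t' i M > M d ≥ R`), `O = Q ∩ ⋃ i a, S i a`. With the middle thirds `u i a < u' i a` of `(t i a, t' i a)`: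
`K = closedBall 0 R ∩ ⋃ i a, {x | u i a ≤ x i ≤ u' i a}`, compact, `K ⊆ O`.
* frontier: `x ∈ closure O \ O`; `x` is in the closed box and in a closed slab `t i a ≤ x i ≤ t' i a` (finite union), so either some
  coordinate `x j` is `t j (-M - 1)` or `t' j M` or `x i ∈ {t i a, t' i a}`: in all cases `x j ∈ T j` for some `j`.
* `closure O ⊆ {x | ∀ i, |x i| ≤ R + 2 d}`: choose `M` with `M d ≤ R + d`, so `(M + 1) d ≤ R + 2 d`.
* `infDist x Oᶜ ≤ w`: let `x'` be `x` with each coordinate `x i` which is in a slab interval `(t i a, t' i a)` replaced by `t i a`; then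
  `x' ∉ O` and `dist x x' ≤ n * (w / n)` (`dist ≤ sum` of the coordinate distances; see `box_dist` in file E1).
* cells: for `α : Fin n → ℤ` with `α i ∈ [-M - 1, M - 1]` the box `∏ i, [u' i (α i), u i (α i + 1)]` (`box` of file E1: `box_compact`,
  `box_convex`, `box_dist`), pairwise disjoint, diameter `≤ n * 2 d`. A point of `closedBall 0 R` not in `K` has each coordinate
  in `[-R, R]` and in no `[u i a, u' i a]`, so in a gap.
See the proof of `exists_boxes` in file E1 for the same kind of bookkeeping.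
-/

open Set Metric Filter Pool.Agent.TopCells

namespace Pool.Agent.Walls

theorem exists_walls {n : ℕ} (hn : 0 < n) {R d w : ℝ} (hR : 0 < R) (hd : 0 < d) (hw : 0 < w)
    (T : Fin n → Set ℝ) (hT : ∀ i a, (T i ∩ Ioo a (a + d)).Infinite) :
    ∃ (O K : Set (EuclideanSpace ℝ (Fin n))) (𝒬 : Set (Set (EuclideanSpace ℝ (Fin n)))),
      IsOpen O ∧ Bornology.IsBounded O ∧ IsCompact K ∧ K ⊆ O ∧
      (∀ x ∈ frontier O, ∃ i, x i ∈ T i) ∧
      (∀ x ∈ closure O, ∀ i, |x i| ≤ R + 2 * d) ∧
      (∀ x ∈ O, infDist x Oᶜ ≤ w) ∧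
      𝒬.Finite ∧ 𝒬.PairwiseDisjoint id ∧
      (∀ Q ∈ 𝒬, IsCompact Q ∧ Convex ℝ Q ∧ diam Q ≤ n * (2 * d)) ∧
      closedBall 0 R ⊆ K ∪ ⋃₀ 𝒬 := by
  classical
  have hn' : (0 : ℝ) < n := by exact_mod_cast hn
  choose t htT t' ht'T ht1 ht2 ht3 ht4 using fun (i : Fin n) (a : ℤ) =>
    exists_close_pair (hT i (a * d)) (w := w / n) (by positivity)
  set M : ℕ := ⌈R / d⌉₊ with hM
  have hM1 : R ≤ M * d := by
    have := Nat.le_ceil (R / d)
    rwa [div_le_iff₀ hd] at this
  have hM2 : M * d ≤ R + d := by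
    have := Nat.ceil_lt_add_one (show 0 ≤ R / d by positivity)
    rw [← hM] at this
    have h2 : (M : ℝ) * d < (R / d + 1) * d := mul_lt_mul_of_pos_right this hd
    have h3 : (R / d + 1) * d = R + d := by field_simp
    linarith
  -- order of the slabs
  have hsep : ∀ i (a b : ℤ), a < b → t' i a < t i b := by
    intro i a b hab
    have h1 := ht3 i a
    have h2 := ht1 i b
    have h3 : (a : ℝ) + 1 ≤ b := by exact_mod_cast hab
    nlinarith
  let u : Fin n → ℤ → ℝ := fun i a => t i a + (t' i a - t i a) / 3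
  let u' : Fin n → ℤ → ℝ := fun i a => t i a + 2 * (t' i a - t i a) / 3
  have hu1 : ∀ i a, t i a < u i a := fun i a => by
    have := ht2 i a
    simp only [u]
    linarith
  have hu2 : ∀ i a, u i a < u' i a := fun i a => by
    have := ht2 i a
    simp only [u, u']
    linarith
  have hu3 : ∀ i a, u' i a < t' i a := fun i a => by
    have := ht2 i a
    simp only [u']
    linarith
  let I : Finset ℤ := Finset.Icc (-(M : ℤ) - 1) M
  have hLI : (-(M : ℤ) - 1) ∈ I := Finset.mem_Icc.2 ⟨le_refl _, by omega⟩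
  have hUI : (M : ℤ) ∈ I := Finset.mem_Icc.2 ⟨by omega, le_refl _⟩
  let Lo : Fin n → ℝ := fun i => t i (-(M : ℤ) - 1)
  let Up : Fin n → ℝ := fun i => t' i M
  have hLo1 : ∀ i, -(R + 2 * d) ≤ Lo i := by
    intro i
    have := ht1 i (-(M : ℤ) - 1)
    push_cast at this
    simp only [Lo]
    nlinarith
  have hLo2 : ∀ i, Lo i < -R := by
    intro i
    have h1 := ht2 i (-(M : ℤ) - 1)
    have h2 := ht3 i (-(M : ℤ) - 1)
    push_cast at h2
    simp only [Lo]
    nlinarith
  have hUp1 : ∀ i, Up i ≤ R + 2 * d := by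
    intro i
    have := ht3 i M
    push_cast at this
    simp only [Up]
    nlinarith
  have hUp2 : ∀ i, R < Up i := by
    intro i
    have h1 := ht1 i M
    have h2 := ht2 i M
    push_cast at h1
    simp only [Up]
    nlinarith
  let O : Set (EuclideanSpace ℝ (Fin n)) :=
    (⋂ i, (fun x : EuclideanSpace ℝ (Fin n) => x i) ⁻¹' Ioo (Lo i) (Up i)) ∩
      ⋃ i, ⋃ a ∈ I, (fun x : EuclideanSpace ℝ (Fin n) => x i) ⁻¹' Ioo (t i a) (t' i a)
  have hcont : ∀ i, Continuous fun x : EuclideanSpace ℝ (Fin n) => x i := fun i =>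
    (EuclideanSpace.proj (𝕜 := ℝ) i).continuous
  have memO : ∀ x, x ∈ O ↔ (∀ i, x i ∈ Ioo (Lo i) (Up i)) ∧
      ∃ i, ∃ a ∈ I, x i ∈ Ioo (t i a) (t' i a) := by
    intro x
    simp only [O, mem_inter_iff, mem_iInter, mem_iUnion, mem_preimage, exists_prop]
  let C : Set (EuclideanSpace ℝ (Fin n)) :=
    (⋂ i, (fun x : EuclideanSpace ℝ (Fin n) => x i) ⁻¹' Icc (Lo i) (Up i)) ∩
      ⋃ i, ⋃ a ∈ I, (fun x : EuclideanSpace ℝ (Fin n) => x i) ⁻¹' Icc (t i a) (t' i a)
  have memC : ∀ x, x ∈ C ↔ (∀ i, x i ∈ Icc (Lo i) (Up i)) ∧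
      ∃ i, ∃ a ∈ I, x i ∈ Icc (t i a) (t' i a) := by
    intro x
    simp only [C, mem_inter_iff, mem_iInter, mem_iUnion, mem_preimage, exists_prop]
  have hOopen : IsOpen O := by
    refine (isOpen_iInter_of_finite fun i => isOpen_Ioo.preimage (hcont i)).inter ?_
    exact isOpen_iUnion fun i => isOpen_biUnion fun a _ => isOpen_Ioo.preimage (hcont i)
  have hCclosed : IsClosed C := by
    refine (isClosed_iInter fun i => isClosed_Icc.preimage (hcont i)).inter ?_
    refine isClosed_iUnion_of_finite fun i => ?_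
    exact I.finite_toSet.isClosed_biUnion fun a _ => isClosed_Icc.preimage (hcont i)
  have hOC : O ⊆ C := by
    intro x hx
    rw [memO] at hx
    rw [memC]
    obtain ⟨h1, i, a, ha, h2⟩ := hx
    exact ⟨fun i => Ioo_subset_Icc_self (h1 i), i, a, ha, Ioo_subset_Icc_self h2⟩
  have hclO : closure O ⊆ C := closure_minimal hOC hCclosed
  have hbd : ∀ x ∈ C, ∀ i, |x i| ≤ R + 2 * d := by
    intro x hx i
    rw [memC] at hx
    have h1 := hx.1 i
    rw [abs_le]
    exact ⟨(hLo1 i).trans h1.1, h1.2.trans (hUp1 i)⟩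
  have hKclosed : IsClosed (⋃ i, ⋃ a ∈ I,
      (fun x : EuclideanSpace ℝ (Fin n) => x i) ⁻¹' Icc (u i a) (u' i a)) := by
    refine isClosed_iUnion_of_finite fun i => ?_
    exact I.finite_toSet.isClosed_biUnion fun a _ => isClosed_Icc.preimage (hcont i)
  have hball : ∀ x ∈ closedBall (0 : EuclideanSpace ℝ (Fin n)) R, ∀ i, |x i| ≤ R := by
    intro x hx i
    rw [mem_closedBall_zero_iff] at hx
    have h1 := PiLp.norm_apply_le x i
    rw [Real.norm_eq_abs] at h1
    exact h1.trans hx
  let F : (Fin n → ℤ) → Set (EuclideanSpace ℝ (Fin n)) := fun α =>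
    box (fun i => u' i (α i)) (fun i => u i (α i + 1))
  let S : Finset (Fin n → ℤ) := Fintype.piFinset fun _ => Finset.Icc (-(M : ℤ) - 1) (M - 1)
  refine ⟨O, closedBall 0 R ∩ ⋃ i, ⋃ a ∈ I,
      (fun x : EuclideanSpace ℝ (Fin n) => x i) ⁻¹' Icc (u i a) (u' i a), F '' S, hOopen, ?_, ?_,
      ?_, ?_, ?_, ?_, S.finite_toSet.image F, ?_, ?_, ?_⟩
  · -- bounded
    refine (box_compact (fun i => Lo i) (fun i => Up i)).isBounded.subset ?_
    intro x hx i
    rw [memO] at hx
    exact Ioo_subset_Icc_self (hx.1 i)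
  · exact (isCompact_closedBall _ _).inter_right hKclosed
  · -- K ⊆ O
    rintro x ⟨hx1, hx2⟩
    simp only [mem_iUnion, mem_preimage, exists_prop] at hx2
    obtain ⟨i, a, ha, hxa⟩ := hx2
    rw [memO]
    refine ⟨fun j => ?_, i, a, ha, (hu1 i a).trans_le hxa.1, hxa.2.trans_lt (hu3 i a)⟩
    have h1 := abs_le.1 (hball x hx1 j)
    exact ⟨(hLo2 j).trans_le h1.1, h1.2.trans_lt (hUp2 j)⟩
  · -- frontier
    intro x hx
    by_contra hcon
    push Not at hcon
    have h1 : x ∈ C := hclO (frontier_subset_closure hx)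
    rw [memC] at h1
    obtain ⟨h1, i, a, ha, h2⟩ := h1
    rw [hOopen.frontier_eq] at hx
    apply hx.2
    rw [memO]
    refine ⟨fun j => ⟨lt_of_le_of_ne (h1 j).1 ?_, lt_of_le_of_ne (h1 j).2 ?_⟩, i, a, ha,
      lt_of_le_of_ne h2.1 ?_, lt_of_le_of_ne h2.2 ?_⟩
    · intro h3
      exact hcon j (h3 ▸ htT j _)
    · intro h3
      exact hcon j (h3 ▸ ht'T j _)
    · intro h3
      exact hcon i (h3 ▸ htT i _)
    · intro h3
      exact hcon i (h3 ▸ ht'T i _)
  · exact fun x hx => hbd x (hclO hx)
  · -- distance to the complement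
    intro x _
    let r : Fin n → ℝ → ℝ := fun i s =>
      if h : ∃ a ∈ I, s ∈ Ioo (t i a) (t' i a) then t i h.choose else s
    have hr1 : ∀ i s, ∀ b ∈ I, r i s ∉ Ioo (t i b) (t' i b) := by
      intro i s b hb hmem
      by_cases h : ∃ a ∈ I, s ∈ Ioo (t i a) (t' i a)
      · have h1 : r i s = t i h.choose := dif_pos h
        rw [h1] at hmem
        rcases lt_trichotomy h.choose b with h2 | h2 | h2
        · have h3 := hsep i _ _ h2
          have h4 := ht2 i h.choose
          linarith [hmem.1]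
        · rw [h2] at hmem
          exact lt_irrefl _ hmem.1
        · have h3 := hsep i _ _ h2
          linarith [hmem.2]
      · have h1 : r i s = s := dif_neg h
        rw [h1] at hmem
        exact h ⟨b, hb, hmem⟩
    have hr2 : ∀ i s, |s - r i s| ≤ w / n := by
      intro i s
      by_cases h : ∃ a ∈ I, s ∈ Ioo (t i a) (t' i a)
      · have h1 : r i s = t i h.choose := dif_pos h
        have h2 := h.choose_spec.2
        have h3 := ht4 i h.choose
        rw [h1, abs_le]
        constructor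
        · have : 0 ≤ w / n := by positivity
          linarith [h2.1]
        · linarith [h2.2]
      · have h1 : r i s = s := dif_neg h
        rw [h1, sub_self, abs_zero]
        positivity
    let x' : EuclideanSpace ℝ (Fin n) := WithLp.toLp 2 fun i => r i (x i)
    have hx' : x' ∈ Oᶜ := by
      intro hx'
      rw [memO] at hx'
      obtain ⟨_, i, b, hb, h2⟩ := hx'
      exact hr1 i (x i) b hb h2
    have hdist : dist x x' ≤ w := by
      have h1 := box_dist (a := fun i => min (x i) (x' i)) (b := fun i => max (x i) (x' i))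
        (d := w / n) (by positivity) (fun i => by
          rw [max_sub_min_eq_abs']
          exact hr2 i (x i)) (x := x) (y := x')
        (fun i => ⟨min_le_left _ _, le_max_left _ _⟩) (fun i => ⟨min_le_right _ _, le_max_right _ _⟩)
      have h2 : (n : ℝ) * (w / n) = w := by field_simp
      rwa [h2] at h1
    exact (infDist_le_dist_of_mem hx').trans hdist
  · -- disjoint
    have hdis : ∀ i (a b : ℤ), a < b → u i (a + 1) < u' i b := by
      intro i a b hab
      rcases (show a + 1 = b ∨ a + 1 < b by omega) with h1 | h1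
      · rw [h1]
        exact hu2 i b
      · have h2 := hsep i _ _ h1
        have h3 := hu2 i (a + 1)
        have h4 := hu3 i (a + 1)
        have h5 := hu1 i b
        have h6 := hu2 i b
        linarith
    rintro _ ⟨φ, _, rfl⟩ _ ⟨ψ, _, rfl⟩ hne
    have h2 : φ ≠ ψ := fun h => hne (by rw [h])
    obtain ⟨i, hi⟩ := Function.ne_iff.1 h2
    rw [Function.onFun, id, id, Set.disjoint_left]
    intro x hx hx'
    have h3 := hx i
    have h4 := hx' i
    simp only [mem_Icc] at h3 h4
    rcases lt_or_gt_of_ne hi with h5 | h5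
    · have := hdis i _ _ h5
      linarith
    · have := hdis i _ _ h5
      linarith
  · -- cells
    rintro _ ⟨φ, _, rfl⟩
    refine ⟨box_compact _ _, box_convex _ _, diam_le_of_forall_dist_le (by positivity) ?_⟩
    intro x hx y hy
    refine box_dist (by positivity) (fun i => ?_) hx hy
    have h1 := hu2 i (φ i + 1)
    have h2 := hu3 i (φ i + 1)
    have h3 := ht3 i (φ i + 1)
    have h4 := hu1 i (φ i)
    have h5 := hu2 i (φ i)
    have h6 := ht1 i (φ i)
    push_cast at h3
    linarith
  · -- cover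
    intro x hx
    by_cases hK : ∃ i, ∃ a ∈ I, x i ∈ Icc (u i a) (u' i a)
    · left
      refine ⟨hx, ?_⟩
      simp only [mem_iUnion, mem_preimage, exists_prop]
      exact hK
    right
    have hα : ∀ i, ∃ a ∈ Finset.Icc (-(M : ℤ) - 1) ((M : ℤ) - 1),
        x i ∈ Icc (u' i a) (u i (a + 1)) := by
      intro i
      have hxi := abs_le.1 (hball x hx i)
      set b : ℤ := ⌊x i / d⌋ with hb
      have hb1 : (b : ℝ) * d ≤ x i := by
        have := Int.floor_le (x i / d)
        rwa [le_div_iff₀ hd] at this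
      have hb2 : x i < ((b : ℝ) + 1) * d := by
        have := Int.lt_floor_add_one (x i / d)
        rwa [div_lt_iff₀ hd] at this
      have hb3 : -(M : ℤ) ≤ b := by
        rw [hb, Int.le_floor, le_div_iff₀ hd]
        push_cast
        linarith
      have hb4 : b ≤ M := by
        have h1 : (b : ℝ) * d ≤ M * d := by linarith
        have h2 : (b : ℝ) ≤ M := le_of_mul_le_mul_right h1 hd
        exact_mod_cast h2
      by_cases hcase : u' i b ≤ x i
      · refine ⟨b, Finset.mem_Icc.2 ⟨by omega, ?_⟩, hcase, ?_⟩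
        · rcases (show b ≤ (M : ℤ) - 1 ∨ b = M by omega) with h1 | h1
          · exact h1
          · exfalso
            rw [h1] at hcase
            have h2 := ht1 i M
            have h3 := hu1 i M
            have h4 := hu2 i M
            push_cast at h2
            linarith
        · have h2 := ht1 i (b + 1)
          have h3 := hu1 i (b + 1)
          push_cast at h2
          linarith
      · push Not at hcase
        have h1 : x i < u i b := by
          by_contra h2
          push Not at h2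
          exact hK ⟨i, b, Finset.mem_Icc.2 ⟨by omega, hb4⟩, h2, hcase.le⟩
        refine ⟨b - 1, Finset.mem_Icc.2 ⟨by omega, by omega⟩, ?_, ?_⟩
        · have h2 := hu3 i (b - 1)
          have h3 := ht3 i (b - 1)
          push_cast at h3
          linarith
        · rw [sub_add_cancel]
          exact h1.le
    choose α hα hαx using hα
    refine ⟨F α, ⟨α, ?_, rfl⟩, hαx⟩
    rw [Finset.mem_coe, Fintype.mem_piFinset]
    exact hα

end Pool.Agent.Walls
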