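import Pool.Agent.Lib.MP_4f753b_an.W.W6
import Pool.Agent.Lib.MP_4f753b_an.W.W8

/-!
Row 4f-W9: the walls criterion.

`ε = ε₁` of `exists_smooth_near` (for `V = EuclideanSpace ℝ (Fin n)`, nontrivial as `n ≥ 2`). To prove `Approx f` use `approx_of_bad`
(file E2): given `R`, `d`, let `δ = min (d / (4 * n)) (min (d / 4) 1)`, `R' = n * (R + 3)`, and let `h`, `r` be given by the hypothesis for
`R'`, `δ`. `T i = {t | ∀ x ∈ closedBall 0 R', x i = t → ∀ s, 0 < s → s ≤ r → AA ε h x s}`. Apply `exists_walls` with `R`, `d := δ` and a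
small `w ≤ r / 2` with `‖h y - h x‖ ≤ d / 8` for `x ∈ closedBall 0 R'`, `dist y x ≤ w` (uniform continuity). A point with `|x i| ≤ R + 2 δ` for
all `i` is in `closedBall 0 R'`, so the frontier of `O` consists of good points, and `exists_smooth_near` with `δ := d / 8` gives `H`.
-/

open Set Metric Filter Module MeasureTheory Pool.Agent.TopCells
open scoped ContDiff Topology

namespace Pool.Agent.Walls

theorem approx_of_walls (n : ℕ) (hn : 2 ≤ n) : ∃ ε : ℝ, 0 < ε ∧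
    ∀ f : EuclideanSpace ℝ (Fin n) ≃ₜ EuclideanSpace ℝ (Fin n),
    (∀ R : ℝ, 0 < R → ∀ δ : ℝ, 0 < δ → ∃ h : EuclideanSpace ℝ (Fin n) ≃ₜ EuclideanSpace ℝ (Fin n),
      (∀ x ∈ closedBall (0 : EuclideanSpace ℝ (Fin n)) R, dist (h x) (f x) < δ) ∧
      ∃ r : ℝ, 0 < r ∧ ∀ (i : Fin n) (a : ℝ), {t : ℝ | t ∈ Ioo a (a + δ) ∧
        ∀ x ∈ closedBall (0 : EuclideanSpace ℝ (Fin n)) R, x i = t →
          ∀ s : ℝ, 0 < s → s ≤ r → AA ε h x s}.Infinite) → Approx f := by
  classical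
  haveI : Nonempty (Fin n) := ⟨⟨0, by omega⟩⟩
  haveI : Nontrivial (EuclideanSpace ℝ (Fin n)) := inferInstance
  obtain ⟨ε₁, hε₁, hS⟩ := exists_smooth_near (EuclideanSpace ℝ (Fin n))
  refine ⟨ε₁, hε₁, fun f hf => ?_⟩
  apply approx_of_bad hn f
  intro R hR d hd
  have hn2 : (2 : ℝ) ≤ n := by exact_mod_cast hn
  have hn0 : (0 : ℝ) < n := by linarith
  obtain ⟨δ, hδ, hδ1, hδ2, hδ3⟩ : ∃ δ : ℝ, 0 < δ ∧ δ ≤ d / (4 * n) ∧ δ ≤ d / 4 ∧ δ ≤ 1 := by
    refine ⟨min (d / (4 * n)) (min (d / 4) 1), ?_, min_le_left _ _,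
      (min_le_right _ _).trans (min_le_left _ _), (min_le_right _ _).trans (min_le_right _ _)⟩
    exact lt_min (by positivity) (lt_min (by linarith) one_pos)
  have hR' : 0 < (n : ℝ) * (R + 3) := by positivity
  obtain ⟨h, hh1, r, hr, hT⟩ := hf ((n : ℝ) * (R + 3)) hR' δ hδ
  have huc : UniformContinuousOn h (closedBall (0 : EuclideanSpace ℝ (Fin n)) ((n : ℝ) * (R + 3) + 1)) :=
    (isCompact_closedBall 0 _).uniformContinuousOn_of_continuous h.continuous.continuousOn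
  obtain ⟨η, hη, hhη⟩ := Metric.uniformContinuousOn_iff.1 huc (d / 8) (by linarith)
  obtain ⟨w, hw, hw1, hw2, hw3⟩ : ∃ w : ℝ, 0 < w ∧ w ≤ r / 2 ∧ w < η ∧ w ≤ 1 := by
    refine ⟨min (r / 2) (min (η / 2) 1), lt_min (by linarith) (lt_min (by linarith) one_pos),
      min_le_left _ _, ?_, (min_le_right _ _).trans (min_le_right _ _)⟩
    have := (min_le_right (r / 2) (min (η / 2) 1)).trans (min_le_left _ _)
    linarith
  obtain ⟨O, K, 𝒬, hO, hOb, hK, hKO, hfr, hcl, hinf, hfin, hdis, hQ, hcov⟩ :=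
    exists_walls (n := n) (by omega) hR hδ hw
      (fun i => {t : ℝ | ∀ x ∈ closedBall (0 : EuclideanSpace ℝ (Fin n)) ((n : ℝ) * (R + 3)), x i = t →
          ∀ s : ℝ, 0 < s → s ≤ r → AA ε₁ h x s}) (by
      intro i a
      refine (hT i a).mono ?_
      rintro t ⟨h1, h2⟩
      exact ⟨h2, h1⟩)
  have hball : ∀ x ∈ closure O, x ∈ closedBall (0 : EuclideanSpace ℝ (Fin n)) ((n : ℝ) * (R + 3)) := by
    intro x hx
    rw [mem_closedBall_zero_iff, EuclideanSpace.norm_eq]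
    have h1 : ∑ i, ‖x i‖ ^ 2 ≤ ∑ _i : Fin n, (R + 2) ^ 2 := by
      apply Finset.sum_le_sum
      intro i _
      have h2 := hcl x hx i
      rw [Real.norm_eq_abs]
      exact pow_le_pow_left₀ (abs_nonneg _) (by linarith) 2
    rw [Finset.sum_const, Finset.card_univ, Fintype.card_fin, nsmul_eq_mul] at h1
    apply Real.sqrt_le_iff.2
    refine ⟨hR'.le, h1.trans ?_⟩
    have h3 : (n : ℝ) * (R + 2) ^ 2 ≤ n * (n * (R + 3) ^ 2) := by
      apply mul_le_mul_of_nonneg_left _ hn0.le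
      nlinarith
    nlinarith
  obtain ⟨H, hH1, hH2⟩ := hS h O K r (d / 8) hO hOb hK hKO hr (by linarith)
    (by
      intro x hx s hs hsr
      obtain ⟨i, hi⟩ := hfr x hx
      exact hi x (hball x (frontier_subset_closure hx)) rfl s hs hsr)
    (fun x hx => (hinf x hx).trans hw1)
    (by
      intro x hx y hy
      have h1 := hball x (subset_closure hx)
      rw [mem_closedBall] at h1 hy
      have h2 : dist y x ≤ w := hy.trans (hinf x hx)
      have h3 := dist_triangle y x 0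
      have h4 : x ∈ closedBall (0 : EuclideanSpace ℝ (Fin n)) ((n : ℝ) * (R + 3) + 1) := by
        rw [mem_closedBall]
        linarith
      have h5 : y ∈ closedBall (0 : EuclideanSpace ℝ (Fin n)) ((n : ℝ) * (R + 3) + 1) := by
        rw [mem_closedBall]
        linarith
      have h6 := hhη y h5 x h4 (lt_of_le_of_lt h2 hw2)
      rw [dist_eq_norm] at h6
      exact h6.le)
  refine ⟨H, ?_, Or.inr ⟨𝒬, hfin, hdis, fun Q hQ' => ?_, ?_⟩⟩
  · intro x hx
    have h1 : x ∈ closedBall (0 : EuclideanSpace ℝ (Fin n)) ((n : ℝ) * (R + 3)) := by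
      rw [mem_closedBall] at hx ⊢
      nlinarith
    have h2 := hh1 x h1
    have h3 := hH1 x
    rw [← dist_eq_norm] at h3
    have h4 := dist_triangle (H x) (h x) (f x)
    linarith
  · obtain ⟨q1, q2, q3⟩ := hQ Q hQ'
    refine ⟨⟨q1, Or.inl q2⟩, lt_of_le_of_lt q3 ?_⟩
    have h1 : (n : ℝ) * (2 * δ) ≤ n * (2 * (d / (4 * n))) := by
      apply mul_le_mul_of_nonneg_left _ hn0.le
      linarith
    have h2 : (n : ℝ) * (2 * (d / (4 * n))) = d / 2 := by
      field_simp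
      norm_num
    linarith
  · rintro x ⟨hx1, hx2⟩
    rcases hcov hx1 with hx3 | hx3
    · exact absurd (hH2 x hx3) hx2
    · exact hx3

end Pool.Agent.Walls
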